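import Pool.Agent.RZ.RCRSHalf.Infl
import Pool.Agent.RZ.RCRSHalf.Ode

/-! Ratios of four backward functions: the one-set step (MP_73ccd0_lc, route M). -/

namespace Pool.Agent.RZ.RCM

open Set Finset Pool.Agent.RZ.RCRSHalf

set_option linter.unusedSectionVars false

/-- lower bound of the ratio `A B / (C D)` by the maximum principle -/
theorem step_lower {A B C D rA rB rC rD q q' : ℝ → ℝ} {s : ℝ}
    (hA : ∀ r ∈ Icc 0 s, HasDerivAt A (-(rA r * A r)) r) (A0 : ∀ r ∈ Icc 0 s, 0 < A r)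
    (hB : ∀ r ∈ Icc 0 s, HasDerivAt B (-(rB r * B r)) r) (B0 : ∀ r ∈ Icc 0 s, 0 < B r)
    (hC : ∀ r ∈ Icc 0 s, HasDerivAt C (-(rC r * C r)) r) (C0 : ∀ r ∈ Icc 0 s, 0 < C r)
    (hD : ∀ r ∈ Icc 0 s, HasDerivAt D (-(rD r * D r)) r) (D0 : ∀ r ∈ Icc 0 s, 0 < D r)
    (hq : ∀ r ∈ Icc 0 s, HasDerivAt q (q' r) r)
    (hend : 0 ≤ s → C s * D s ≤ Real.exp (q s) * (A s * B s))
    (hstep : ∀ r ∈ Icc 0 s, Real.exp (q r) * (A r * B r) < C r * D r →
      q' r ≤ rA r + rB r - rC r - rD r) :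
    ∀ r ∈ Icc 0 s, C r * D r ≤ Real.exp (q r) * (A r * B r) := by
  intro r hr
  have hs : 0 ≤ s := hr.1.trans hr.2
  have hsm : s ∈ Icc 0 s := ⟨hs, le_rfl⟩
  have lg : ∀ {X rX : ℝ → ℝ}, (∀ r ∈ Icc 0 s, HasDerivAt X (-(rX r * X r)) r) →
      (∀ r ∈ Icc 0 s, 0 < X r) → ∀ r ∈ Icc 0 s,
      HasDerivAt (fun t => Real.log (X t)) (-(rX r)) r := by
    intro X rX hX X0 r hr
    refine ((hX r hr).log (X0 r hr).ne').congr_deriv ?_
    have := (X0 r hr).ne'
    field_simp
  have key := nonneg_of_backward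
    (U := fun t => q t + (Real.log (A t) + Real.log (B t)) - (Real.log (C t) + Real.log (D t)))
    (U' := fun t => q' t + (-(rA t) + -(rB t)) - (-(rC t) + -(rD t))) (a := 0) (s := s)
    (fun r hr => ((hq r hr).add ((lg hA A0 r hr).add (lg hB B0 r hr))).sub
      ((lg hC C0 r hr).add (lg hD D0 r hr)))
    (by
      have h1 := Real.log_le_log (mul_pos (C0 s hsm) (D0 s hsm)) (hend hs)
      rw [Real.log_mul (C0 s hsm).ne' (D0 s hsm).ne', Real.log_mul (Real.exp_pos _).ne'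
        (mul_pos (A0 s hsm) (B0 s hsm)).ne', Real.log_exp,
        Real.log_mul (A0 s hsm).ne' (B0 s hsm).ne'] at h1
      linarith)
    (by
      intro r hr hlt
      have h1 : Real.exp (q r) * (A r * B r) < C r * D r := by
        rw [← Real.log_lt_log_iff (mul_pos (Real.exp_pos _) (mul_pos (A0 r hr) (B0 r hr)))
          (mul_pos (C0 r hr) (D0 r hr)), Real.log_mul (C0 r hr).ne' (D0 r hr).ne',
          Real.log_mul (Real.exp_pos _).ne' (mul_pos (A0 r hr) (B0 r hr)).ne', Real.log_exp,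
          Real.log_mul (A0 r hr).ne' (B0 r hr).ne']
        linarith
      have := hstep r hr h1
      linarith)
    r hr
  rw [← Real.log_le_log_iff (mul_pos (C0 r hr) (D0 r hr))
    (mul_pos (Real.exp_pos _) (mul_pos (A0 r hr) (B0 r hr))), Real.log_mul (C0 r hr).ne' (D0 r hr).ne',
    Real.log_mul (Real.exp_pos _).ne' (mul_pos (A0 r hr) (B0 r hr)).ne', Real.log_exp,
    Real.log_mul (A0 r hr).ne' (B0 r hr).ne']
  linarith

/-- upper bound of the ratio `A B / (C D)` by the maximum principle -/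
theorem step_upper {A B C D rA rB rC rD q q' : ℝ → ℝ} {s : ℝ}
    (hA : ∀ r ∈ Icc 0 s, HasDerivAt A (-(rA r * A r)) r) (A0 : ∀ r ∈ Icc 0 s, 0 < A r)
    (hB : ∀ r ∈ Icc 0 s, HasDerivAt B (-(rB r * B r)) r) (B0 : ∀ r ∈ Icc 0 s, 0 < B r)
    (hC : ∀ r ∈ Icc 0 s, HasDerivAt C (-(rC r * C r)) r) (C0 : ∀ r ∈ Icc 0 s, 0 < C r)
    (hD : ∀ r ∈ Icc 0 s, HasDerivAt D (-(rD r * D r)) r) (D0 : ∀ r ∈ Icc 0 s, 0 < D r)
    (hq : ∀ r ∈ Icc 0 s, HasDerivAt q (q' r) r)
    (hend : 0 ≤ s → A s * B s ≤ Real.exp (q s) * (C s * D s))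
    (hstep : ∀ r ∈ Icc 0 s, Real.exp (q r) * (C r * D r) < A r * B r →
      rA r + rB r - rC r - rD r ≤ -q' r) :
    ∀ r ∈ Icc 0 s, A r * B r ≤ Real.exp (q r) * (C r * D r) :=
  step_lower hC C0 hD D0 hA A0 hB B0 hq hend (fun r hr h => by
    have := hstep r hr h
    linarith)

variable {V : Type*} [Fintype V] [DecidableEq V]

/-- log rate of a set function under the generator -/
noncomputable def lr (h : V → V → ℝ) (φ : Finset V → ℝ) (F : Finset V) : ℝ :=
  (1 / 2) * ∑ x ∈ F, ∑ y ∈ F, h x y * (φ ((F.erase x).erase y) / φ F - 1)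

theorem lr_eq (h : V → V → ℝ) {φ : Finset V → ℝ} {F : Finset V} (h0 : φ F ≠ 0) :
    gen h φ F = lr h φ F * φ F := by
  unfold gen lr
  rw [mul_assoc, Finset.sum_mul]
  congr 1
  refine Finset.sum_congr rfl fun x _ => ?_
  rw [Finset.sum_mul]
  refine Finset.sum_congr rfl fun y _ => ?_
  field_simp

/-- one inserted vertex -/
theorem lr_insert (h : V → V → ℝ) (hs : ∀ a b, h a b = h b a) (haa : ∀ a, h a a = 0)
    {φ : Finset V → ℝ} {i : V} {F : Finset V} (hi : i ∉ F) (h0 : φ (insert i F) ≠ 0) :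
    lr h φ (insert i F) = lr h (fun G => φ (insert i G)) F
      + ∑ b ∈ F, h i b * (φ (F.erase b) / φ (insert i F) - 1) := by
  have e := gen_insert h hs haa φ hi
  rw [lr_eq h h0] at e
  have e2 : lr h φ (insert i F) * φ (insert i F)
      = (lr h (fun G => φ (insert i G)) F
        + ∑ b ∈ F, h i b * (φ (F.erase b) / φ (insert i F) - 1)) * φ (insert i F) := by
    rw [e, add_mul]
    congr 1
    · have := lr_eq h (φ := fun G => φ (insert i G)) (F := F) h0
      unfold gen at this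
      exact this
    · rw [Finset.sum_mul]
      refine Finset.sum_congr rfl fun b _ => ?_
      field_simp
  exact mul_right_cancel₀ h0 e2

/-- two inserted vertices -/
theorem lr_insert2 (h : V → V → ℝ) (hs : ∀ a b, h a b = h b a) (haa : ∀ a, h a a = 0)
    {φ : Finset V → ℝ} {i j : V} {F : Finset V} (hi : i ∉ F) (hj : j ∉ F) (hij : i ≠ j)
    (h0 : φ (insert i (insert j F)) ≠ 0) :
    lr h φ (insert i (insert j F)) = lr h (fun G => φ (insert i (insert j G))) F
      + ∑ b ∈ F, h i b * (φ (insert j (F.erase b)) / φ (insert i (insert j F)) - 1)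
      + ∑ b ∈ F, h j b * (φ (insert i (F.erase b)) / φ (insert i (insert j F)) - 1)
      + h i j * (φ F / φ (insert i (insert j F)) - 1) := by
  have hi' : i ∉ insert j F := by
    rw [Finset.mem_insert]; rintro (e | e)
    · exact hij e
    · exact hi e
  rw [lr_insert h hs haa hi' h0, lr_insert h hs haa (φ := fun G => φ (insert i G)) hj h0,
    Finset.sum_insert hj, Finset.erase_insert hj]
  have e : ∀ b ∈ F, (insert j F).erase b = insert j (F.erase b) := by
    intro b hb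
    exact Finset.erase_insert_of_ne (fun e => hj (e ▸ hb))
  have e2 : ∑ b ∈ F, h i b * (φ ((insert j F).erase b) / φ (insert i (insert j F)) - 1)
      = ∑ b ∈ F, h i b * (φ (insert j (F.erase b)) / φ (insert i (insert j F)) - 1) :=
    Finset.sum_congr rfl fun b hb => by rw [e b hb]
  rw [e2]
  ring

end Pool.Agent.RZ.RCM
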