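import Pool.Agent.RZ.RCG.Base
import Pool.Agent.RZ.RCM.Step

/-! Worlds and the rate identity for four functions (MP_73ccd0_lc, route M). -/

namespace Pool.Agent.RZ.RCM

open Set Finset Pool.Agent.RZ.RCRSHalf Pool.Agent.RZ.RCG

set_option linter.unusedSectionVars false

variable {V : Type*} [Fintype V] [DecidableEq V]

/-- a positive backward function with killing rates `κ` on `[0, s]`, arbitrary terminal values -/
structure Wd (h : ℝ → V → V → ℝ) (κ : ℝ → V → ℝ) (s : ℝ) (Φ : Finset V → ℝ → ℝ) : Prop where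
  ev : IsEv h κ (fun _ => 0) (fun _ => 0) s Φ
  pos : ∀ F, ∀ r ∈ Icc 0 s, 0 < Φ F r

theorem Wd.d {h : ℝ → V → V → ℝ} {κ : ℝ → V → ℝ} {s : ℝ} {Φ : Finset V → ℝ → ℝ}
    (hΦ : Wd h κ s Φ) (F : Finset V) {r : ℝ} (hr : r ∈ Icc 0 s) :
    HasDerivAt (Φ F) (-((lr (h r) (fun G => Φ G r) F - ∑ a ∈ F, κ r a) * Φ F r)) r := by
  refine (hΦ.ev.deriv F r hr).congr_deriv ?_
  rw [lr_eq (h r) (φ := fun G => Φ G r) (F := F) (hΦ.pos F r hr).ne']
  ring

/-- the rate identity: `A = φ1 F`, `B = φ0 (F + i + j)`, `C = φc (F + j)`, `D = φd (F + i)` -/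
theorem rsum (h : V → V → ℝ) (hs : ∀ a b, h a b = h b a) (haa : ∀ a, h a a = 0)
    {φ1 φ0 φc φd : Finset V → ℝ} {i j : V} {F : Finset V} (hi : i ∉ F) (hj : j ∉ F) (hij : i ≠ j)
    (hB : φ0 (insert i (insert j F)) ≠ 0) (hC : φc (insert j F) ≠ 0)
    (hD : φd (insert i F) ≠ 0) :
    lr h φ1 F + lr h φ0 (insert i (insert j F)) - lr h φc (insert j F) - lr h φd (insert i F)
      = (1 / 2) * ∑ x ∈ F, ∑ y ∈ F, h x y * (φ1 ((F.erase x).erase y) / φ1 F
          + φ0 (insert i (insert j ((F.erase x).erase y))) / φ0 (insert i (insert j F))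
          - φc (insert j ((F.erase x).erase y)) / φc (insert j F)
          - φd (insert i ((F.erase x).erase y)) / φd (insert i F))
        + ∑ b ∈ F, h i b * (φ0 (insert j (F.erase b)) / φ0 (insert i (insert j F))
          - φd (F.erase b) / φd (insert i F))
        + ∑ b ∈ F, h j b * (φ0 (insert i (F.erase b)) / φ0 (insert i (insert j F))
          - φc (F.erase b) / φc (insert j F))
        + h i j * (φ0 F / φ0 (insert i (insert j F)) - 1) := by
  rw [lr_insert2 h hs haa hi hj hij hB, lr_insert h hs haa hj hC, lr_insert h hs haa hi hD]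
  have e1 : ∑ b ∈ F, h i b * (φ0 (insert j (F.erase b)) / φ0 (insert i (insert j F))
          - φd (F.erase b) / φd (insert i F))
      = ∑ b ∈ F, h i b * (φ0 (insert j (F.erase b)) / φ0 (insert i (insert j F)) - 1)
        - ∑ b ∈ F, h i b * (φd (F.erase b) / φd (insert i F) - 1) := by
    rw [← Finset.sum_sub_distrib]
    exact Finset.sum_congr rfl fun b _ => by ring
  have e2 : ∑ b ∈ F, h j b * (φ0 (insert i (F.erase b)) / φ0 (insert i (insert j F))
          - φc (F.erase b) / φc (insert j F))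
      = ∑ b ∈ F, h j b * (φ0 (insert i (F.erase b)) / φ0 (insert i (insert j F)) - 1)
        - ∑ b ∈ F, h j b * (φc (F.erase b) / φc (insert j F) - 1) := by
    rw [← Finset.sum_sub_distrib]
    exact Finset.sum_congr rfl fun b _ => by ring
  rw [e1, e2]
  unfold lr
  have e3 : (1 / 2) * ∑ x ∈ F, ∑ y ∈ F, h x y * (φ1 ((F.erase x).erase y) / φ1 F
          + φ0 (insert i (insert j ((F.erase x).erase y))) / φ0 (insert i (insert j F))
          - φc (insert j ((F.erase x).erase y)) / φc (insert j F)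
          - φd (insert i ((F.erase x).erase y)) / φd (insert i F))
      = (1 / 2) * ∑ x ∈ F, ∑ y ∈ F, h x y * (φ1 ((F.erase x).erase y) / φ1 F - 1)
        + (1 / 2) * ∑ x ∈ F, ∑ y ∈ F, h x y *
          (φ0 (insert i (insert j ((F.erase x).erase y))) / φ0 (insert i (insert j F)) - 1)
        - (1 / 2) * ∑ x ∈ F, ∑ y ∈ F, h x y *
          (φc (insert j ((F.erase x).erase y)) / φc (insert j F) - 1)
        - (1 / 2) * ∑ x ∈ F, ∑ y ∈ F, h x y *
          (φd (insert i ((F.erase x).erase y)) / φd (insert i F) - 1) := by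
    rw [← mul_add, ← mul_sub, ← mul_sub]
    congr 1
    rw [← Finset.sum_add_distrib, ← Finset.sum_sub_distrib, ← Finset.sum_sub_distrib]
    refine Finset.sum_congr rfl fun x _ => ?_
    rw [← Finset.sum_add_distrib, ← Finset.sum_sub_distrib, ← Finset.sum_sub_distrib]
    exact Finset.sum_congr rfl fun y _ => by ring
  rw [e3]
  ring

/-- lower bound of the four-term sums over a subset by sums over the whole world -/
theorem sum_low {h : V → V → ℝ} (h0 : ∀ a b, 0 ≤ h a b) {F U : Finset V} (hFU : F ⊆ U)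
    {f : V → V → ℝ} {w : V → V → ℝ} (hw : ∀ x ∈ U, ∀ y ∈ U, 0 ≤ w x y)
    (hf : ∀ x ∈ F, ∀ y ∈ F, h x y ≠ 0 → -(w x y) ≤ f x y) :
    -((1 / 2) * ∑ x ∈ U, ∑ y ∈ U, h x y * w x y) ≤ (1 / 2) * ∑ x ∈ F, ∑ y ∈ F, h x y * f x y := by
  rw [← mul_neg]
  refine mul_le_mul_of_nonneg_left ?_ (by norm_num)
  have h1 : ∑ x ∈ F, ∑ y ∈ F, h x y * w x y ≤ ∑ x ∈ U, ∑ y ∈ U, h x y * w x y := by
    refine (Finset.sum_le_sum fun x hx => Finset.sum_le_sum_of_subset_of_nonneg hFU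
      fun y hy _ => mul_nonneg (h0 _ _) (hw x (hFU hx) y hy)).trans ?_
    exact Finset.sum_le_sum_of_subset_of_nonneg hFU fun x hx _ =>
      Finset.sum_nonneg fun y hy => mul_nonneg (h0 _ _) (hw x hx y hy)
  have h2 : -∑ x ∈ F, ∑ y ∈ F, h x y * w x y ≤ ∑ x ∈ F, ∑ y ∈ F, h x y * f x y := by
    rw [← Finset.sum_neg_distrib]
    refine Finset.sum_le_sum fun x hx => ?_
    rw [← Finset.sum_neg_distrib]
    refine Finset.sum_le_sum fun y hy => ?_
    by_cases hxy : h x y = 0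
    · rw [hxy]; simp
    · have := mul_le_mul_of_nonneg_left (hf x hx y hy hxy) (h0 x y)
      linarith
  linarith

/-- the same for upper bounds -/
theorem sum_up {h : V → V → ℝ} (h0 : ∀ a b, 0 ≤ h a b) {F U : Finset V} (hFU : F ⊆ U)
    {f : V → V → ℝ} {w : V → V → ℝ} (hw : ∀ x ∈ U, ∀ y ∈ U, 0 ≤ w x y)
    (hf : ∀ x ∈ F, ∀ y ∈ F, h x y ≠ 0 → f x y ≤ w x y) :
    (1 / 2) * ∑ x ∈ F, ∑ y ∈ F, h x y * f x y ≤ (1 / 2) * ∑ x ∈ U, ∑ y ∈ U, h x y * w x y := by
  have := sum_low h0 hFU (f := fun x y => -f x y) hw (fun x hx y hy hxy => by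
    have := hf x hx y hy hxy; linarith)
  have e : (1 / 2) * ∑ x ∈ F, ∑ y ∈ F, h x y * -f x y
      = -((1 / 2) * ∑ x ∈ F, ∑ y ∈ F, h x y * f x y) := by
    rw [← mul_neg, ← Finset.sum_neg_distrib]
    congr 1
    refine Finset.sum_congr rfl fun x _ => ?_
    rw [← Finset.sum_neg_distrib]
    exact Finset.sum_congr rfl fun y _ => by ring
  rw [e] at this
  linarith

/-- one-index versions -/
theorem sum1_low {h : V → ℝ} (h0 : ∀ b, 0 ≤ h b) {F U : Finset V} (hFU : F ⊆ U)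
    {f w : V → ℝ} (hw : ∀ x ∈ U, 0 ≤ w x) (hf : ∀ x ∈ F, -(w x) ≤ f x) :
    -(∑ x ∈ U, h x * w x) ≤ ∑ x ∈ F, h x * f x := by
  have h1 : ∑ x ∈ F, h x * w x ≤ ∑ x ∈ U, h x * w x :=
    Finset.sum_le_sum_of_subset_of_nonneg hFU fun x hx _ => mul_nonneg (h0 _) (hw x hx)
  have h2 : -∑ x ∈ F, h x * w x ≤ ∑ x ∈ F, h x * f x := by
    rw [← Finset.sum_neg_distrib]
    refine Finset.sum_le_sum fun x hx => ?_
    have := mul_le_mul_of_nonneg_left (hf x hx) (h0 x)
    linarith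
  linarith

theorem sum1_up {h : V → ℝ} (h0 : ∀ b, 0 ≤ h b) {F U : Finset V} (hFU : F ⊆ U)
    {f w : V → ℝ} (hw : ∀ x ∈ U, 0 ≤ w x) (hf : ∀ x ∈ F, f x ≤ w x) :
    ∑ x ∈ F, h x * f x ≤ ∑ x ∈ U, h x * w x :=
  (Finset.sum_le_sum fun x hx => mul_le_mul_of_nonneg_left (hf x hx) (h0 x)).trans
    (Finset.sum_le_sum_of_subset_of_nonneg hFU fun x hx _ => mul_nonneg (h0 _) (hw x hx))

end Pool.Agent.RZ.RCM
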