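import Pool.Agent.RZ.RCG.Ctx
import Pool.Agent.RZ.RCM.World

/-! The (M) lemma in terms of the closures and the density bounds (MP_73ccd0_lc, all weights). -/

namespace Pool.Agent.RZ.RCM

open Set Finset Pool.Agent.RZ.RCRSHalf Pool.Agent.RZ.RCG

set_option linter.unusedSectionVars false

variable {V : Type*} [Fintype V] [DecidableEq V]
variable {h : ℝ → V → V → ℝ} {H : V → V → ℝ → ℝ}

/-- the closure with `d` released at time `s` (deleted form for the other vertices of `D`) -/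
def CloDt (h : ℝ → V → V → ℝ) (t s : ℝ) (A D : Finset V) (c d : V) (K : ℝ) : Prop :=
  ∀ Ra Rac : Finset V → ℝ → ℝ, Wd h (fun r v => ∑ w ∈ A, h r w v) t Ra → (∀ F, Ra F t = 1) →
    Wd h (fun r v => ∑ w ∈ A, h r w v + h r c v) t Rac → (∀ F, Rac F t = 1) →
    ex (lw h ∅ s) (insert d D) (fun F => Ra (insert d F) s) *
        ex (lw h ∅ s) (insert c D) (fun F => Rac F s)
      ≤ K * (ex (lw h ∅ s) ({c, d} ∪ D) (fun F => Rac (insert d F) s) *
        ex (lw h ∅ s) D (fun F => Ra F s))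

/-- the density bound: the flux of `b` to `d` at `s`, given `a` free at `t` -/
def Dens (h : ℝ → V → V → ℝ) (t s : ℝ) (a b d : V) (B : ℝ) : Prop :=
  ∀ R : Finset V → ℝ → ℝ, IsEv h (fun r z => h r a z) (fun _ => 0) (fun _ => 0) t R →
    (∀ F, R F t = 1) →
    ex (lw h ∅ s) {a, b, d} (fun F => R F s) ≤ pr (lw h ∅ t) {a} * (pr (lw h ∅ s) {b, d} * B)

section

end

end Pool.Agent.RZ.RCM
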