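import Pool.Agent.RZ.RCM.BEps

/-! Density errors: the density bound of the certified process with the rates of the density
errors (MP_73ccd0_lc, route M). -/

namespace Pool.Agent.RZ.RCM

open Set Finset Pool.Agent.RZ.RCRSHalf Pool.Agent.RZ.RCRSGen Pool.Agent.RZ.RCG

set_option linter.unusedSectionVars false

variable {V : Type*} [Fintype V] [DecidableEq V]
variable {h : ℝ → V → V → ℝ} {H : V → V → ℝ → ℝ}

/-- symmetry of the closure at equal times -/
theorem CloD.swap (hh : Haz h H) {r : ℝ} (hr : r ∈ Icc (0 : ℝ) 1) {A D : Finset V} {c d : V}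
    {K : ℝ} (hdA : d ∉ A) (hC : CloD h r r A D d c K) : CloD h r r A D c d K := by
  intro Ra Rac h1 e1 h2 e2
  obtain ⟨Rb, Rbd, g1, f1, g2, f2⟩ := exists_worlds hh A hdA hr
  have key := hC Rb Rbd g1 f1 g2 f2
  simp only [e1, e2, f1, f2] at key ⊢
  rw [Finset.pair_comm c d]
  linarith

/-- every closure holds with some constant -/
theorem ex_cloD (hh : Haz h H) {A : Finset V} (D : Finset V) {c : V} (d : V) (hcA : c ∉ A)
    {t s : ℝ} (ht : t ∈ Icc (0 : ℝ) 1) (hs : s ∈ Icc 0 t) : ∃ K, CloD h t s A D c d K := by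
  obtain ⟨R1, R2, h1, e1, h2, e2⟩ := exists_worlds hh A hcA ht
  have hs1 : s ∈ Icc (0 : ℝ) 1 := ⟨hs.1, hs.2.trans ht.2⟩
  have p := mul_pos (ex_pos hh (W := {c, d} ∪ D) hs1 fun F => h2.pos F s hs)
    (ex_pos hh (W := D) hs1 fun F => h1.pos F s hs)
  refine ⟨ex (lw h ∅ s) (insert d D) (fun F => R1 F s)
    * ex (lw h ∅ s) (insert c D) (fun F => R2 F s)
      / (ex (lw h ∅ s) ({c, d} ∪ D) (fun F => R2 F s)
        * ex (lw h ∅ s) D (fun F => R1 F s)), ?_⟩
  intro Ra Rac g1 f1 g2 f2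
  have u1 : ∀ F, Ra F s = R1 F s := fun F => IsEv.unique hh.nonneg
    (fun r v => Finset.sum_nonneg fun w _ => hh.nonneg r w v) (fun _ => le_rfl) g1.ev h1.ev
    (fun F => by rw [f1, e1]) F s hs
  have u2 : ∀ F, Rac F s = R2 F s := fun F => IsEv.unique hh.nonneg
    (fun r v => add_nonneg (Finset.sum_nonneg fun w _ => hh.nonneg r w v) (hh.nonneg r c v))
    (fun _ => le_rfl) g2.ev h2.ev (fun F => by rw [f2, e2]) F s hs
  simp only [u1, u2]
  rw [div_mul_cancel₀ _ p.ne']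

theorem two_e {l1 l2 : ℝ} : (1 - (1 - Real.exp (-(l1 + l2)))) * (Real.exp l1 * Real.exp l2) ≤ 1 := by
  rw [← Real.exp_add, sub_sub_cancel, ← Real.exp_add, neg_add_cancel, Real.exp_zero]

theorem one_e {l1 : ℝ} : (1 - (1 - Real.exp (-l1))) * Real.exp l1 ≤ 1 := by
  rw [sub_sub_cancel, ← Real.exp_add, neg_add_cancel, Real.exp_zero]

end Pool.Agent.RZ.RCM

namespace Pool.Agent.RZ.RCN.K

open Set Finset MeasureTheory Pool.Agent.RZ.RCRSHalf Pool.Agent.RZ.RCG

open Pool.Agent.RZ.RCN Pool.Agent.RZ.RCM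

set_option linter.unusedSectionVars false

end Pool.Agent.RZ.RCN.K
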