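import Pool.Agent.RZ.RCG.CtA
import Pool.Agent.RZ.RCM.LevZ

/-! The closures with explicit constants: the tails of the cell and the two theorems
(MP_73ccd0_lc, route M). -/

namespace Pool.Agent.RZ.RCN.K

open Set Finset MeasureTheory Pool.Agent.RZ.RCG Pool.Agent.RZ.RCG.Ct

set_option linter.unusedSectionVars false

variable {V : Type*} [Fintype V] [DecidableEq V]

variable (x : V → V → ℝ) (P : V → Prop) [DecidablePred P]

variable {Z F x P}
variable {sl : ℝ → ℝ → ℝ} {α τ sg : ℝ} {B E1 : ℝ → ℝ → ℝ} {m q : ℝ} {A D : Finset V}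

/-- conversion of the weights -/
theorem wt_of (hx : Wt x P 1) : RCM.Wt x := ⟨hx.symm, hx.nonneg, hx.diag, hx.row⟩

section

end

end Pool.Agent.RZ.RCN.K
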