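import Mathlib

/-! Algebra for the ratio closures (MP_73ccd0_lc, route M). -/

namespace Pool.Agent.RZ.RCM

open Set Finset

theorem chain {P0 P1 P2 J0 J1 J2 α β : ℝ} (p1 : 0 < P1) (j1 : 0 < J1)
    (p0 : 0 < P0) (j2 : 0 < J2) (_hα : 0 < α) (_hβ : 0 < β)
    (h1 : J1 * P0 ≤ α * (P1 * J0)) (h2 : J2 * P1 ≤ β * (P2 * J1)) :
    J2 * P0 ≤ (α * β) * (P2 * J0) := by
  have hk : (J2 * P1) * (J1 * P0) ≤ (β * (P2 * J1)) * (α * (P1 * J0)) :=
    mul_le_mul h2 h1 (by positivity) ((by positivity : 0 ≤ J2 * P1).trans h2)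
  have e1 : (J2 * P1) * (J1 * P0) = (P1 * J1) * (J2 * P0) := by ring
  have e2 : (β * (P2 * J1)) * (α * (P1 * J0)) = (P1 * J1) * ((α * β) * (P2 * J0)) := by ring
  rw [e1, e2] at hk
  exact le_of_mul_le_mul_left hk (mul_pos p1 j1)

/-- product of two deviations, lower bound, maximum form -/
theorem dev_mul_geM {t1 t2 a1 b1 a2 b2 : ℝ} (h1 : -a1 ≤ t1) (h1' : t1 ≤ b1) (h2 : -a2 ≤ t2)
    (h2' : t2 ≤ b2) (ha1 : 0 ≤ a1) (hb1 : 0 ≤ b1) (ha2 : 0 ≤ a2) (hb2 : 0 ≤ b2) :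
    -(max (a1 * b2) (b1 * a2)) ≤ t1 * t2 := by
  have m1 := le_max_left (a1 * b2) (b1 * a2)
  have m2 := le_max_right (a1 * b2) (b1 * a2)
  rcases le_total 0 t1 with h | h <;> rcases le_total 0 t2 with h' | h'
  · have := mul_nonneg h h'
    have := mul_nonneg ha1 hb2
    linarith
  · have h3 : t1 * (-t2) ≤ b1 * a2 := mul_le_mul h1' (by linarith) (by linarith) hb1
    linarith
  · have h3 : (-t1) * t2 ≤ a1 * b2 := mul_le_mul (by linarith) h2' h' ha1
    linarith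
  · have := mul_nonneg_of_nonpos_of_nonpos h h'
    have := mul_nonneg ha1 hb2
    linarith

/-- elimination of `b`: lower bound -/
theorem elim_ge {a b c d w δ t1 t2 : ℝ} (a0 : 0 < a) (hab : c * d ≤ a * b) (haw : a ≤ w)
    (hδ : 0 ≤ δ) (e1 : c = a * (1 + t1)) (e2 : d = a * (1 + t2)) (ht : -δ ≤ t1 * t2) :
    -(w * δ) ≤ a + b - c - d := by
  have h1 : a * (1 + t1) * (1 + t2) ≤ b := by
    rw [e1, e2] at hab
    have : a * (a * (1 + t1) * (1 + t2)) ≤ a * b := by linarith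
    exact le_of_mul_le_mul_left this a0
  have h2 : a * (t1 * t2) ≤ a + b - c - d := by rw [e1, e2]; linarith
  have h3 : a * (-δ) ≤ a * (t1 * t2) := mul_le_mul_of_nonneg_left ht a0.le
  have h4 : a * δ ≤ w * δ := mul_le_mul_of_nonneg_right haw hδ
  linarith

/-- the relative deviation `c / a - 1` for `a = P2 / P0`, `c = J2 / J0` -/
theorem dev_bounds {P0 P2 J0 J2 x y : ℝ} (p0 : 0 < P0) (p2 : 0 < P2) (j0 : 0 < J0) (j2 : 0 < J2)
    (hu : J2 * P0 ≤ Real.exp x * (P2 * J0)) (hl : P2 * J0 ≤ Real.exp y * (J2 * P0)) :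
    -(1 - Real.exp (-y)) ≤ J2 * P0 / (P2 * J0) - 1 ∧ J2 * P0 / (P2 * J0) - 1 ≤ Real.exp x - 1 := by
  have hP : 0 < P2 * J0 := mul_pos p2 j0
  have hJ : 0 < J2 * P0 := mul_pos j2 p0
  constructor
  · have : Real.exp (-y) ≤ J2 * P0 / (P2 * J0) := by
      rw [le_div_iff₀ hP, Real.exp_neg, inv_mul_le_iff₀ (Real.exp_pos _)]
      exact hl
    linarith
  · have : J2 * P0 / (P2 * J0) ≤ Real.exp x := by
      rw [div_le_iff₀ hP]; exact hu
    linarith

theorem one_sub_exp_nonneg {y : ℝ} (hy : 0 ≤ y) : 0 ≤ 1 - Real.exp (-y) := by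
  have := Real.exp_le_one_iff.2 (by linarith : -y ≤ 0)
  linarith

theorem exp_sub_one_nonneg {y : ℝ} (hy : 0 ≤ y) : 0 ≤ Real.exp y - 1 := by
  have := Real.one_le_exp hy
  linarith

/-- the increment `a t` of a factor bounded by `w` -/
theorem inc_le {a d w t x : ℝ} (a0 : 0 < a) (e : d = a * (1 + t)) (dw : d ≤ w)
    (ht : t ≤ Real.exp x - 1) (hx : 0 ≤ x) : a * t ≤ w * (1 - Real.exp (-x)) := by
  have h1 : Real.exp (-x) * (1 + t) ≤ 1 := by
    have := mul_le_mul_of_nonneg_left (by linarith : 1 + t ≤ Real.exp x) (Real.exp_pos (-x)).le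
    rwa [← Real.exp_add, neg_add_cancel, Real.exp_zero] at this
  have h2 : 0 ≤ 1 - Real.exp (-x) := by
    have := Real.exp_le_one_iff.2 (by linarith : -x ≤ 0); linarith
  have h3 : d * (1 - Real.exp (-x)) ≤ w * (1 - Real.exp (-x)) := mul_le_mul_of_nonneg_right dw h2
  have h4 : a * (Real.exp (-x) * (1 + t)) ≤ a * 1 := mul_le_mul_of_nonneg_left h1 a0.le
  have h5 : d * (1 - Real.exp (-x)) = d - a * (Real.exp (-x) * (1 + t)) := by rw [e]; ring
  have h6 : d = a + a * t := by rw [e]; ring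
  linarith

/-- elimination of `b`, lower bound, all factors below `w` -/
theorem elim_geW {a b c d w t1 t2 x1 y1 x2 y2 : ℝ} (a0 : 0 < a) (hab : c * d ≤ a * b)
    (cw : c ≤ w) (dw : d ≤ w) (w0 : 0 ≤ w)
    (e1 : c = a * (1 + t1)) (e2 : d = a * (1 + t2))
    (u1 : -(1 - Real.exp (-y1)) ≤ t1) (u2 : t1 ≤ Real.exp x1 - 1)
    (v1 : -(1 - Real.exp (-y2)) ≤ t2) (v2 : t2 ≤ Real.exp x2 - 1)
    (hx1 : 0 ≤ x1) (hy1 : 0 ≤ y1) (hx2 : 0 ≤ x2) (hy2 : 0 ≤ y2) :
    -(w * max ((1 - Real.exp (-y1)) * (1 - Real.exp (-x2)))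
      ((1 - Real.exp (-x1)) * (1 - Real.exp (-y2)))) ≤ a + b - c - d := by
  have q : ∀ {z : ℝ}, 0 ≤ z → 0 ≤ 1 - Real.exp (-z) := fun {z} hz => by
    have := Real.exp_le_one_iff.2 (by linarith : -z ≤ 0); linarith
  have h1 : a * (1 + t1) * (1 + t2) ≤ b := by
    rw [e1, e2] at hab
    have : a * (a * (1 + t1) * (1 + t2)) ≤ a * b := by linarith
    exact le_of_mul_le_mul_left this a0
  have h2 : a * (t1 * t2) ≤ a + b - c - d := by rw [e1, e2]; linarith
  refine le_trans ?_ h2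
  have m1 := mul_le_mul_of_nonneg_left (le_max_left ((1 - Real.exp (-y1)) * (1 - Real.exp (-x2)))
      ((1 - Real.exp (-x1)) * (1 - Real.exp (-y2)))) w0
  have m2 := mul_le_mul_of_nonneg_left (le_max_right ((1 - Real.exp (-y1)) * (1 - Real.exp (-x2)))
      ((1 - Real.exp (-x1)) * (1 - Real.exp (-y2)))) w0
  have m0 : 0 ≤ w * max ((1 - Real.exp (-y1)) * (1 - Real.exp (-x2)))
      ((1 - Real.exp (-x1)) * (1 - Real.exp (-y2))) :=
    mul_nonneg w0 (le_max_of_le_left (mul_nonneg (q hy1) (q hx2)))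
  rcases le_total 0 t1 with h | h <;> rcases le_total 0 t2 with h' | h'
  · have := mul_nonneg a0.le (mul_nonneg h h')
    linarith
  · have h3 := inc_le a0 e1 cw u2 hx1
    have h4 : (a * t1) * (-t2) ≤ (w * (1 - Real.exp (-x1))) * (1 - Real.exp (-y2)) :=
      mul_le_mul h3 (by linarith) (by linarith) (mul_nonneg w0 (q hx1))
    linarith
  · have h3 := inc_le a0 e2 dw v2 hx2
    have h4 : (-t1) * (a * t2) ≤ (1 - Real.exp (-y1)) * (w * (1 - Real.exp (-x2))) :=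
      mul_le_mul (by linarith) h3 (mul_nonneg a0.le h') (q hy1)
    linarith
  · have := mul_nonneg a0.le (mul_nonneg_of_nonpos_of_nonpos h h')
    linarith

/-- elimination of `b`, upper bound, all factors below `w` -/
theorem elim_leW {a b c d w t1 t2 x1 y1 x2 y2 : ℝ} (a0 : 0 < a) (hab : a * b ≤ c * d)
    (aw : a ≤ w) (bw : b ≤ w) (w0 : 0 ≤ w)
    (e1 : c = a * (1 + t1)) (e2 : d = a * (1 + t2))
    (u1 : -(1 - Real.exp (-y1)) ≤ t1) (u2 : t1 ≤ Real.exp x1 - 1)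
    (v1 : -(1 - Real.exp (-y2)) ≤ t2) (v2 : t2 ≤ Real.exp x2 - 1)
    (hx1 : 0 ≤ x1) (hy1 : 0 ≤ y1) (_hx2 : 0 ≤ x2) (hy2 : 0 ≤ y2) :
    a + b - c - d ≤ w * max ((1 - Real.exp (-y1)) * (1 - Real.exp (-y2)))
      ((1 - Real.exp (-x1)) * (1 - Real.exp (-x2))) := by
  have q : ∀ {z : ℝ}, 0 ≤ z → 0 ≤ 1 - Real.exp (-z) := fun {z} hz => by
    have := Real.exp_le_one_iff.2 (by linarith : -z ≤ 0); linarith
  have h1 : b ≤ a * (1 + t1) * (1 + t2) := by
    rw [e1, e2] at hab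
    have : a * b ≤ a * (a * (1 + t1) * (1 + t2)) := by linarith
    exact le_of_mul_le_mul_left this a0
  have h2 : a + b - c - d ≤ a * (t1 * t2) := by rw [e1, e2]; linarith
  have m1 := mul_le_mul_of_nonneg_left (le_max_left ((1 - Real.exp (-y1)) * (1 - Real.exp (-y2)))
      ((1 - Real.exp (-x1)) * (1 - Real.exp (-x2)))) w0
  have m2 := mul_le_mul_of_nonneg_left (le_max_right ((1 - Real.exp (-y1)) * (1 - Real.exp (-y2)))
      ((1 - Real.exp (-x1)) * (1 - Real.exp (-x2)))) w0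
  have m0 : 0 ≤ w * max ((1 - Real.exp (-y1)) * (1 - Real.exp (-y2)))
      ((1 - Real.exp (-x1)) * (1 - Real.exp (-x2))) :=
    mul_nonneg w0 (le_max_of_le_left (mul_nonneg (q hy1) (q hy2)))
  rcases le_total 0 t1 with h | h <;> rcases le_total 0 t2 with h' | h'
  · -- both factors above the base
    refine le_trans ?_ m2
    have r1 : t1 ≤ (1 - Real.exp (-x1)) * (1 + t1) := by
      have := mul_le_mul_of_nonneg_left (by linarith : 1 + t1 ≤ Real.exp x1) (Real.exp_pos (-x1)).le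
      rw [← Real.exp_add, neg_add_cancel, Real.exp_zero] at this
      linarith
    have r2 : t2 ≤ (1 - Real.exp (-x2)) * (1 + t2) := by
      have := mul_le_mul_of_nonneg_left (by linarith : 1 + t2 ≤ Real.exp x2) (Real.exp_pos (-x2)).le
      rw [← Real.exp_add, neg_add_cancel, Real.exp_zero] at this
      linarith
    have r3 : t1 * t2 ≤ ((1 - Real.exp (-x1)) * (1 + t1)) * ((1 - Real.exp (-x2)) * (1 + t2)) :=
      mul_le_mul r1 r2 h' (mul_nonneg (q hx1) (by linarith))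
    have r4 : b * (t1 * t2) ≤ w * (t1 * t2) := mul_le_mul_of_nonneg_right bw (mul_nonneg h h')
    have r5 := mul_le_mul_of_nonneg_left r3 w0
    have huv : 0 < (1 + t1) * (1 + t2) := by positivity
    have r6 : (1 + t1) * (1 + t2) * (a + b - c - d) ≤ b * (t1 * t2) := by
      have r7 : b * (1 + t1 + t2) ≤ (a * (1 + t1) * (1 + t2)) * (1 + t1 + t2) :=
        mul_le_mul_of_nonneg_right h1 (by linarith)
      rw [e1, e2]
      linarith
    refine le_of_mul_le_mul_left (a := (1 + t1) * (1 + t2)) ?_ huv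
    linarith
  · have := mul_nonneg a0.le (mul_nonneg h (by linarith : 0 ≤ -t2))
    linarith
  · have := mul_nonneg a0.le (mul_nonneg (by linarith : 0 ≤ -t1) h')
    linarith
  · have h3 : (-t1) * (-t2) ≤ (1 - Real.exp (-y1)) * (1 - Real.exp (-y2)) :=
      mul_le_mul (by linarith) (by linarith) (by linarith) (q hy1)
    have h4 := mul_le_mul aw h3 (mul_nonneg (by linarith) (by linarith)) w0
    linarith

/-- elimination of `b`, lower bound, `a` and `d` below `w` -/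
theorem elim_geV {a b c d w t1 t2 x1 y1 x2 y2 : ℝ} (a0 : 0 < a) (hab : c * d ≤ a * b)
    (aw : a ≤ w) (dw : d ≤ w) (w0 : 0 ≤ w)
    (e1 : c = a * (1 + t1)) (e2 : d = a * (1 + t2))
    (u1 : -(1 - Real.exp (-y1)) ≤ t1) (u2 : t1 ≤ Real.exp x1 - 1)
    (v1 : -(1 - Real.exp (-y2)) ≤ t2) (v2 : t2 ≤ Real.exp x2 - 1)
    (hx1 : 0 ≤ x1) (hy1 : 0 ≤ y1) (hx2 : 0 ≤ x2) (hy2 : 0 ≤ y2) :
    -(w * max ((1 - Real.exp (-y1)) * (1 - Real.exp (-x2)))
      ((Real.exp x1 - 1) * (1 - Real.exp (-y2)))) ≤ a + b - c - d := by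
  have q : ∀ {z : ℝ}, 0 ≤ z → 0 ≤ 1 - Real.exp (-z) := fun {z} hz => by
    have := Real.exp_le_one_iff.2 (by linarith : -z ≤ 0); linarith
  have h1 : a * (1 + t1) * (1 + t2) ≤ b := by
    rw [e1, e2] at hab
    have : a * (a * (1 + t1) * (1 + t2)) ≤ a * b := by linarith
    exact le_of_mul_le_mul_left this a0
  have h2 : a * (t1 * t2) ≤ a + b - c - d := by rw [e1, e2]; linarith
  refine le_trans ?_ h2
  have m1 := mul_le_mul_of_nonneg_left (le_max_left ((1 - Real.exp (-y1)) * (1 - Real.exp (-x2)))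
      ((Real.exp x1 - 1) * (1 - Real.exp (-y2)))) w0
  have m2 := mul_le_mul_of_nonneg_left (le_max_right ((1 - Real.exp (-y1)) * (1 - Real.exp (-x2)))
      ((Real.exp x1 - 1) * (1 - Real.exp (-y2)))) w0
  have m0 : 0 ≤ w * max ((1 - Real.exp (-y1)) * (1 - Real.exp (-x2)))
      ((Real.exp x1 - 1) * (1 - Real.exp (-y2))) :=
    mul_nonneg w0 (le_max_of_le_left (mul_nonneg (q hy1) (q hx2)))
  have E1 : 0 ≤ Real.exp x1 - 1 := by have := Real.one_le_exp hx1; linarith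
  rcases le_total 0 t1 with h | h <;> rcases le_total 0 t2 with h' | h'
  · have := mul_nonneg a0.le (mul_nonneg h h')
    linarith
  · have h4 : t1 * (-t2) ≤ (Real.exp x1 - 1) * (1 - Real.exp (-y2)) :=
      mul_le_mul u2 (by linarith) (by linarith) E1
    have h5 := mul_le_mul aw h4 (mul_nonneg h (by linarith)) w0
    linarith
  · have h3 := inc_le a0 e2 dw v2 hx2
    have h4 : (-t1) * (a * t2) ≤ (1 - Real.exp (-y1)) * (w * (1 - Real.exp (-x2))) :=
      mul_le_mul (by linarith) h3 (mul_nonneg a0.le h') (q hy1)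
    linarith
  · have := mul_nonneg a0.le (mul_nonneg_of_nonpos_of_nonpos h h')
    linarith

/-- elimination of `b`, upper bound, `a` and `d` below `w` -/
theorem elim_leV {a b c d w t1 t2 x1 y1 x2 y2 : ℝ} (a0 : 0 < a) (hab : a * b ≤ c * d)
    (aw : a ≤ w) (dw : d ≤ w) (w0 : 0 ≤ w)
    (e1 : c = a * (1 + t1)) (e2 : d = a * (1 + t2))
    (u1 : -(1 - Real.exp (-y1)) ≤ t1) (u2 : t1 ≤ Real.exp x1 - 1)
    (v1 : -(1 - Real.exp (-y2)) ≤ t2) (v2 : t2 ≤ Real.exp x2 - 1)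
    (hx1 : 0 ≤ x1) (hy1 : 0 ≤ y1) (hx2 : 0 ≤ x2) (hy2 : 0 ≤ y2) :
    a + b - c - d ≤ w * max ((1 - Real.exp (-y1)) * (1 - Real.exp (-y2)))
      ((Real.exp x1 - 1) * (1 - Real.exp (-x2))) := by
  have q : ∀ {z : ℝ}, 0 ≤ z → 0 ≤ 1 - Real.exp (-z) := fun {z} hz => by
    have := Real.exp_le_one_iff.2 (by linarith : -z ≤ 0); linarith
  have h1 : b ≤ a * (1 + t1) * (1 + t2) := by
    rw [e1, e2] at hab
    have : a * b ≤ a * (a * (1 + t1) * (1 + t2)) := by linarith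
    exact le_of_mul_le_mul_left this a0
  have h2 : a + b - c - d ≤ a * (t1 * t2) := by rw [e1, e2]; linarith
  refine h2.trans ?_
  have m1 := mul_le_mul_of_nonneg_left (le_max_left ((1 - Real.exp (-y1)) * (1 - Real.exp (-y2)))
      ((Real.exp x1 - 1) * (1 - Real.exp (-x2)))) w0
  have m2 := mul_le_mul_of_nonneg_left (le_max_right ((1 - Real.exp (-y1)) * (1 - Real.exp (-y2)))
      ((Real.exp x1 - 1) * (1 - Real.exp (-x2)))) w0
  have m0 : 0 ≤ w * max ((1 - Real.exp (-y1)) * (1 - Real.exp (-y2)))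
      ((Real.exp x1 - 1) * (1 - Real.exp (-x2))) :=
    mul_nonneg w0 (le_max_of_le_left (mul_nonneg (q hy1) (q hy2)))
  have E1 : 0 ≤ Real.exp x1 - 1 := by have := Real.one_le_exp hx1; linarith
  rcases le_total 0 t1 with h | h <;> rcases le_total 0 t2 with h' | h'
  · have h3 := inc_le a0 e2 dw v2 hx2
    have h4 : t1 * (a * t2) ≤ (Real.exp x1 - 1) * (w * (1 - Real.exp (-x2))) :=
      mul_le_mul u2 h3 (mul_nonneg a0.le h') E1
    linarith
  · have := mul_nonneg a0.le (mul_nonneg h (by linarith : 0 ≤ -t2))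
    linarith
  · have := mul_nonneg a0.le (mul_nonneg (by linarith : 0 ≤ -t1) h')
    linarith
  · have h3 : (-t1) * (-t2) ≤ (1 - Real.exp (-y1)) * (1 - Real.exp (-y2)) :=
      mul_le_mul (by linarith) (by linarith) (by linarith) (q hy1)
    have h4 := mul_le_mul aw h3 (mul_nonneg (by linarith) (by linarith)) w0
    linarith

end Pool.Agent.RZ.RCM
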