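import Pool.Agent.RZ.RCRSGen.LogId

/-! The triple ratio `τ = p_abc / (p_bc p_a)` (MP_73ccd0_lc, all weights, part B). -/

namespace Pool.Agent.RZ.RCM

open Set Finset Pool.Agent.RZ.RCRSHalf Pool.Agent.RZ.RCRSGen

set_option linter.unusedSectionVars false

variable {V : Type*} [Fintype V] [DecidableEq V]

theorem pr_mono {y : Finset V → ℝ} (hy : ∀ F, 0 ≤ y F) {W W' : Finset V} (h : W ⊆ W') :
    pr y W' ≤ pr y W := by
  unfold pr
  refine Finset.sum_le_sum fun F _ => mul_le_mul_of_nonneg_left ?_ (hy F)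
  by_cases h' : W' ⊆ F
  · rw [if_pos h', if_pos (h.trans h')]
  · rw [if_neg h']
    split_ifs <;> norm_num

/-- the exponential rate of decay of the probability that `W` is free -/
noncomputable def rt (h : V → V → ℝ) (y : Finset V → ℝ) (W : Finset V) : ℝ :=
  (1 / 2) * (∑ a ∈ W, ∑ b ∈ W, h a b) +
    ∑ z ∈ Finset.univ \ W, (∑ w ∈ W, h w z) * (pr y (insert z W) / pr y W)

theorem deriv_pr_rt {h : ℝ → V → V → ℝ} (hs : ∀ t a b, h t a b = h t b a) {U : Finset V}
    {T : ℝ} {μ : ℝ → Finset V → ℝ} (hμ : IsLaw h U T μ) (W : Finset V) {t : ℝ}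
    (ht : t ∈ Icc 0 T) (hp : 0 < pr (μ t) W) :
    HasDerivAt (fun t => pr (μ t) W) (-(rt (h t) (μ t) W * pr (μ t) W)) t := by
  refine (deriv_pr_coll hs hμ W ht).congr_deriv ?_
  unfold rt
  rw [add_mul, Finset.sum_mul]
  congr 2
  refine Finset.sum_congr rfl fun z _ => ?_
  rw [mul_assoc, div_mul_cancel₀ _ hp.ne']

theorem rt_one {h : V → V → ℝ} (hd : ∀ a, h a a = 0) (y : Finset V → ℝ) {a b c : V} (hab : a ≠ b) (hac : a ≠ c)
    (hbc : b ≠ c) :
    rt h y {a} = h a b * (pr y {a, b} / pr y {a}) + h a c * (pr y {a, c} / pr y {a}) +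
      ∑ d ∈ Finset.univ \ {a, b, c}, h a d * (pr y {a, d} / pr y {a}) := by
  unfold rt
  have e0 : (Finset.univ : Finset V) \ {a} = insert b (insert c (Finset.univ \ {a, b, c})) := by
    ext z
    simp only [Finset.mem_sdiff, Finset.mem_univ, true_and, Finset.mem_insert, Finset.mem_singleton]
    constructor
    · intro hz
      tauto
    · rintro (rfl | rfl | hz)
      · exact hab.symm
      · exact hac.symm
      · tauto
  have hb : b ∉ insert c ((Finset.univ : Finset V) \ {a, b, c}) := by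
    simp [hbc]
  have hc : c ∉ ((Finset.univ : Finset V) \ {a, b, c}) := by simp
  rw [e0, Finset.sum_insert hb, Finset.sum_insert hc]
  simp only [Finset.sum_singleton, hd, mul_zero, zero_add]
  rw [← add_assoc]
  congr 1
  · rw [Finset.pair_comm b a, Finset.pair_comm c a]
  · refine Finset.sum_congr rfl fun d _ => ?_
    rw [Finset.pair_comm d a]

theorem rt_two {h : V → V → ℝ} (hs : ∀ a b, h a b = h b a) (hd : ∀ a, h a a = 0) (y : Finset V → ℝ)
    {a b c : V} (hab : a ≠ b) (hac : a ≠ c) (hbc : b ≠ c) :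
    rt h y {b, c} = h b c + (h a b + h a c) * (pr y {a, b, c} / pr y {b, c}) +
      ∑ d ∈ Finset.univ \ {a, b, c}, (h b d + h c d) * (pr y {b, c, d} / pr y {b, c}) := by
  unfold rt
  have e0 : (Finset.univ : Finset V) \ {b, c} = insert a (Finset.univ \ {a, b, c}) := by
    ext z
    simp only [Finset.mem_sdiff, Finset.mem_univ, true_and, Finset.mem_insert, Finset.mem_singleton]
    constructor
    · intro hz
      tauto
    · rintro (rfl | hz)
      · tauto
      · tauto
  have ha : a ∉ ((Finset.univ : Finset V) \ {a, b, c}) := by simp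
  rw [e0, Finset.sum_insert ha, ← add_assoc]
  congr 1
  · congr 1
    · rw [Finset.sum_pair hbc, Finset.sum_pair hbc, Finset.sum_pair hbc, hd, hd, hs c b]
      ring
    · rw [Finset.sum_pair hbc, hs b a, hs c a]
  · refine Finset.sum_congr rfl fun d _ => ?_
    rw [Finset.sum_pair hbc]
    congr 3
    ext z
    simp only [Finset.mem_insert, Finset.mem_singleton]
    tauto

theorem rt_three {h : V → V → ℝ} (hs : ∀ a b, h a b = h b a) (hd : ∀ a, h a a = 0) (y : Finset V → ℝ)
    {a b c : V} (hab : a ≠ b) (hac : a ≠ c) (hbc : b ≠ c) :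
    rt h y {a, b, c} = h a b + h a c + h b c +
      ∑ d ∈ Finset.univ \ {a, b, c}, (h a d + h b d + h c d) * (pr y {a, b, c, d} / pr y {a, b, c}) := by
  unfold rt
  have h1 : ∀ f : V → ℝ, ∑ z ∈ ({a, b, c} : Finset V), f z = f a + f b + f c := by
    intro f
    rw [Finset.sum_insert (by simp [hab, hac]), Finset.sum_pair hbc]
    ring
  congr 1
  · rw [h1, h1, h1, h1, hd, hd, hd, hs b a, hs c a, hs c b]
    ring
  · refine Finset.sum_congr rfl fun d _ => ?_
    rw [h1]
    congr 3
    ext z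
    simp only [Finset.mem_insert, Finset.mem_singleton]
    tauto

end Pool.Agent.RZ.RCM
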