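import Pool.Agent.RZ.RCG.Dual2
import Pool.Agent.RZ.RCG.Shift
import Pool.Agent.RZ.RCM.BTau
import Pool.Agent.RZ.RCRSHalf.Rb

/-! The density of the matching time of a pair given a later survival (MP_73ccd0_lc, all weights,
part B, second half). -/

namespace Pool.Agent.RZ.RCM

open Set Finset Pool.Agent.RZ.RCRSHalf Pool.Agent.RZ.RCRSGen Pool.Agent.RZ.RCG

set_option linter.unusedSectionVars false

variable {V : Type*} [Fintype V] [DecidableEq V]
variable {h : ℝ → V → V → ℝ} {H : V → V → ℝ → ℝ}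

/-- the measure of the event that `B` is free at time `s` (and removed then) and that `W` is free at
time `s + r`; the free set at time `s` has the distribution `y` -/
noncomputable def dn (h : ℝ → V → V → ℝ) (s : ℝ) (y : Finset V → ℝ) (B W : Finset V) (r : ℝ) : ℝ :=
  ∑ F : Finset V, y F * (if B ⊆ F then pr (lw (sh h s) (F \ B)ᶜ r) W else 0)

theorem pr_nonneg' {y : Finset V → ℝ} (hy : ∀ F, 0 ≤ y F) (W : Finset V) : 0 ≤ pr y W := by
  unfold pr
  refine Finset.sum_nonneg fun G _ => mul_nonneg (hy G) ?_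
  split_ifs <;> norm_num

theorem dn_nonneg (hh : Haz h H) {s : ℝ} {y : Finset V → ℝ} (hy : ∀ F, 0 ≤ y F) (B W : Finset V)
    {r : ℝ} (hr : r ∈ Icc (0 : ℝ) 1) : 0 ≤ dn h s y B W r := by
  unfold dn
  refine Finset.sum_nonneg fun F _ => mul_nonneg (hy F) ?_
  split_ifs
  · exact pr_nonneg' (fun G => ((hh.shift s).lw _).nonneg G r hr) W
  · exact le_rfl

/-- the support: nothing if `W` meets `B` -/
theorem dn_eq_zero (hh : Haz h H) {s : ℝ} {y : Finset V → ℝ} {B W : Finset V} (hBW : ¬ Disjoint B W)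
    {r : ℝ} (hr : r ∈ Icc (0 : ℝ) 1) : dn h s y B W r = 0 := by
  unfold dn
  refine Finset.sum_eq_zero fun F _ => ?_
  split_ifs with hBF
  · have : pr (lw (sh h s) (F \ B)ᶜ r) W = 0 := by
      refine ((hh.shift s).lw _).pr_zero (hh.shift s).nonneg (fun hW => hBW ?_) hr
      rw [compl_compl] at hW
      exact (Finset.disjoint_sdiff).mono_right hW
    rw [this, mul_zero]
  · rw [mul_zero]

/-- duality in terms of the backward functions -/
theorem dn_eq (hh : Haz h H) {s t : ℝ} (hs : 0 ≤ s) (hst : s ≤ t) (ht : t ≤ 1) {y : Finset V → ℝ}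
    {B W : Finset V} (hBW : Disjoint B W) {R : Finset V → ℝ → ℝ}
    (hR : IsEv h (fun r z => ∑ w ∈ W, h r w z) (fun _ => 0) (fun _ => 0) t R) (hR1 : ∀ F, R F t = 1) :
    dn h s y B W (t - s) = Real.exp (-(HW H W t - HW H W s)) * ex y (B ∪ W) (fun F => R F s) := by
  have hr : t - s ∈ Icc (0 : ℝ) 1 := ⟨by linarith, by linarith⟩
  have hS := hR.shift (s := s) hs
  unfold dn ex
  rw [Finset.mul_sum]
  refine Finset.sum_congr rfl fun F _ => ?_
  by_cases hBF : B ⊆ F
  · rw [if_pos hBF]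
    by_cases hWF : W ⊆ F
    · have hsub : B ∪ W ⊆ F := Finset.union_subset hBF hWF
      have hWU : W ⊆ ((F \ B)ᶜ)ᶜ := by
        rw [compl_compl]
        exact Finset.subset_sdiff.2 ⟨hWF, hBW.symm⟩
      rw [if_pos hsub]
      have d := duality2 (hh.shift s) ((hh.shift s).lw (F \ B)ᶜ) hWU hr (S := fun G r => R G (s + r)) hS
      have e1 : (fun G => R G (s + (t - s))) = fun _ : Finset V => (1 : ℝ) := by
        funext G
        rw [add_sub_cancel, hR1]
      simp only [e1] at d
      rw [ex_one] at d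
      rw [d, compl_compl, add_zero]
      have e2 : HW (sH H s) W (t - s) = HW H W t - HW H W s := by
        unfold HW sH
        rw [← mul_sub, ← Finset.sum_sub_distrib]
        congr 1
        refine Finset.sum_congr rfl fun a _ => ?_
        rw [← Finset.sum_sub_distrib]
        refine Finset.sum_congr rfl fun b _ => ?_
        rw [add_sub_cancel]
      have e3 : (F \ B) \ W = F \ (B ∪ W) := sdiff_sdiff_left
      rw [e2, e3]
      ring
    · have hsub : ¬ B ∪ W ⊆ F := fun hh => hWF (Finset.subset_union_right.trans hh)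
      rw [if_neg hsub]
      have : pr (lw (sh h s) (F \ B)ᶜ (t - s)) W = 0 := by
        refine ((hh.shift s).lw _).pr_zero (hh.shift s).nonneg (fun hW => hWF ?_) hr
        rw [compl_compl] at hW
        exact hW.trans Finset.sdiff_subset
      rw [this]
      ring
  · have hsub : ¬ B ∪ W ⊆ F := fun hh => hBF (Finset.subset_union_left.trans hh)
    rw [if_neg hBF, if_neg hsub]
    ring

/-- the value at the beginning -/
theorem dn_zero (hh : Haz h H) {s : ℝ} {y : Finset V → ℝ} {B W : Finset V} (hBW : Disjoint B W) :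
    dn h s y B W 0 = pr y (B ∪ W) := by
  unfold dn pr
  refine Finset.sum_congr rfl fun F _ => ?_
  congr 1
  by_cases hBF : B ⊆ F
  · rw [if_pos hBF]
    have hp := ((hh.shift s).lw (F \ B)ᶜ).pr_start (W := W)
    rw [compl_compl] at hp
    unfold pr at hp
    rw [hp]
    by_cases hWF : W ⊆ F
    · rw [if_pos (Finset.subset_sdiff.2 ⟨hWF, hBW.symm⟩), if_pos (Finset.union_subset hBF hWF)]
    · rw [if_neg (fun hW => hWF (hW.trans Finset.sdiff_subset)),
        if_neg (fun hW => hWF (Finset.subset_union_right.trans hW))]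
  · rw [if_neg hBF, if_neg (fun hW => hBF (Finset.subset_union_left.trans hW))]

/-- the derivative with respect to the horizon -/
theorem dn_deriv (hh : Haz h H) {s : ℝ} {y : Finset V → ℝ} {B : Finset V} {a : V} {r : ℝ}
    (hr : r ∈ Icc (0 : ℝ) 1) :
    HasDerivAt (dn h s y B {a})
      (-(∑ z ∈ Finset.univ \ insert a B, h (s + r) a z * dn h s y B {a, z} r)) r := by
  have e : dn h s y B {a} = fun r => ∑ F : Finset V, y F *
      (if B ⊆ F then pr (lw (sh h s) (F \ B)ᶜ r) {a} else 0) := rfl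
  rw [e]
  have key : ∀ F : Finset V, HasDerivAt (fun r => y F *
      (if B ⊆ F then pr (lw (sh h s) (F \ B)ᶜ r) {a} else 0))
      (y F * -(∑ z ∈ Finset.univ \ {a}, h (s + r) a z *
        (if B ⊆ F then pr (lw (sh h s) (F \ B)ᶜ r) {a, z} else 0))) r := by
    intro F
    refine HasDerivAt.const_mul _ ?_
    by_cases hBF : B ⊆ F
    · simp only [if_pos hBF]
      have d := deriv_pr_coll (hh.shift s).symm ((hh.shift s).lw (F \ B)ᶜ) {a} hr
      refine d.congr_deriv ?_
      congr 1
      have h0 : sh h s r a a = 0 := (hh.shift s).diag r a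
      simp only [Finset.sum_singleton, h0, mul_zero, zero_mul, zero_add]
      refine Finset.sum_congr rfl fun z _ => ?_
      rw [Finset.pair_comm a z]
      rfl
    · simp only [if_neg hBF, mul_zero, Finset.sum_const_zero, neg_zero]
      exact hasDerivAt_const _ _
  refine (HasDerivAt.fun_sum fun F _ => key F).congr_deriv ?_
  have e2 : ∑ F : Finset V, y F * -(∑ z ∈ Finset.univ \ {a}, h (s + r) a z *
        (if B ⊆ F then pr (lw (sh h s) (F \ B)ᶜ r) {a, z} else 0)) =
      -(∑ z ∈ Finset.univ \ {a}, h (s + r) a z * dn h s y B {a, z} r) := by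
    unfold dn
    simp only [mul_neg, Finset.sum_neg_distrib]
    congr 1
    simp only [Finset.mul_sum]
    rw [Finset.sum_comm]
    refine Finset.sum_congr rfl fun z _ => Finset.sum_congr rfl fun F _ => ?_
    ring
  rw [e2]
  congr 1
  symm
  refine Finset.sum_subset (fun z hz => ?_) fun z hz hz2 => ?_
  · simp only [Finset.mem_sdiff, Finset.mem_univ, true_and, Finset.mem_insert, not_or,
      Finset.mem_singleton] at hz ⊢
    exact hz.1
  · have hzB : z ∈ B := by
      simp only [Finset.mem_sdiff, Finset.mem_univ, true_and, Finset.mem_insert, not_or,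
        Finset.mem_singleton, not_and, not_not] at hz hz2
      exact hz2 hz
    rw [dn_eq_zero hh (fun hd => ?_) hr, mul_zero]
    exact (Finset.disjoint_left.1 hd) hzB (by simp)

/-- Part B, second half: the density at `s` of the matching time of `bc`, given that `a` is free at
time `t`. -/
theorem dens_le (hh : Haz h H) {a b c : V} (hab : a ≠ b) (hac : a ≠ c) (hbc : b ≠ c) {s t : ℝ}
    (hs : 0 ≤ s) (hst : s ≤ t) (ht : t ≤ 1)
    (hpa : ∀ r ∈ Icc s t, 0 < pr (lw h ∅ r) {a}) {ν : V → ℝ → ℝ} {E E' : ℝ → ℝ}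
    (hE : ∀ r ∈ Icc s t, HasDerivAt E (E' r) r)
    (hE' : ∀ r ∈ Icc s t,
      h r a b * (pr (lw h ∅ r) {a, b} / pr (lw h ∅ r) {a}) +
        h r a c * (pr (lw h ∅ r) {a, c} / pr (lw h ∅ r) {a}) +
        ∑ d ∈ Finset.univ \ {a, b, c}, h r a d * (ν d r * (pr (lw h ∅ r) {a, d} / pr (lw h ∅ r) {a}))
        ≤ E' r)
    (hν : ∀ r ∈ Icc s t, ∀ d ∈ Finset.univ \ {a, b, c}, h r a d ≠ 0 →
      (1 - ν d r) * (dn h s (lw h ∅ s) {b, c} {a} (r - s) * pr (lw h ∅ r) {a, d}) ≤
        dn h s (lw h ∅ s) {b, c} {a, d} (r - s) * pr (lw h ∅ r) {a}) :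
    dn h s (lw h ∅ s) {b, c} {a} (t - s) * pr (lw h ∅ s) {a} ≤
      pr (lw h ∅ t) {a} * (pr (lw h ∅ s) {a, b, c} * Real.exp (E t - E s)) := by
  have hlaw : IsLaw h Finset.univ 1 (lw h ∅) := by
    have := hh.lw (∅ : Finset V)
    rwa [Finset.compl_empty] at this
  have hμ0 : ∀ r ∈ Icc s t, ∀ F, 0 ≤ lw h ∅ r F := fun r hr F =>
    hlaw.nonneg F r ⟨hs.trans hr.1, hr.2.trans ht⟩
  have hss : s ∈ Icc s t := ⟨le_rfl, hst⟩
  set y := lw h ∅ s with hy
  set D : ℝ → ℝ := fun r => dn h s y {b, c} {a} (r - s) with hD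
  set p : ℝ → ℝ := fun r => pr (lw h ∅ r) {a} with hp
  set C : ℝ := pr y {a, b, c} with hC
  have hC0 : 0 ≤ C := pr_nonneg' (hμ0 s hss) _
  have hdiff : Finset.univ \ insert a ({b, c} : Finset V) = Finset.univ \ {a, b, c} := rfl
  have hDd : ∀ r ∈ Icc s t, HasDerivAt D
      (-(∑ z ∈ Finset.univ \ {a, b, c}, h r a z * dn h s y {b, c} {a, z} (r - s))) r := by
    intro r hr
    have h1 := dn_deriv (s := s) (y := y) (B := {b, c}) (a := a) hh
      (r := r - s) ⟨by linarith [hr.1], by linarith [hr.2]⟩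
    rw [add_sub_cancel, hdiff] at h1
    have h2 := h1.scomp r ((hasDerivAt_id r).sub_const s)
    rw [one_smul] at h2
    exact h2
  have hpd : ∀ r ∈ Icc s t, HasDerivAt p (-(rt (h r) (lw h ∅ r) {a} * p r)) r := fun r hr =>
    deriv_pr_rt hh.symm hlaw {a} ⟨hs.trans hr.1, hr.2.trans ht⟩ (hpa r hr)
  -- the function which stays nonnegative
  set Rd : ℝ → ℝ := fun r =>
    (-(∑ z ∈ Finset.univ \ {a, b, c}, h r a z * dn h s y {b, c} {a, z} (r - s)) * p r -
        D r * -(rt (h r) (lw h ∅ r) {a} * p r)) / p r ^ 2 * p s with hRd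
  set U : ℝ → ℝ := fun r => C - D r / p r * p s * Real.exp (-(E r - E s)) with hU
  have key := nonneg_of_forward (U := U)
    (U' := fun r => -(Rd r * Real.exp (-(E r - E s)) +
      D r / p r * p s * (Real.exp (-(E r - E s)) * -(E' r)))) (a := s) (s := t)
    (fun r hr => by
      have h1 := (((hE r hr).sub_const (E s)).neg.exp)
      have h2 := ((hDd r hr).div (hpd r hr) (hpa r hr).ne').mul_const (p s)
      exact (h2.mul h1).const_sub C) ?_ ?_
  · have := key t ⟨hst, le_rfl⟩
    simp only [hU] at this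
    have hpt := hpa t ⟨hst, le_rfl⟩
    have hex : Real.exp (-(E t - E s)) * Real.exp (E t - E s) = 1 := by
      rw [← Real.exp_add]; simp
    have hex0 := Real.exp_pos (E t - E s)
    have h1 : D t / p t * p s * Real.exp (-(E t - E s)) ≤ C := by linarith
    have h2 := mul_le_mul_of_nonneg_right h1 hex0.le
    rw [mul_assoc, hex, mul_one] at h2
    have e1 : D t / p t * p s = D t * p s / p t := by ring
    rw [e1, div_le_iff₀ hpt] at h2
    linarith
  · -- the start
    simp only [hU, hD, sub_self, neg_zero, Real.exp_zero, mul_one]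
    rw [dn_zero hh (by
      rw [Finset.disjoint_singleton_right]
      simp [hab, hac])]
    have e0 : ({b, c} : Finset V) ∪ {a} = {a, b, c} := by
      ext z; simp only [Finset.mem_union, Finset.mem_insert, Finset.mem_singleton]; tauto
    rw [e0]
    have := (hpa s hss).ne'
    rw [div_mul_cancel₀ _ this, ← hC, sub_self]
  · intro r hr _
    have hpr := hpa r hr
    have hps := hpa s hss
    have hD0 : 0 ≤ D r := dn_nonneg hh (hμ0 s hss) _ _ ⟨by linarith [hr.1], by linarith [hr.2]⟩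
    have e1 := rt_one (h := h r) (hh.diag r) (lw h ∅ r) hab hac hbc
    have hEr := hE' r hr
    have hsum : ∑ z ∈ Finset.univ \ {a, b, c}, h r a z * (pr (lw h ∅ r) {a, z} / p r * D r) -
        ∑ z ∈ Finset.univ \ {a, b, c}, h r a z * dn h s y {b, c} {a, z} (r - s) ≤
        (∑ d ∈ Finset.univ \ {a, b, c}, h r a d * (ν d r * (pr (lw h ∅ r) {a, d} / p r))) * D r := by
      rw [Finset.sum_mul, ← Finset.sum_sub_distrib]
      refine Finset.sum_le_sum fun d hd => ?_
      by_cases h0 : h r a d = 0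
      · rw [h0]; simp
      · have h1 := hν r hr d hd h0
        have h2 : (1 - ν d r) * (D r * (pr (lw h ∅ r) {a, d} / p r)) ≤
            dn h s y {b, c} {a, d} (r - s) := by
          rw [← mul_div_assoc, ← mul_div_assoc, div_le_iff₀ hpr]
          exact h1
        have h3 := mul_le_mul_of_nonneg_left h2 (hh.nonneg r a d)
        linarith
    -- the derivative of the ratio
    have hratio : Rd r ≤ E' r * (D r / p r * p s) := by
      have e2 : Rd r =
          (rt (h r) (lw h ∅ r) {a} * D r -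
            ∑ z ∈ Finset.univ \ {a, b, c}, h r a z * dn h s y {b, c} {a, z} (r - s)) * (p s / p r) := by
        simp only [hRd]
        field_simp
        ring
      have e3 : E' r * (D r / p r * p s) = (E' r * D r) * (p s / p r) := by ring
      rw [e2, e3]
      refine mul_le_mul_of_nonneg_right ?_ (by positivity)
      have e4 : rt (h r) (lw h ∅ r) {a} * D r =
          (h r a b * (pr (lw h ∅ r) {a, b} / p r) + h r a c * (pr (lw h ∅ r) {a, c} / p r)) * D r +
          ∑ z ∈ Finset.univ \ {a, b, c}, h r a z * (pr (lw h ∅ r) {a, z} / p r * D r) := by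
        rw [e1, add_mul, Finset.sum_mul]
        congr 1
        refine Finset.sum_congr rfl fun z _ => ?_
        ring
      have h5 := mul_le_mul_of_nonneg_right hEr hD0
      rw [e4]
      linarith
    have hex := Real.exp_pos (-(E r - E s))
    have h7 := mul_le_mul_of_nonneg_right hratio hex.le
    linarith

/-- Part B, first half, exponential form: `τ(s) ≤ exp (Λ(s) + E'(s))`. -/
theorem tau_exp (hh : Haz h H) {a b c : V} (hab : a ≠ b) (hac : a ≠ c) (hbc : b ≠ c) {s : ℝ}
    (hs : s ∈ Icc (0 : ℝ) 1) (hpos : ∀ r ∈ Icc 0 s, 0 < pr (lw h ∅ r) {a, b, c}) {E E' : ℝ → ℝ}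
    (hE : ∀ r ∈ Icc 0 s, HasDerivAt E (E' r) r)
    (hE' : ∀ r ∈ Icc 0 s,
      h r a b * (pr (lw h ∅ r) {a, b} / pr (lw h ∅ r) {a}) +
        h r a c * (pr (lw h ∅ r) {a, c} / pr (lw h ∅ r) {a}) +
      ∑ d ∈ Finset.univ \ {a, b, c},
      (h r a d * (pr (lw h ∅ r) {a, d} / pr (lw h ∅ r) {a} -
          pr (lw h ∅ r) {a, b, c, d} / pr (lw h ∅ r) {a, b, c}) +
        (h r b d + h r c d) *
          (pr (lw h ∅ r) {b, c, d} / pr (lw h ∅ r) {b, c} -
            pr (lw h ∅ r) {a, b, c, d} / pr (lw h ∅ r) {a, b, c})) ≤ E' r) :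
    pr (lw h ∅ s) {a, b, c} ≤
      pr (lw h ∅ s) {b, c} * pr (lw h ∅ s) {a} * Real.exp (E s - E 0) := by
  have hlaw : IsLaw h Finset.univ 1 (lw h ∅) := by
    have := hh.lw (∅ : Finset V)
    rwa [Finset.compl_empty] at this
  set μ := lw h ∅ with hμ
  have hnn : ∀ r ∈ Icc 0 s, ∀ F, 0 ≤ μ r F := fun r hr F =>
    hlaw.nonneg F r ⟨hr.1, hr.2.trans hs.2⟩
  have hp1 : ∀ r ∈ Icc 0 s, 0 < pr (μ r) {a} := fun r hr =>
    (hpos r hr).trans_le (pr_mono (hnn r hr) (by simp))
  have hp2 : ∀ r ∈ Icc 0 s, 0 < pr (μ r) {b, c} := fun r hr =>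
    (hpos r hr).trans_le (pr_mono (hnn r hr) (Finset.subset_insert _ _))
  let Q : ℝ → ℝ := fun r => Real.exp (E r - E 0) * (pr (μ r) {b, c} * pr (μ r) {a} / pr (μ r) {a, b, c})
  let Q' : ℝ → ℝ := fun r => Real.exp (E r - E 0) *
    (pr (μ r) {b, c} * pr (μ r) {a} / pr (μ r) {a, b, c}) *
      (E' r + (rt (h r) (μ r) {a, b, c} - rt (h r) (μ r) {b, c} - rt (h r) (μ r) {a}))
  have hQ : ∀ r ∈ Icc 0 s, HasDerivAt Q (Q' r) r := by
    intro r hr
    have hr1 : r ∈ Icc (0 : ℝ) 1 := ⟨hr.1, hr.2.trans hs.2⟩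
    have d1 := deriv_pr_rt hh.symm hlaw {a} hr1 (hp1 r hr)
    have d2 := deriv_pr_rt hh.symm hlaw {b, c} hr1 (hp2 r hr)
    have d3 := deriv_pr_rt hh.symm hlaw {a, b, c} hr1 (hpos r hr)
    have d4 := (((hE r hr).sub_const (E 0)).exp.mul ((d2.mul d1).div d3 (hpos r hr).ne'))
    refine d4.congr_deriv ?_
    have h3 := (hpos r hr).ne'
    simp only [Q', Pi.mul_apply, Pi.div_apply]
    field_simp
    ring
  have hQ0 : ∀ r ∈ Icc 0 s, 0 ≤ Q' r := by
    intro r hr
    have h1 := hp1 r hr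
    have h2 := hp2 r hr
    have h3 := hpos r hr
    have hsum := hE' r hr
    set p1 := pr (μ r) {a} with hp1d
    set p2 := pr (μ r) {b, c} with hp2d
    set p3 := pr (μ r) {a, b, c} with hp3d
    have r1 := rt_one (h := h r) (hh.diag r) (μ r) hab hac hbc
    have r2 := rt_two (h := h r) (hh.symm r) (hh.diag r) (μ r) hab hac hbc
    have r3 := rt_three (h := h r) (hh.symm r) (hh.diag r) (μ r) hab hac hbc
    rw [← hp1d] at r1
    rw [← hp2d, ← hp3d] at r2
    rw [← hp3d] at r3
    have h32 : p3 ≤ p2 := pr_mono (hnn r hr) (Finset.subset_insert _ _)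
    have hs3 : ∑ d ∈ Finset.univ \ {a, b, c},
          (h r a d * (pr (μ r) {a, d} / p1 - pr (μ r) {a, b, c, d} / p3) +
            (h r b d + h r c d) * (pr (μ r) {b, c, d} / p2 - pr (μ r) {a, b, c, d} / p3)) =
          ∑ d ∈ Finset.univ \ {a, b, c}, h r a d * (pr (μ r) {a, d} / p1) +
          ∑ d ∈ Finset.univ \ {a, b, c}, (h r b d + h r c d) * (pr (μ r) {b, c, d} / p2) -
          ∑ d ∈ Finset.univ \ {a, b, c}, (h r a d + h r b d + h r c d) * (pr (μ r) {a, b, c, d} / p3) := by
      rw [← Finset.sum_add_distrib, ← Finset.sum_sub_distrib]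
      refine Finset.sum_congr rfl fun d _ => ?_
      ring
    rw [hs3] at hsum
    have k1 : (h r a b + h r a c) * (p3 / p2) ≤ h r a b + h r a c := by
      have : p3 / p2 ≤ 1 := (div_le_one h2).2 h32
      have h0 : 0 ≤ h r a b + h r a c := add_nonneg (hh.nonneg r a b) (hh.nonneg r a c)
      nlinarith
    have key : 0 ≤ E' r + (rt (h r) (μ r) {a, b, c} - rt (h r) (μ r) {b, c} - rt (h r) (μ r) {a}) := by
      rw [r1, r2, r3]
      linarith
    show 0 ≤ Q' r
    simp only [Q']
    exact mul_nonneg (by positivity) key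
  have hstart : ∀ W : Finset V, pr (μ 0) W = 1 := fun W => by
    rw [hlaw.pr_start, if_pos (Finset.subset_univ _)]
  have hQ00 : Q 0 = 1 := by
    simp only [Q]
    rw [hstart, hstart, hstart]
    simp
  have := nonneg_of_forward (U := fun r => Q r - 1) (U' := Q') (a := 0) (s := s)
    (fun r hr => (hQ r hr).sub_const 1) (by simp [hQ00]) (fun r hr _ => hQ0 r hr) s ⟨hs.1, le_rfl⟩
  simp only [Q] at this
  have h3 := hpos s ⟨hs.1, le_rfl⟩
  have h4 : 1 ≤ Real.exp (E s - E 0) * (pr (μ s) {b, c} * pr (μ s) {a}) / pr (μ s) {a, b, c} := by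
    rw [mul_div_assoc]; linarith
  rw [le_div_iff₀ h3] at h4
  linarith

end Pool.Agent.RZ.RCM
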