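import Pool.Agent.RZ.RCG.GlueA
import Pool.Agent.RZ.RCG.Infl
import Pool.Agent.RZ.RCM.Half
import Pool.Agent.RZ.RCM.World

/-! Level 0 in the form used by the ratio closures (MP_73ccd0_lc, route M). -/

namespace Pool.Agent.RZ.RCM

open Set Finset Pool.Agent.RZ.RCRSHalf Pool.Agent.RZ.RCG

set_option linter.unusedSectionVars false

variable {V : Type*} [Fintype V] [DecidableEq V]

/-- level 0 closure functions for killing rates `κ` on `[0, t]` -/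
structure L0 (h : ℝ → V → V → ℝ) (κ : ℝ → V → ℝ) (U : Finset V) (t : ℝ)
    (P P' N N' : V → ℝ → ℝ) : Prop where
  Pd : ∀ a ∈ U, ∀ r ∈ Icc 0 t, HasDerivAt (P a) (P' a r) r
  Nd : ∀ a ∈ U, ∀ r ∈ Icc 0 t, HasDerivAt (N a) (N' a r) r
  P0 : ∀ a, ∀ r ∈ Icc 0 t, 0 ≤ P a r
  N0 : ∀ a, ∀ r ∈ Icc 0 t, 0 ≤ N a r
  N1 : ∀ a, ∀ r ∈ Icc 0 t, N a r ≤ 1
  oP : ∀ a ∈ U, ∀ r ∈ Icc 0 t, (1 + P a r) * (κ r a + ∑ b ∈ U, h r a b * N b r) ≤ -P' a r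
  oN : ∀ a ∈ U, ∀ r ∈ Icc 0 t, ∑ b ∈ U, h r a b * P b r ≤ -N' a r

/-- single removals at a fixed time -/
def Inf0 (Φ : Finset V → ℝ → ℝ) (U : Finset V) (P N : V → ℝ → ℝ) (r : ℝ) : Prop :=
  ∀ G ⊆ U, ∀ a ∈ G, Φ (G.erase a) r ≤ (1 + P a r) * Φ G r ∧ (1 - N a r) * Φ G r ≤ Φ (G.erase a) r

theorem L0.inf {h : ℝ → V → V → ℝ} {κ : ℝ → V → ℝ} {U : Finset V} {t : ℝ}
    {P P' N N' : V → ℝ → ℝ} (hL : L0 h κ U t P P' N N')
    (hs : ∀ t a b, h t a b = h t b a) (haa : ∀ t a, h t a a = 0) (h0 : ∀ t a b, 0 ≤ h t a b)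
    {κ1 : ℝ → V → ℝ} (κ0 : ∀ r a, 0 ≤ κ1 r a) (κle : ∀ r a, κ1 r a ≤ κ r a)
    {s : ℝ} (hst : s ≤ t) {Φ : Finset V → ℝ → ℝ} (hΦ : Wd h κ1 s Φ)
    (hend : 0 ≤ s → Inf0 Φ U P N s) : ∀ r ∈ Icc 0 s, Inf0 Φ U P N r := by
  intro r hr
  have s0 : 0 ≤ s := hr.1.trans hr.2
  have m : ∀ r ∈ Icc 0 s, r ∈ Icc 0 t := fun r hr => ⟨hr.1, hr.2.trans hst⟩
  intro G hG a ha
  exact infl hs haa h0 (fun t a => κ0 t a) (fun _ => le_rfl) (fun _ => le_rfl) hΦ.ev U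
    (fun a ha r hr => hL.Pd a ha r (m r hr)) (fun a ha r hr => hL.Nd a ha r (m r hr))
    (fun a _ r hr => hL.P0 a r (m r hr)) (fun a _ r hr => hL.N0 a r (m r hr))
    (fun a _ r hr => hL.N1 a r (m r hr))
    (fun a ha r hr => (mul_le_mul_of_nonneg_left (by linarith [κle r a])
      (by linarith [hL.P0 a r (m r hr)])).trans (hL.oP a ha r (m r hr)))
    (fun a ha r hr => hL.oN a ha r (m r hr))
    (fun G hG a ha => (hend s0 G hG a ha).1) (fun G hG a ha => (hend s0 G hG a ha).2)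
    G hG a ha r hr

/-- pair removals -/
theorem Lv0.of_inf {U : Finset V} {s : ℝ} {Φ : Finset V → ℝ → ℝ} {P N : V → ℝ → ℝ}
    (P0 : ∀ a, ∀ r ∈ Icc 0 s, 0 ≤ P a r)
    (N1 : ∀ a, ∀ r ∈ Icc 0 s, N a r ≤ 1) (hi : ∀ r ∈ Icc 0 s, Inf0 Φ U P N r) :
    Lv0 U s Φ (fun r x y => (1 + P x r) * (1 + P y r)) (fun r x y => (1 - N x r) * (1 - N y r)) := by
  refine ⟨fun F hF x hx y hy hxy r hr => ?_, fun F hF x hx y hy hxy r hr => ?_,
    fun r hr x y => ?_⟩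
  · have hy' : y ∈ F.erase x := Finset.mem_erase.2 ⟨fun h => hxy h.symm, hy⟩
    have h1 := (hi r hr F hF x hx).1
    have h2 := (hi r hr (F.erase x) ((Finset.erase_subset _ _).trans hF) y hy').1
    calc Φ ((F.erase x).erase y) r ≤ (1 + P y r) * Φ (F.erase x) r := h2
      _ ≤ (1 + P y r) * ((1 + P x r) * Φ F r) :=
        mul_le_mul_of_nonneg_left h1 (by linarith [P0 y r hr])
      _ = (1 + P x r) * (1 + P y r) * Φ F r := by ring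
  · have hy' : y ∈ F.erase x := Finset.mem_erase.2 ⟨fun h => hxy h.symm, hy⟩
    have h1 := (hi r hr F hF x hx).2
    have h2 := (hi r hr (F.erase x) ((Finset.erase_subset _ _).trans hF) y hy').2
    calc (1 - N x r) * (1 - N y r) * Φ F r = (1 - N y r) * ((1 - N x r) * Φ F r) := by ring
      _ ≤ (1 - N y r) * Φ (F.erase x) r :=
        mul_le_mul_of_nonneg_left h1 (by linarith [N1 y r hr])
      _ ≤ Φ ((F.erase x).erase y) r := h2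
  · exact mul_nonneg (by linarith [P0 x r hr]) (by linarith [P0 y r hr])

/-- existence of the world functions -/
theorem exists_wd {h : ℝ → V → V → ℝ} {H : V → V → ℝ → ℝ} (hh : Haz h H) (W : Finset V) {s : ℝ}
    (hs : s ∈ Icc (0 : ℝ) 1) (ψ : Finset V → ℝ) (hψ : ∀ F, 0 < ψ F) :
    ∃ R : Finset V → ℝ → ℝ, Wd h (fun r a => ∑ w ∈ W, h r w a) s R ∧ ∀ F, R F s = ψ F := by
  obtain ⟨R, hR, hRs⟩ := hh.exists_ev W hs ψ (fun F => (hψ F).le)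
  refine ⟨R, ⟨hR, fun F r hr => ?_⟩, hRs⟩
  have h1 := IsEv.lower hh (K := fun a r => ∑ w ∈ W, H w a r)
    (fun a r _ => HasDerivAt.fun_sum fun w _ => hh.Hd w a r) hR F r hr
  rw [hRs] at h1
  have h2 : 0 < R F r * Real.exp (-(HW H F r + ∑ a ∈ F, ∑ w ∈ W, H w a r)) :=
    lt_of_lt_of_le (mul_pos (hψ F) (Real.exp_pos _)) h1
  exact (pos_iff_pos_of_mul_pos h2).2 (Real.exp_pos _)

/-- change of the form of the killing rates -/
theorem Wd.congr {h : ℝ → V → V → ℝ} {κ κ1 : ℝ → V → ℝ} {s : ℝ} {Φ : Finset V → ℝ → ℝ}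
    (hΦ : Wd h κ s Φ) (e : ∀ r a, κ r a = κ1 r a) : Wd h κ1 s Φ := by
  have : κ = κ1 := by funext r a; exact e r a
  rwa [← this]

end Pool.Agent.RZ.RCM
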