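import Pool.Agent.RZ.RCM.BDens
import Pool.Agent.RZ.RCM.MLem

/-! Part B of the (M) route: the correlation errors in terms of the deleted closures
(MP_73ccd0_lc, all weights). -/

namespace Pool.Agent.RZ.RCM

open Set Finset Pool.Agent.RZ.RCRSHalf Pool.Agent.RZ.RCRSGen Pool.Agent.RZ.RCG

set_option linter.unusedSectionVars false

variable {V : Type*} [Fintype V] [DecidableEq V]
variable {h : ℝ → V → V → ℝ} {H : V → V → ℝ → ℝ}

/-- the deleted closure with the constant `K`: targets `A` up to `t`, the other vertices of `D`, and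
`d`, removed at time `s` -/
def CloD (h : ℝ → V → V → ℝ) (t s : ℝ) (A D : Finset V) (c d : V) (K : ℝ) : Prop :=
  ∀ Ra Rac : Finset V → ℝ → ℝ, Wd h (fun r v => ∑ w ∈ A, h r w v) t Ra → (∀ F, Ra F t = 1) →
    Wd h (fun r v => ∑ w ∈ A, h r w v + h r c v) t Rac → (∀ F, Rac F t = 1) →
    ex (lw h ∅ s) (insert d D) (fun F => Ra F s) * ex (lw h ∅ s) (insert c D) (fun F => Rac F s)
      ≤ K * (ex (lw h ∅ s) ({c, d} ∪ D) (fun F => Rac F s) * ex (lw h ∅ s) D (fun F => Ra F s))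

theorem CloD.mono {t s : ℝ} {A D : Finset V} {c d : V} {K K' : ℝ} (hh : Haz h H)
    (ht : t ∈ Icc (0 : ℝ) 1) (hs : s ∈ Icc 0 t)
    (hC : CloD h t s A D c d K) (hK : K ≤ K') : CloD h t s A D c d K' := by
  intro Ra Rac h1 h2 h3 h4
  refine (hC Ra Rac h1 h2 h3 h4).trans (mul_le_mul_of_nonneg_right hK ?_)
  have hs1 : s ∈ Icc (0 : ℝ) 1 := ⟨hs.1, hs.2.trans ht.2⟩
  exact (mul_pos (ex_pos hh hs1 fun F => h3.pos F s hs) (ex_pos hh hs1 fun F => h1.pos F s hs)).le

/-- the existence of the pair of world functions -/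
theorem exists_worlds (hh : Haz h H) (A : Finset V) {c : V} (hcA : c ∉ A) {t : ℝ}
    (ht : t ∈ Icc (0 : ℝ) 1) :
    ∃ Ra Rac : Finset V → ℝ → ℝ, Wd h (fun r v => ∑ w ∈ A, h r w v) t Ra ∧ (∀ F, Ra F t = 1) ∧
      Wd h (fun r v => ∑ w ∈ A, h r w v + h r c v) t Rac ∧ (∀ F, Rac F t = 1) := by
  obtain ⟨Ra, hRa, a1⟩ := exists_wd hh A ht (fun _ => 1) (fun _ => one_pos)
  obtain ⟨Rac, hRac, c1⟩ := exists_wd hh (insert c A) ht (fun _ => 1) (fun _ => one_pos)
  exact ⟨Ra, Rac, hRa, a1, hRac.congr fun r v => by rw [Finset.sum_insert hcA]; ring, c1⟩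

theorem pr_pos' (hh : Haz h H) {t : ℝ} (ht : t ∈ Icc (0 : ℝ) 1) (W : Finset V) :
    0 < pr (lw h ∅ t) W := by
  rw [← ex_one]
  exact ex_pos hh ht fun _ => one_pos

/-- closure at the final time: the correlation of two vertices given that `D` is free -/
theorem CloD.pr_le (hh : Haz h H) {t : ℝ} (ht : t ∈ Icc (0 : ℝ) 1) {D : Finset V} {c d : V}
    (hcD : c ∉ D) {K : ℝ} (hC : CloD h t t D D c d K) :
    pr (lw h ∅ t) (insert d D) * pr (lw h ∅ t) (insert c D) ≤
      K * (pr (lw h ∅ t) ({c, d} ∪ D) * pr (lw h ∅ t) D) := by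
  obtain ⟨Ra, Rac, hRa, a1, hRac, c1⟩ := exists_worlds hh D hcD ht
  have := hC Ra Rac hRa a1 hRac c1
  simp only [a1, c1] at this
  rwa [ex_one, ex_one, ex_one, ex_one] at this

/-- the first error: `a, b, c` free against `a` free -/
theorem eps_a (hh : Haz h H) {t : ℝ} (ht : t ∈ Icc (0 : ℝ) 1) {a b c d : V} (hab : a ≠ b)
    (hac : a ≠ c) (hbc : b ≠ c) {K1 K2 : ℝ} (h1 : CloD h t t {a, b} {a, b} c d K1)
    (h2 : CloD h t t {a} {a} b d K2) :
    pr (lw h ∅ t) {a, b, c} * pr (lw h ∅ t) {a, d} ≤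
      K1 * K2 * (pr (lw h ∅ t) {a, b, c, d} * pr (lw h ∅ t) {a}) := by
  have e1 := h1.pr_le hh ht (by simp [hac.symm, hbc.symm])
  have e2 := h2.pr_le hh ht (by simp [hab.symm])
  have s1 : insert d ({a, b} : Finset V) = {a, b, d} := by
    ext z; simp only [Finset.mem_insert, Finset.mem_singleton]; tauto
  have s2 : insert c ({a, b} : Finset V) = {a, b, c} := by
    ext z; simp only [Finset.mem_insert, Finset.mem_singleton]; tauto
  have s3 : ({c, d} ∪ {a, b} : Finset V) = {a, b, c, d} := by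
    ext z; simp only [Finset.mem_union, Finset.mem_insert, Finset.mem_singleton]; tauto
  have s4 : insert d ({a} : Finset V) = {a, d} := Finset.pair_comm d a
  have s5 : insert b ({a} : Finset V) = {a, b} := Finset.pair_comm b a
  have s6 : ({b, d} ∪ {a} : Finset V) = {a, b, d} := by
    ext z; simp only [Finset.mem_union, Finset.mem_insert, Finset.mem_singleton]; tauto
  rw [s1, s2, s3] at e1
  rw [s4, s5, s6] at e2
  have p := fun W : Finset V => pr_pos' hh ht W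
  have hK1 : 0 ≤ K1 * (pr (lw h ∅ t) {a, b, c, d} * pr (lw h ∅ t) {a, b}) :=
    (mul_pos (p _) (p _)).le.trans e1
  have hm := mul_le_mul e1 e2 (mul_pos (p _) (p _)).le hK1
  refine le_of_mul_le_mul_right ?_ (mul_pos (p {a, b, d}) (p {a, b}))
  calc _ = pr (lw h ∅ t) {a, b, d} * pr (lw h ∅ t) {a, b, c} *
        (pr (lw h ∅ t) {a, d} * pr (lw h ∅ t) {a, b}) := by ring
    _ ≤ _ := hm
    _ = _ := by ring

/-- the second error: `a, b, c` free against `b, c` free -/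
theorem eps_bc (hh : Haz h H) {t : ℝ} (ht : t ∈ Icc (0 : ℝ) 1) {a b c d : V} (hab : a ≠ b)
    (hac : a ≠ c) {K3 : ℝ} (h3 : CloD h t t {b, c} {b, c} a d K3) :
    pr (lw h ∅ t) {a, b, c} * pr (lw h ∅ t) {b, c, d} ≤
      K3 * (pr (lw h ∅ t) {a, b, c, d} * pr (lw h ∅ t) {b, c}) := by
  have e1 := h3.pr_le hh ht (by simp [hab, hac])
  have s1 : insert d ({b, c} : Finset V) = {b, c, d} := by
    ext z; simp only [Finset.mem_insert, Finset.mem_singleton]; tauto
  have s3 : ({a, d} ∪ {b, c} : Finset V) = {a, b, c, d} := by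
    ext z; simp only [Finset.mem_union, Finset.mem_insert, Finset.mem_singleton]; tauto
  rw [s1, s3] at e1
  rw [mul_comm]
  exact e1

/-- the probability at a later time in terms of the backward function -/
theorem pr_back (hh : Haz h H) {s t : ℝ} (hs : 0 ≤ s) (hst : s ≤ t) (ht : t ≤ 1) {W : Finset V}
    {R : Finset V → ℝ → ℝ}
    (hR : IsEv h (fun r z => ∑ w ∈ W, h r w z) (fun _ => 0) (fun _ => 0) t R)
    (hR1 : ∀ F, R F t = 1) :
    pr (lw h ∅ t) W = Real.exp (-(HW H W t - HW H W s)) * ex (lw h ∅ s) W (fun F => R F s) := by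
  have sub : W ⊆ (∅ : Finset V)ᶜ := by
    rw [Finset.compl_empty]; exact Finset.subset_univ W
  have d1 := duality2 hh (hh.lw ∅) sub ⟨hs.trans hst, ht⟩ hR
  have hRs : IsEv h (fun r z => ∑ w ∈ W, h r w z) (fun _ => 0) (fun _ => 0) s R :=
    ⟨fun F r hr => hR.deriv F r ⟨hr.1, hr.2.trans hst⟩,
      fun F r hr => hR.nonneg F r ⟨hr.1, hr.2.trans hst⟩⟩
  have d2 := duality2 hh (hh.lw ∅) sub ⟨hs, hst.trans ht⟩ hRs
  have e1 : ex (lw h ∅ t) W (fun F => R F t) = pr (lw h ∅ t) W := by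
    rw [← ex_one]; congr 1; funext F; exact hR1 F
  rw [e1] at d1
  rw [d1, d2, ← mul_assoc, ← Real.exp_add]
  congr 2
  ring

/-- the third error: the survival of `a` with and without the removal of `b, c` at time `s` -/
theorem eps_nu (hh : Haz h H) {s r : ℝ} (hs : 0 ≤ s) (hsr : s ≤ r) (hr : r ≤ 1) {a b c d : V}
    (hab : a ≠ b) (hac : a ≠ c) (hda : d ≠ a) (hdb : d ≠ b) (hdc : d ≠ c) {K4 K5 : ℝ}
    (h4 : CloD h r s {a} {a} d b K4) (h5 : CloD h r s {a} {a, b} d c K5) :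
    dn h s (lw h ∅ s) {b, c} {a} (r - s) * pr (lw h ∅ r) {a, d} ≤
      K4 * K5 * (dn h s (lw h ∅ s) {b, c} {a, d} (r - s) * pr (lw h ∅ r) {a}) := by
  have hr1 : r ∈ Icc (0 : ℝ) 1 := ⟨hs.trans hsr, hr⟩
  have hs1 : s ∈ Icc (0 : ℝ) 1 := ⟨hs, hsr.trans hr⟩
  have hsr' : s ∈ Icc 0 r := ⟨hs, hsr⟩
  obtain ⟨Ra, Rad, hRa, a1, hRad, d1⟩ := exists_worlds hh {a} (c := d) (by simp [hda]) hr1
  have hev1 := hRa.ev
  have hev2 : IsEv h (fun r v => ∑ w ∈ ({a, d} : Finset V), h r w v) (fun _ => 0) (fun _ => 0) r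
      Rad := by
    have e : (fun (r : ℝ) (v : V) => ∑ w ∈ ({a, d} : Finset V), h r w v)
        = fun r v => ∑ w ∈ ({a} : Finset V), h r w v + h r d v := by
      funext r v; rw [Finset.sum_pair hda.symm, Finset.sum_singleton]
    rw [e]; exact hRad.ev
  have db1 : Disjoint ({b, c} : Finset V) {a} := by
    rw [Finset.disjoint_singleton_right]; simp [hab, hac]
  have db2 : Disjoint ({b, c} : Finset V) {a, d} := by
    rw [Finset.disjoint_insert_right, Finset.disjoint_singleton_right]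
    simp [hab, hac, hdb, hdc]
  rw [dn_eq hh hs hsr hr db1 hev1 a1, dn_eq hh hs hsr hr db2 hev2 d1,
    pr_back hh hs hsr hr hev1 a1, pr_back hh hs hsr hr hev2 d1]
  have e4 := h4 Ra Rad hRa a1 hRad d1
  have e5 := h5 Ra Rad hRa a1 hRad d1
  have s1 : insert b ({a} : Finset V) = {a, b} := Finset.pair_comm b a
  have s2 : insert d ({a} : Finset V) = {a, d} := Finset.pair_comm d a
  have s3 : ({d, b} ∪ {a} : Finset V) = insert d {a, b} := by
    ext z; simp only [Finset.mem_union, Finset.mem_insert, Finset.mem_singleton]; tauto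
  have s4 : ({d, c} ∪ {a, b} : Finset V) = {b, c} ∪ {a, d} := by
    ext z; simp only [Finset.mem_union, Finset.mem_insert, Finset.mem_singleton]; tauto
  have s5 : insert c ({a, b} : Finset V) = {b, c} ∪ {a} := by
    ext z; simp only [Finset.mem_union, Finset.mem_insert, Finset.mem_singleton]; tauto
  rw [s1, s2, s3] at e4
  rw [s5, s4] at e5
  have p1 := fun W : Finset V => ex_pos hh (W := W) hs1 (fun F => hRa.pos F s hsr')
  have p2 := fun W : Finset V => ex_pos hh (W := W) hs1 (fun F => hRad.pos F s hsr')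
  have hm := mul_le_mul e4 e5 (mul_pos (p1 _) (p2 _)).le ((mul_pos (p1 _) (p2 _)).le.trans e4)
  have E1 := Real.exp_pos (-(HW H {a} r - HW H {a} s))
  have E2 := Real.exp_pos (-(HW H {a, d} r - HW H {a, d} s))
  have key : ex (lw h ∅ s) ({b, c} ∪ {a}) (fun F => Ra F s) *
      ex (lw h ∅ s) {a, d} (fun F => Rad F s) ≤
      K4 * K5 * (ex (lw h ∅ s) ({b, c} ∪ {a, d}) (fun F => Rad F s) *
        ex (lw h ∅ s) {a} (fun F => Ra F s)) := by
    refine le_of_mul_le_mul_right ?_ (mul_pos (p1 {a, b}) (p2 (insert d {a, b})))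
    calc _ = ex (lw h ∅ s) {a, b} (fun F => Ra F s) * ex (lw h ∅ s) {a, d} (fun F => Rad F s) *
          (ex (lw h ∅ s) ({b, c} ∪ {a}) (fun F => Ra F s) *
            ex (lw h ∅ s) (insert d {a, b}) (fun F => Rad F s)) := by ring
      _ ≤ _ := hm
      _ = _ := by ring
  have := mul_le_mul_of_nonneg_left key (mul_pos E1 E2).le
  calc _ = Real.exp (-(HW H {a} r - HW H {a} s)) * Real.exp (-(HW H {a, d} r - HW H {a, d} s)) *
        (ex (lw h ∅ s) ({b, c} ∪ {a}) (fun F => Ra F s) *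
      ex (lw h ∅ s) {a, d} (fun F => Rad F s)) := by ring
    _ ≤ _ := this
    _ = _ := by ring

theorem one_sub_mul_le {x y K ν : ℝ} (hx : 0 ≤ x) (hy : 0 ≤ y) (h : x ≤ K * y)
    (hK : (1 - ν) * K ≤ 1) : (1 - ν) * x ≤ y := by
  rcases le_or_gt 0 (1 - ν) with h0 | h0
  · calc (1 - ν) * x ≤ (1 - ν) * (K * y) := mul_le_mul_of_nonneg_left h h0
      _ = (1 - ν) * K * y := by ring
      _ ≤ 1 * y := mul_le_mul_of_nonneg_right hK hy
      _ = y := one_mul y
  · exact (mul_nonpos_of_nonpos_of_nonneg h0.le hx).trans hy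

end Pool.Agent.RZ.RCM
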