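import Mathlib

/-! (C) and (Ct) for the free set law (MP_73ccd0_lc, route M). -/

namespace Pool.Agent.RZ.RCM

open Set Finset

set_option linter.unusedSectionVars false

variable {V : Type*} [Fintype V] [DecidableEq V]
variable {h : ℝ → V → V → ℝ} {H : V → V → ℝ → ℝ}

/-- pair removal factors from the level 0 closure functions -/
def Wf (P : V → ℝ → ℝ) : ℝ → V → V → ℝ := fun r x y => (1 + P x r) * (1 + P y r)

/-- lower pair removal factors from the level 0 closure functions -/
def Tf (N : V → ℝ → ℝ) : ℝ → V → V → ℝ := fun r x y => (1 - N x r) * (1 - N y r)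

end Pool.Agent.RZ.RCM
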