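import Mathlib

/-! The conditions (C) and (Ct) from the ratio closures (MP_73ccd0_lc, route M). -/

namespace Pool.Agent.RZ.RCM

open Set Finset

set_option linter.unusedSectionVars false

variable {V : Type*} [Fintype V] [DecidableEq V]

variable {h : ℝ → V → V → ℝ} {H : V → V → ℝ → ℝ}
variable {U : Finset V} {t : ℝ} {W T : ℝ → V → V → ℝ} {gp gp' gm gm' : V → V → ℝ → ℝ}

theorem mem_of_le {s t r : ℝ} (hst : s ≤ t) (hr : r ∈ Icc 0 s) : r ∈ Icc 0 t :=
  ⟨hr.1, hr.2.trans hst⟩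

end Pool.Agent.RZ.RCM
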