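import Mathlib

/-! Graph lemmas for the sum bounds of the walk rates (MP_73ccd0_lc, route M). -/

namespace Pool.Agent.RZ.RCM.Gr

open Finset

variable {V : Type*} [Fintype V] [DecidableEq V]

/-- weights: symmetric, nonnegative, zero diagonal, rows at most one -/
structure Wg (x : V → V → ℝ) : Prop where
  symm : ∀ a b, x a b = x b a
  nn : ∀ a b, 0 ≤ x a b
  diag : ∀ a, x a a = 0
  row : ∀ a, ∑ b, x a b ≤ 1

/-- the side conditions `b ≠ a`, `d ≠ a`, `b ≠ d` -/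
def D3 (a b d : V) : Prop := b ≠ a ∧ d ≠ a ∧ b ≠ d

/-- the geometric mean of two expansions -/
theorem am_two {A B m : ℝ} (A0 : 0 ≤ A) (B0 : 0 ≤ B) (h : m ^ 2 ≤ A * B) :
    m ≤ 1 / 2 * A + 1 / 2 * B := by
  have h1 : m ^ 2 ≤ (1 / 2 * A + 1 / 2 * B) ^ 2 := by nlinarith [sq_nonneg (A - B)]
  exact (le_abs_self _).trans (abs_le_of_sq_le_sq h1 (by linarith))

namespace B39

/-- swap the two sums of distinct elements outside `s` -/
theorem swap1 (a : V) (F : V → V → ℝ) :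
    ∑ b ∈ ({a} : Finset V)ᶜ, ∑ d ∈ ({a, b} : Finset V)ᶜ, F b d
      = ∑ d ∈ ({a} : Finset V)ᶜ, ∑ b ∈ ({a, d} : Finset V)ᶜ, F b d := by
  apply Finset.sum_comm'
  intro b d
  simp only [Finset.mem_compl, Finset.mem_insert, Finset.mem_singleton, not_or]
  tauto

theorem swap2 (a b : V) (F : V → V → ℝ) :
    ∑ d ∈ ({a, b} : Finset V)ᶜ, ∑ e ∈ ({a, b, d} : Finset V)ᶜ, F d e
      = ∑ e ∈ ({a, b} : Finset V)ᶜ, ∑ d ∈ ({a, b, e} : Finset V)ᶜ, F d e := by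
  apply Finset.sum_comm'
  intro b d
  simp only [Finset.mem_compl, Finset.mem_insert, Finset.mem_singleton, not_or]
  tauto

omit [Fintype V] in
theorem set3 (a b d : V) : ({a, b, d} : Finset V) = {a, d, b} := by
  ext z; simp only [Finset.mem_insert, Finset.mem_singleton]; tauto

theorem swap3 (a : V) (F : V → V → V → ℝ) :
    ∑ b ∈ ({a} : Finset V)ᶜ, ∑ d ∈ ({a, b} : Finset V)ᶜ, ∑ e ∈ ({a, b, d} : Finset V)ᶜ, F b d e
      = ∑ e ∈ ({a} : Finset V)ᶜ, ∑ d ∈ ({a, e} : Finset V)ᶜ, ∑ b ∈ ({a, e, d} : Finset V)ᶜ,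
          F b d e := by
  calc _ = ∑ b ∈ ({a} : Finset V)ᶜ, ∑ e ∈ ({a, b} : Finset V)ᶜ,
            ∑ d ∈ ({a, b, e} : Finset V)ᶜ, F b d e :=
        Finset.sum_congr rfl fun b _ => swap2 a b _
    _ = ∑ e ∈ ({a} : Finset V)ᶜ, ∑ b ∈ ({a, e} : Finset V)ᶜ,
            ∑ d ∈ ({a, b, e} : Finset V)ᶜ, F b d e := swap1 a _
    _ = ∑ e ∈ ({a} : Finset V)ᶜ, ∑ b ∈ ({a, e} : Finset V)ᶜ,
            ∑ d ∈ ({a, e, b} : Finset V)ᶜ, F b d e := by
        refine Finset.sum_congr rfl fun e _ => Finset.sum_congr rfl fun b _ => ?_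
        rw [set3]
    _ = _ := Finset.sum_congr rfl fun e _ => swap2 a e (fun b d => F b d e)

theorem mem1 {a b : V} (h : b ∈ ({a} : Finset V)ᶜ) : b ≠ a := by simpa using h

theorem mem2 {a b d : V} (hb : b ∈ ({a} : Finset V)ᶜ) (h : d ∈ ({a, b} : Finset V)ᶜ) :
    D3 a b d := by
  simp only [Finset.mem_compl, Finset.mem_insert, Finset.mem_singleton, not_or] at hb h
  exact ⟨hb, h.1, fun h' => h.2 h'.symm⟩

end B39

open B39

/-- **G12**: triangles `a, b, d` -/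
theorem tri_le {x : V → V → ℝ} (hx : Wg x) {a : V} {M G : V → V → ℝ}
    (h : ∀ b d, D3 a b d → x a b * x a d * (M b d + M d b) ≤ x a b ^ 2 * G b d + x a d ^ 2 * G d b)
    : ∑ b ∈ ({a} : Finset V)ᶜ, ∑ d ∈ ({a, b} : Finset V)ᶜ, x a b * x a d * x b d * M b d
      ≤ ∑ b ∈ ({a} : Finset V)ᶜ, x a b ^ 2 * ∑ d ∈ ({a, b} : Finset V)ᶜ, x b d * G b d := by
  have s1 := swap1 a (fun b d => x a b * x a d * x b d * M b d)
  have s2 := swap1 a (fun b d => x a b ^ 2 * (x b d * G b d))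
  have key : ∑ b ∈ ({a} : Finset V)ᶜ, ∑ d ∈ ({a, b} : Finset V)ᶜ,
      (x a b * x a d * x b d * M b d + x a d * x a b * x d b * M d b)
      ≤ ∑ b ∈ ({a} : Finset V)ᶜ, ∑ d ∈ ({a, b} : Finset V)ᶜ,
        (x a b ^ 2 * (x b d * G b d) + x a d ^ 2 * (x d b * G d b)) := by
    refine Finset.sum_le_sum fun b hb => Finset.sum_le_sum fun d hd => ?_
    have h1 := mul_le_mul_of_nonneg_left (h b d (mem2 hb hd)) (hx.nn b d)
    rw [hx.symm d b]
    nlinarith [h1]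
  simp only [Finset.sum_add_distrib] at key
  simp only [Finset.mul_sum]
  rw [← s1, ← s2] at key
  linarith

end Pool.Agent.RZ.RCM.Gr
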