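import Pool.Agent.RZ.RCM.GrL

/-! The path sums of the second type with constants (MP_73ccd0_lc, route M). -/

namespace Pool.Agent.RZ.RCM.Gr

open Finset

variable {V : Type*} [Fintype V] [DecidableEq V]

theorem Wg.le_one {x : V → V → ℝ} (hx : Wg x) (c d : V) : x c d ≤ 1 :=
  (Finset.single_le_sum (f := fun f => x c f) (fun i _ => hx.nn c i) (Finset.mem_univ d)).trans
    (hx.row c)

theorem Wg.two_le {x : V → V → ℝ} (hx : Wg x) {a b d : V} (hbd : b ≠ d) :
    x a b + x a d ≤ 1 := by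
  have : ∑ c ∈ ({b, d} : Finset V), x a c ≤ ∑ c, x a c :=
    Finset.sum_le_sum_of_subset_of_nonneg (Finset.subset_univ _) fun c _ _ => hx.nn a c
  rw [Finset.sum_pair hbd] at this
  linarith [hx.row a]

theorem Wg.row2 {x : V → V → ℝ} (hx : Wg x) {a b : V} (hab : a ≠ b) :
    ∑ e ∈ ({a, b} : Finset V)ᶜ, x b e ≤ 1 - x a b := by
  have h4 := Finset.sum_add_sum_compl ({a, b} : Finset V) (fun e => x b e)
  rw [Finset.sum_pair hab, hx.diag b, add_zero] at h4
  have h6 := hx.row b
  rw [hx.symm a b]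
  linarith

end Pool.Agent.RZ.RCM.Gr
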