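import Pool.Agent.RZ.RCM.GrT

/-! The factors of the common neighbours (MP_73ccd0_lc, route M). -/

namespace Pool.Agent.RZ.RCM.Gr

open Finset

variable {V : Type*} [Fintype V] [DecidableEq V]

/-- common neighbours of `a` and `b` -/
noncomputable def chi (y : V → V → ℝ) (a b : V) : ℝ :=
  ∑ e ∈ ({a, b} : Finset V)ᶜ, y b e * y a e

/-- the factor of the mass of the fluxes -/
noncomputable def mfac (y : V → V → ℝ) (t : ℝ) (a b : V) : ℝ := (1 - y a b) + t * chi y a b

variable {y : V → V → ℝ}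

theorem chi_nonneg (hy : Wg y) (a b : V) : 0 ≤ chi y a b :=
  Finset.sum_nonneg fun e _ => mul_nonneg (hy.nn b e) (hy.nn a e)

theorem mfac_nonneg (hy : Wg y) {a b : V} {t : ℝ} (ht : 0 ≤ t) : 0 ≤ mfac y t a b :=
  add_nonneg (sub_nonneg.2 (hy.le_one a b)) (mul_nonneg ht (chi_nonneg hy a b))

end Pool.Agent.RZ.RCM.Gr
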