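import Pool.Agent.RZ.RCM.Half

/-! (C) and (Ct) from the closures in the deleted form (MP_73ccd0_lc, route M). -/

namespace Pool.Agent.RZ.RCM

open Set Finset

set_option linter.unusedSectionVars false

variable {V : Type*} [Fintype V] [DecidableEq V]
variable {h : ℝ → V → V → ℝ} {H : V → V → ℝ → ℝ}

/-- insertion function of `e` for the target `c` on the set `X` -/
structure Ipt (h : ℝ → V → V → ℝ) (X : Finset V) (c e : V) (t : ℝ) (W : ℝ → V → V → ℝ)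
    (pt pt' : ℝ → ℝ) : Prop where
  d : ∀ r ∈ Icc 0 t, HasDerivAt pt (pt' r) r
  p0 : ∀ r ∈ Icc 0 t, 0 ≤ pt r
  p1 : ∀ r ∈ Icc 0 t, pt r < 1
  o : ∀ r ∈ Icc 0 t, -pt' r ≤ h r c e - (h r c e + ∑ b ∈ X.erase e, h r e b * W r e b) * pt r

theorem Lv0.sub {U X : Finset V} (hXU : X ⊆ U) {s : ℝ} {Φ : Finset V → ℝ → ℝ}
    {W T : ℝ → V → V → ℝ} (h00 : Lv0 U s Φ W T) : Lv0 X s Φ W T :=
  ⟨fun F hF => h00.up F (hF.trans hXU), fun F hF => h00.low F (hF.trans hXU), h00.W0⟩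

section

end

end Pool.Agent.RZ.RCM
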