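import Pool.Agent.RZ.RCG.Ctx
import Pool.Agent.RZ.RCM.Cond
import Pool.Agent.RZ.RCM.Glue
import Pool.Agent.RZ.RCM.VCond

/-! Insertion functions in both phases and the contribution of the direct pair
(MP_73ccd0_lc, route M). -/

namespace Pool.Agent.RZ.RCM

open Set Finset Pool.Agent.RZ.RCRSHalf Pool.Agent.RZ.RCG MeasureTheory

set_option linter.unusedSectionVars false

variable {V : Type*} [Fintype V] [DecidableEq V]
variable {h : ℝ → V → V → ℝ} {H : V → V → ℝ → ℝ}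

/-- the explicit insertion function -/
theorem ins_fun (hh : Haz h H) (c d : V) {τ : ℝ} (hτ : 0 ≤ τ) {R : ℝ → ℝ}
    (cR : ContinuousOn R (Icc 0 τ)) (R0 : ∀ r ∈ Icc 0 τ, 0 ≤ R r) :
    ∃ p p' : ℝ → ℝ, (∀ r ∈ Icc 0 τ, HasDerivAt p (p' r) r) ∧ (∀ r ∈ Icc 0 τ, 0 ≤ p r) ∧
      (∀ r ∈ Icc 0 τ, p r < 1) ∧ (∀ r ∈ Icc 0 τ, -p' r = h r c d - (h r c d + R r) * p r) ∧
      p τ = 0 ∧
      p 0 = ∫ r in (0 : ℝ)..τ, h r c d * Real.exp (-(H c d r + ∫ ρ in (0 : ℝ)..r, R ρ)) := by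
  set Re : ℝ → ℝ := fun r => R (max 0 (min r τ)) with hRe
  have hmem : ∀ r, max 0 (min r τ) ∈ Icc 0 τ := fun r =>
    ⟨le_max_left _ _, max_le hτ (min_le_right _ _)⟩
  have heq : ∀ r ∈ Icc 0 τ, max 0 (min r τ) = r := fun r hr => by
    rw [min_eq_left hr.2, max_eq_right hr.1]
  have cRe : Continuous Re := cR.comp_continuous (by fun_prop) hmem
  have Re0 : ∀ r, 0 ≤ Re r := fun r => R0 _ (hmem r)
  set S : ℝ → ℝ := fun r => ∫ ρ in (0 : ℝ)..r, Re ρ with hS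
  have dS : ∀ r, HasDerivAt S (Re r) r := fun r =>
    (cRe.integral_hasStrictDerivAt 0 r).hasDerivAt
  set G : ℝ → ℝ := fun r => H c d r + S r with hG
  have dG : ∀ r, HasDerivAt G (h r c d + Re r) r := fun r => (hh.Hd c d r).add (dS r)
  have cG : Continuous G := continuous_iff_continuousAt.2 fun r => (dG r).continuousAt
  set K : ℝ → ℝ := fun r => h r c d * Real.exp (-G r) with hK
  have cK : Continuous K := (hh.cont c d).mul (Real.continuous_exp.comp cG.neg)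
  have K0 : ∀ r, 0 ≤ K r := fun r => mul_nonneg (hh.nonneg _ _ _) (Real.exp_pos _).le
  have dK : ∀ r, HasDerivAt (fun r => ∫ ρ in (0 : ℝ)..r, K ρ) (K r) r := fun r =>
    (cK.integral_hasStrictDerivAt 0 r).hasDerivAt
  have iK : ∀ a b, IntervalIntegrable K volume a b := fun a b => cK.intervalIntegrable a b
  have hsub : ∀ r, (∫ ρ in (0 : ℝ)..τ, K ρ) - ∫ ρ in (0 : ℝ)..r, K ρ = ∫ ρ in r..τ, K ρ :=
    fun r => intervalIntegral.integral_interval_sub_left (iK _ _) (iK _ _)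
  have G0 : G 0 = 0 := by
    show H c d 0 + ∫ ρ in (0 : ℝ)..0, Re ρ = 0
    rw [hh.H0, intervalIntegral.integral_same, add_zero]
  refine ⟨fun r => Real.exp (G r) * ((∫ ρ in (0 : ℝ)..τ, K ρ) - ∫ ρ in (0 : ℝ)..r, K ρ),
    fun r => Real.exp (G r) * (h r c d + Re r) * ((∫ ρ in (0 : ℝ)..τ, K ρ)
      - ∫ ρ in (0 : ℝ)..r, K ρ) + Real.exp (G r) * (-K r), fun r _ => ?_, fun r hr => ?_,
    fun r hr => ?_, fun r hr => ?_, ?_, ?_⟩
  · exact (dG r).exp.mul ((dK r).const_sub _)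
  · beta_reduce
    rw [hsub]
    exact mul_nonneg (Real.exp_pos _).le
      (intervalIntegral.integral_nonneg hr.2 fun ρ _ => K0 ρ)
  · beta_reduce
    rw [hsub]
    have h1 : ∫ ρ in r..τ, K ρ ≤ ∫ ρ in r..τ, (h ρ c d + Re ρ) * Real.exp (-G ρ) := by
      refine intervalIntegral.integral_mono_on hr.2 (iK _ _)
        ((((hh.cont c d).add cRe).mul (Real.continuous_exp.comp cG.neg)).intervalIntegrable _ _)
        fun ρ _ => ?_
      exact mul_le_mul_of_nonneg_right (by linarith [Re0 ρ]) (Real.exp_pos _).le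
    have h2 : ∫ ρ in r..τ, (h ρ c d + Re ρ) * Real.exp (-G ρ)
        = Real.exp (-G r) - Real.exp (-G τ) := by
      rw [intervalIntegral.integral_eq_sub_of_hasDerivAt (f := fun ρ => -Real.exp (-G ρ))]
      · ring
      · intro ρ _
        have := (dG ρ).neg.exp.neg
        refine this.congr_deriv ?_
        simp only [Pi.neg_apply]
        ring
      · exact ((((hh.cont c d).add cRe).mul
          (Real.continuous_exp.comp cG.neg)).intervalIntegrable _ _)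
    have h3 : Real.exp (G r) * Real.exp (-G r) = 1 := by rw [← Real.exp_add]; simp
    have h4 : 0 < Real.exp (G r) * Real.exp (-G τ) := mul_pos (Real.exp_pos _) (Real.exp_pos _)
    have h5 := mul_le_mul_of_nonneg_left (h1.trans h2.le) (Real.exp_pos (G r)).le
    rw [mul_sub, h3] at h5
    linarith
  · have h3 : Real.exp (G r) * K r = h r c d := by
      show Real.exp (G r) * (h r c d * Real.exp (-G r)) = h r c d
      have : Real.exp (G r) * Real.exp (-G r) = 1 := by rw [← Real.exp_add]; simp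
      linear_combination h r c d * this
    have h4 : Re r = R r := by show R _ = _; rw [heq r hr]
    beta_reduce
    rw [mul_neg, h3, h4]
    ring
  · beta_reduce
    rw [sub_self, mul_zero]
  · beta_reduce
    rw [G0, Real.exp_zero, intervalIntegral.integral_same, sub_zero, one_mul]
    refine intervalIntegral.integral_congr fun r hr => ?_
    rw [uIcc_of_le hτ] at hr
    show h r c d * Real.exp (-(H c d r + ∫ ρ in (0 : ℝ)..r, Re ρ)) = _
    have : ∫ ρ in (0 : ℝ)..r, Re ρ = ∫ ρ in (0 : ℝ)..r, R ρ := by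
      refine intervalIntegral.integral_congr fun ρ hρ => ?_
      rw [uIcc_of_le hr.1] at hρ
      show R _ = _
      rw [heq ρ ⟨hρ.1, hρ.2.trans hr.2⟩]
    rw [this]

/-- **existence of the insertion functions in both phases** -/
theorem ins_exists (hh : Haz h H) {c d : V} {U : Finset V} {s t : ℝ}
    (hs : s ∈ Icc 0 t) {Pa P : V → ℝ → ℝ} {Rc Rd : ℝ → ℝ}
    (cRc : ContinuousOn Rc (Icc 0 s)) (cRd : ContinuousOn Rd (Icc 0 t))
    (Rc0 : ∀ r ∈ Icc 0 s, 0 ≤ Rc r) (Rd0 : ∀ r ∈ Icc 0 t, 0 ≤ Rd r)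
    (hRa : ∀ r ∈ Icc 0 t, ∑ b ∈ (U.erase c).erase d, h r d b * Wf Pa r d b ≤ Rd r)
    (hRd : ∀ r ∈ Icc 0 s, ∑ b ∈ (U.erase c).erase d, h r d b * Wf P r d b ≤ Rd r)
    (hRc : ∀ r ∈ Icc 0 s, ∑ b ∈ (U.erase d).erase c, h r c b * Wf P r c b ≤ Rc r) :
    ∃ ptca ptca' ptc ptc' ptd ptd' : ℝ → ℝ,
      Ipt h (U.erase c) c d t (Wf Pa) ptca ptca' ∧ ptca t = 0 ∧
      Ipt h (U.erase c) c d s (Wf P) ptc ptc' ∧ ptc s ≤ ptca s ∧
      Ipt h (U.erase d) d c s (Wf P) ptd ptd' ∧ ptd s = 0 ∧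
      ptc 0 = ∫ r in (0 : ℝ)..t, h r c d * Real.exp (-(H c d r + ∫ ρ in (0 : ℝ)..r, Rd ρ)) ∧
      ptd 0 = ∫ r in (0 : ℝ)..s, h r c d * Real.exp (-(H c d r + ∫ ρ in (0 : ℝ)..r, Rc ρ)) := by
  obtain ⟨p, p', dp, p0, p1, op, pt, p00⟩ := ins_fun hh c d (hs.1.trans hs.2) cRd Rd0
  obtain ⟨q, q', dq, q0, q1, oq, qs, q00⟩ := ins_fun hh c d hs.1 cRc Rc0
  have m : ∀ r ∈ Icc 0 s, r ∈ Icc 0 t := fun r hr => mem_of_le hs.2 hr
  refine ⟨p, p', p, p', q, q', ⟨dp, p0, p1, fun r hr => ?_⟩, pt,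
    ⟨fun r hr => dp r (m r hr), fun r hr => p0 r (m r hr), fun r hr => p1 r (m r hr),
      fun r hr => ?_⟩, le_rfl, ⟨dq, q0, q1, fun r hr => ?_⟩, qs, p00, q00⟩
  · rw [op r hr]
    have := mul_le_mul_of_nonneg_right (hRa r hr) (p0 r hr)
    rw [add_mul, add_mul]
    linarith
  · rw [op r (m r hr)]
    have := mul_le_mul_of_nonneg_right (hRd r hr) (p0 r (m r hr))
    rw [add_mul, add_mul]
    linarith
  · rw [oq r hr, hh.symm r d c]
    have := mul_le_mul_of_nonneg_right (hRc r hr) (q0 r hr)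
    rw [add_mul, add_mul]
    linarith

/-- **the contribution of the direct pair** -/
theorem ins_bound (hh : Haz h H) {c d : V} {s t : ℝ} (hs : s ∈ Icc 0 t) {Rc Rd : ℝ → ℝ}
    (cRc : ContinuousOn Rc (Icc 0 s)) (cRd : ContinuousOn Rd (Icc 0 t))
    {pc pd n1 n2 : ℝ}
    (hpc : pc = ∫ r in (0 : ℝ)..t, h r c d * Real.exp (-(H c d r + ∫ ρ in (0 : ℝ)..r, Rd ρ)))
    (hpd : pd = ∫ r in (0 : ℝ)..s, h r c d * Real.exp (-(H c d r + ∫ ρ in (0 : ℝ)..r, Rc ρ)))
    {hb Hb Sc Sd : ℝ → ℝ} {N1 N2 : ℝ} (hN1 : n1 ≤ N1) (hN2 : n2 ≤ N2)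
    (chb : ContinuousOn hb (Icc 0 s)) (cHb : ContinuousOn Hb (Icc 0 s))
    (cSc : ContinuousOn Sc (Icc 0 s)) (cSd : ContinuousOn Sd (Icc 0 s))
    (hhb : ∀ r ∈ Icc 0 s, h r c d ≤ hb r) (hHb : ∀ r ∈ Icc 0 s, H c d r ≤ Hb r)
    (hSc : ∀ r ∈ Icc 0 s, ∫ ρ in (0 : ℝ)..r, Rc ρ ≤ Sc r)
    (hSd : ∀ r ∈ Icc 0 s, ∫ ρ in (0 : ℝ)..r, Rd ρ ≤ Sd r) :
    H c d s - pc * Real.exp (-n1) - pd * Real.exp (-n2)
      ≤ ∫ r in (0 : ℝ)..s, hb r * max 0 (1 - Real.exp (-(N1 + Hb r + Sd r))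
        - Real.exp (-(N2 + Hb r + Sc r))) := by
  have h0t : 0 ≤ t := hs.1.trans hs.2
  -- continuity of the integrands
  have prim : ∀ {R : ℝ → ℝ} {τ : ℝ}, 0 ≤ τ → ContinuousOn R (Icc 0 τ) →
      ContinuousOn (fun r => ∫ ρ in (0 : ℝ)..r, R ρ) (Icc 0 τ) := by
    intro R τ hτ cR
    have := intervalIntegral.continuousOn_primitive_interval (μ := volume) (a := (0 : ℝ))
      (b := τ) (f := R) (by rw [uIcc_of_le hτ]; exact cR.integrableOn_Icc)
    rwa [uIcc_of_le hτ] at this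
  have cH : Continuous (H c d) := continuous_iff_continuousAt.2 fun r => (hh.Hd c d r).continuousAt
  have cE : ∀ {R : ℝ → ℝ} {τ : ℝ}, 0 ≤ τ → ContinuousOn R (Icc 0 τ) →
      ContinuousOn (fun r => h r c d * Real.exp (-(H c d r + ∫ ρ in (0 : ℝ)..r, R ρ)))
        (Icc 0 τ) := fun {R τ} hτ cR =>
    (hh.cont c d).continuousOn.mul
      (Real.continuous_exp.comp_continuousOn ((cH.continuousOn.add (prim hτ cR)).neg))
  have hE0 : ∀ (R : ℝ → ℝ) r, 0 ≤ h r c d * Real.exp (-(H c d r + ∫ ρ in (0 : ℝ)..r, R ρ)) :=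
    fun R r => mul_nonneg (hh.nonneg _ _ _) (Real.exp_pos _).le
  have ii : ∀ {f : ℝ → ℝ} {a b τ : ℝ}, ContinuousOn f (Icc 0 τ) → 0 ≤ a → a ≤ b → b ≤ τ →
      IntervalIntegrable f volume a b := fun {f a b τ} hf ha hab hb =>
    (hf.mono (by rw [uIcc_of_le hab]; exact Icc_subset_Icc ha hb)).intervalIntegrable
  set fd : ℝ → ℝ := fun r => h r c d * Real.exp (-(H c d r + ∫ ρ in (0 : ℝ)..r, Rd ρ)) with hfd
  set fc : ℝ → ℝ := fun r => h r c d * Real.exp (-(H c d r + ∫ ρ in (0 : ℝ)..r, Rc ρ)) with hfc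
  have cfd : ContinuousOn fd (Icc 0 t) := cE h0t cRd
  have cfc : ContinuousOn fc (Icc 0 s) := cE hs.1 cRc
  have e1 : ∫ r in (0 : ℝ)..s, fd r ≤ pc := by
    rw [hpc, ← intervalIntegral.integral_add_adjacent_intervals (ii cfd le_rfl hs.1 hs.2)
      (ii cfd hs.1 hs.2 le_rfl)]
    have := intervalIntegral.integral_nonneg (μ := volume) hs.2 fun r _ => hE0 Rd r
    linarith
  have e2 : H c d s = ∫ r in (0 : ℝ)..s, h r c d := by
    rw [intervalIntegral.integral_eq_sub_of_hasDerivAt (f := H c d) (fun r _ => hh.Hd c d r)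
      ((hh.cont c d).intervalIntegrable _ _), hh.H0, sub_zero]
  have e3 : (∫ r in (0 : ℝ)..s, fd r) * Real.exp (-n1) ≤ pc * Real.exp (-n1) :=
    mul_le_mul_of_nonneg_right e1 (Real.exp_pos _).le
  have i1 : IntervalIntegrable fd volume 0 s := ii cfd le_rfl hs.1 hs.2
  have i2 : IntervalIntegrable fc volume 0 s := ii cfc le_rfl hs.1 le_rfl
  have ih : IntervalIntegrable (fun r => h r c d) volume 0 s :=
    (hh.cont c d).intervalIntegrable _ _
  have e4 : H c d s - pc * Real.exp (-n1) - pd * Real.exp (-n2)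
      ≤ ∫ r in (0 : ℝ)..s, (h r c d - fd r * Real.exp (-n1) - fc r * Real.exp (-n2)) := by
    rw [intervalIntegral.integral_sub (ih.sub (i1.mul_const _)) (i2.mul_const _),
      intervalIntegral.integral_sub ih (i1.mul_const _), intervalIntegral.integral_mul_const,
      intervalIntegral.integral_mul_const, ← e2, hpd]
    linarith
  refine e4.trans ?_
  refine intervalIntegral.integral_mono_on hs.1 ((ih.sub (i1.mul_const _)).sub (i2.mul_const _))
    (ii (chb.mul (continuousOn_const.sup (((continuousOn_const.sub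
      (Real.continuous_exp.comp_continuousOn (((continuousOn_const.add cHb).add cSd).neg))).sub
      (Real.continuous_exp.comp_continuousOn (((continuousOn_const.add cHb).add cSc).neg))))))
      le_rfl hs.1 le_rfl) fun r hr => ?_
  have a1 : Real.exp (-(N1 + Hb r + Sd r))
      ≤ Real.exp (-(H c d r + ∫ ρ in (0 : ℝ)..r, Rd ρ)) * Real.exp (-n1) := by
    rw [← Real.exp_add, Real.exp_le_exp]
    linarith [hHb r hr, hSd r hr]
  have a2 : Real.exp (-(N2 + Hb r + Sc r))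
      ≤ Real.exp (-(H c d r + ∫ ρ in (0 : ℝ)..r, Rc ρ)) * Real.exp (-n2) := by
    rw [← Real.exp_add, Real.exp_le_exp]
    linarith [hHb r hr, hSc r hr]
  have hn := hh.nonneg r c d
  have hle := hhb r hr
  have e5 : h r c d - fd r * Real.exp (-n1) - fc r * Real.exp (-n2)
      = h r c d * (1 - Real.exp (-(H c d r + ∫ ρ in (0 : ℝ)..r, Rd ρ)) * Real.exp (-n1)
        - Real.exp (-(H c d r + ∫ ρ in (0 : ℝ)..r, Rc ρ)) * Real.exp (-n2)) := by
    rw [hfd, hfc]; ring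
  rw [e5]
  calc _ ≤ h r c d * max 0 (1 - Real.exp (-(N1 + Hb r + Sd r))
        - Real.exp (-(N2 + Hb r + Sc r))) :=
        mul_le_mul_of_nonneg_left (le_max_of_le_right (by linarith)) hn
    _ ≤ _ := mul_le_mul_of_nonneg_right hle (le_max_left _ _)

end Pool.Agent.RZ.RCM
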