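import Mathlib

/-! The concavity of the closure error pays for the amplification (MP_73ccd0_lc, route M). -/

namespace Pool.Agent.RZ.RCM.Jen

open Set

/-- a function with nonnegative derivative on the half line -/
theorem nonneg_of_deriv {f f' : ℝ → ℝ} (h0 : 0 ≤ f 0) (hd : ∀ x, HasDerivAt f (f' x) x)
    (hp : ∀ x, 0 ≤ x → 0 ≤ f' x) {x : ℝ} (hx : 0 ≤ x) : 0 ≤ f x := by
  have hm : MonotoneOn f (Ici 0) := by
    refine monotoneOn_of_deriv_nonneg (convex_Ici 0)
      (fun x _ => (hd x).continuousAt.continuousWithinAt)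
      (fun x _ => (hd x).differentiableAt.differentiableWithinAt) fun x hx => ?_
    rw [interior_Ici] at hx
    rw [(hd x).deriv]
    exact hp x (mem_Ioi.1 hx).le
  exact h0.trans (hm (mem_Ici.2 le_rfl) (mem_Ici.2 hx) hx)

/-- `3 sinh x ≤ x (2 + cosh x)` -/
theorem sinh_le {x : ℝ} (hx : 0 ≤ x) : 3 * Real.sinh x ≤ x * (2 + Real.cosh x) := by
  have d1 : ∀ x : ℝ, HasDerivAt (fun x => x * Real.cosh x - Real.sinh x) (x * Real.sinh x) x := by
    intro x
    have := ((hasDerivAt_id x).mul (Real.hasDerivAt_cosh x)).sub (Real.hasDerivAt_sinh x)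
    refine this.congr_deriv ?_
    simp
  have k1 : ∀ x : ℝ, 0 ≤ x → 0 ≤ x * Real.cosh x - Real.sinh x := fun x hx =>
    nonneg_of_deriv (by simp) d1 (fun y hy => mul_nonneg hy (Real.sinh_nonneg_iff.2 hy)) hx
  have d2 : ∀ x : ℝ, HasDerivAt (fun x => 2 - 2 * Real.cosh x + x * Real.sinh x)
      (x * Real.cosh x - Real.sinh x) x := by
    intro x
    have := (((hasDerivAt_const x (2 : ℝ)).sub ((Real.hasDerivAt_cosh x).const_mul 2))).add
      ((hasDerivAt_id x).mul (Real.hasDerivAt_sinh x))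
    refine this.congr_deriv ?_
    simp
    ring
  have k2 : ∀ x : ℝ, 0 ≤ x → 0 ≤ 2 - 2 * Real.cosh x + x * Real.sinh x := fun x hx =>
    nonneg_of_deriv (by simp) d2 k1 hx
  have d3 : ∀ x : ℝ, HasDerivAt (fun x => x * (2 + Real.cosh x) - 3 * Real.sinh x)
      (2 - 2 * Real.cosh x + x * Real.sinh x) x := by
    intro x
    have := ((hasDerivAt_id x).mul ((Real.hasDerivAt_cosh x).const_add 2)).sub
      ((Real.hasDerivAt_sinh x).const_mul 3)
    refine this.congr_deriv ?_
    simp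
    ring
  have := nonneg_of_deriv (by simp) d3 k2 hx
  linarith

/-- the Padé bound of the logarithm -/
theorem pade {x : ℝ} (hx : 0 ≤ x) :
    3 * (1 - Real.exp (-x) ^ 2) ≤ x * (1 + 4 * Real.exp (-x) + Real.exp (-x) ^ 2) := by
  have h := sinh_le hx
  rw [Real.sinh_eq, Real.cosh_eq] at h
  have e0 := Real.exp_pos (-x)
  have e1 : Real.exp x * Real.exp (-x) = 1 := by rw [← Real.exp_add]; simp
  have h2 := mul_le_mul_of_nonneg_right h e0.le
  have l : 3 * ((Real.exp x - Real.exp (-x)) / 2) * Real.exp (-x)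
      = 3 / 2 * (Real.exp x * Real.exp (-x) - Real.exp (-x) ^ 2) := by ring
  have r : x * (2 + (Real.exp x + Real.exp (-x)) / 2) * Real.exp (-x)
      = x / 2 * (4 * Real.exp (-x) + Real.exp x * Real.exp (-x) + Real.exp (-x) ^ 2) := by ring
  rw [l, r, e1] at h2
  nlinarith

/-- the tangent lines of `1 - e^{-l}` -/
theorem nu_tangent (l l0 : ℝ) :
    1 - Real.exp (-l) ≤ 1 - Real.exp (-l0) + Real.exp (-l0) * (l - l0) := by
  have h := Real.add_one_le_exp (l0 - l)
  have e : Real.exp (-l) = Real.exp (-l0) * Real.exp (l0 - l) := by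
    rw [← Real.exp_add]; congr 1; ring
  rw [e]
  nlinarith [Real.exp_pos (-l0)]

theorem tangent_coef {l : ℝ} : 0 ≤ 1 - Real.exp (-l) - Real.exp (-l) * l := by
  have h := Real.add_one_le_exp l
  have e1 : Real.exp l * Real.exp (-l) = 1 := by rw [← Real.exp_add]; simp
  nlinarith [Real.exp_pos (-l)]

end Pool.Agent.RZ.RCM.Jen
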