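import Pool.Agent.RZ.RCM.LevZ

/-! Level 0 with different horizons for the vertices of the base set (MP_73ccd0_lc, route M). -/

namespace Pool.Agent.RZ.RCM

open Set Finset

set_option linter.unusedSectionVars false

variable {V : Type*} [Fintype V] [DecidableEq V]
variable {h : ℝ → V → V → ℝ} {H : V → V → ℝ → ℝ}

/-- the row bound for one vertex in the base set -/
theorem row_one {x : V → V → ℝ} (hx : Wt x) {a : V} {U : Finset V} (haU : a ∉ U) {θ Y : ℝ}
    (Y0 : 0 ≤ Y) (hY : Y ≤ θ) (hθ : θ - Y ≤ 2) (v : V) (hv : v ∈ U) :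
    ∑ b ∈ U, x v b * (Real.exp (∑ w ∈ ({a} : Finset V), x w b * θ + (1 - kx x {a} b) * Y) - 1)
      ≤ Real.exp (θ / 2 + Y / 2) - 1 := by
  have hs : ∑ b ∈ U, x v b + x v a ≤ 1 := by
    have h1 := hx.row v
    have h2 : ∑ b ∈ insert a U, x v b ≤ ∑ b, x v b :=
      Finset.sum_le_sum_of_subset_of_nonneg (Finset.subset_univ _) fun b _ _ => hx.nn v b
    rw [Finset.sum_insert haU] at h2
    linarith
  have ha : ∑ b ∈ U, x a b ≤ 1 :=
    (Finset.sum_le_sum_of_subset_of_nonneg (Finset.subset_univ _) fun b _ _ => hx.nn a b).trans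
      (hx.row a)
  have hp : ∀ b ∈ U, x v b + x a b ≤ 1 := fun b hb => by
    have h1 := hx.row b
    have hav : a ≠ v := fun e => haU (e ▸ hv)
    have h2 : x b v + x b a ≤ ∑ z, x b z := by
      have : ∑ z ∈ ({v, a} : Finset V), x b z ≤ ∑ z, x b z :=
        Finset.sum_le_sum_of_subset_of_nonneg (Finset.subset_univ _) fun z _ _ => hx.nn b z
      rwa [Finset.sum_pair hav.symm] at this
    rw [hx.symm v b, hx.symm a b]; linarith
  have key := exp_row U (c := 1 / 2) (δ := θ - Y) (x := fun b => x v b) (k := fun b => x a b)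
    (by norm_num) (by linarith) (by linarith) (fun b _ => hx.nn v b) (fun b _ => hx.nn a b)
    hp (by linarith [hx.nn v a]) (by linarith)
  have e1 : ∀ b, Real.exp (∑ w ∈ ({a} : Finset V), x w b * θ + (1 - kx x {a} b) * Y)
      = Real.exp Y * Real.exp (x a b * (θ - Y)) := fun b => by
    rw [← Real.exp_add, kx, Finset.sum_singleton, Finset.sum_singleton]
    congr 1; ring
  have e2 : Real.exp (θ / 2 + Y / 2) = Real.exp Y * Real.exp ((1 - 1 / 2) * (θ - Y)) := by
    rw [← Real.exp_add]; congr 1; ring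
  have e3 : ∑ b ∈ U, x v b * (Real.exp (∑ w ∈ ({a} : Finset V), x w b * θ
        + (1 - kx x {a} b) * Y) - 1)
      = Real.exp Y * (∑ b ∈ U, x v b * Real.exp (x a b * (θ - Y))) - ∑ b ∈ U, x v b := by
    rw [Finset.mul_sum, ← Finset.sum_sub_distrib]
    exact Finset.sum_congr rfl fun b _ => by rw [e1]; ring
  have e4 := Real.one_le_exp Y0
  have e5 := mul_le_mul_of_nonneg_left key (Real.exp_pos Y).le
  have hX : 0 ≤ 1 - ∑ b ∈ U, x v b := by linarith [hx.nn v a]
  rw [e3, e2]
  nlinarith [mul_nonneg (sub_nonneg.2 e4) hX]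

end Pool.Agent.RZ.RCM
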