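import Mathlib

/-! Monotonicity of the systems in the majorants, backward primitives
(MP_73ccd0_lc, route M). -/

namespace Pool.Agent.RZ.RCM

open Set Finset MeasureTheory

set_option linter.unusedSectionVars false

variable {V : Type*} [Fintype V] [DecidableEq V]

/-- the backward primitive with the integrand frozen outside `[0, t]` -/
noncomputable def bk (f : ℝ → ℝ) (t r : ℝ) : ℝ := ∫ z in r..t, f (max 0 (min z t))

theorem bk_self (f : ℝ → ℝ) (t : ℝ) : bk f t t = 0 := by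
  unfold bk
  exact intervalIntegral.integral_same

theorem clamp_mem {t : ℝ} (ht : 0 ≤ t) (r : ℝ) : max 0 (min r t) ∈ Icc 0 t :=
  ⟨le_max_left _ _, max_le ht (min_le_right _ _)⟩

theorem clamp_eq {t r : ℝ} (hr : r ∈ Icc 0 t) : max 0 (min r t) = r := by
  rw [min_eq_left hr.2, max_eq_right hr.1]

theorem bk_cont {f : ℝ → ℝ} {t : ℝ} (ht : 0 ≤ t) (hf : ContinuousOn f (Icc 0 t)) :
    Continuous fun z => f (max 0 (min z t)) :=
  hf.comp_continuous (by fun_prop) (clamp_mem ht)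

theorem bk_deriv {f : ℝ → ℝ} {t : ℝ} (ht : 0 ≤ t) (hf : ContinuousOn f (Icc 0 t)) {r : ℝ}
    (hr : r ∈ Icc 0 t) : HasDerivAt (bk f t) (-f r) r := by
  have hc := bk_cont ht hf
  have h1 := intervalIntegral.integral_hasDerivAt_left (hc.intervalIntegrable r t)
    (hc.stronglyMeasurableAtFilter _ _) hc.continuousAt
  rw [clamp_eq hr] at h1
  exact h1

theorem bk_eq {f : ℝ → ℝ} {t r : ℝ} (hr : r ∈ Icc 0 t) : bk f t r = ∫ z in r..t, f z := by
  unfold bk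
  refine intervalIntegral.integral_congr fun z hz => ?_
  rw [uIcc_of_le hr.2] at hz
  show f _ = f z
  rw [clamp_eq ⟨hr.1.trans hz.1, hz.2⟩]

theorem bk_nonneg {f : ℝ → ℝ} {t r : ℝ} (hr : r ∈ Icc 0 t) (f0 : ∀ z ∈ Icc 0 t, 0 ≤ f z) :
    0 ≤ bk f t r := by
  rw [bk_eq hr]
  exact intervalIntegral.integral_nonneg hr.2 fun z hz => f0 z ⟨hr.1.trans hz.1, hz.2⟩

/-- monotonicity in the integrand and the horizon -/
theorem bk_le {f g : ℝ → ℝ} {t τ r : ℝ} (hr : r ∈ Icc 0 t) (hτ : t ≤ τ)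
    (cf : ContinuousOn f (Icc 0 t)) (cg : ContinuousOn g (Icc 0 τ))
    (hfg : ∀ z ∈ Icc 0 t, f z ≤ g z) (g0 : ∀ z ∈ Icc 0 τ, 0 ≤ g z) :
    bk f t r ≤ bk g τ r := by
  have h0t : 0 ≤ t := hr.1.trans hr.2
  rw [bk_eq hr, bk_eq ⟨hr.1, hr.2.trans hτ⟩]
  have ii : ∀ {f : ℝ → ℝ} {a b c : ℝ}, ContinuousOn f (Icc 0 c) → 0 ≤ a → a ≤ b → b ≤ c →
      IntervalIntegrable f volume a b := fun {f a b c} hf ha hab hb =>
    (hf.mono (by rw [uIcc_of_le hab]; exact Icc_subset_Icc ha hb)).intervalIntegrable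
  rw [← intervalIntegral.integral_add_adjacent_intervals (ii cg hr.1 hr.2 hτ)
    (ii cg h0t hτ le_rfl)]
  have h1 := intervalIntegral.integral_mono_on hr.2 (ii cf hr.1 hr.2 le_rfl)
    (ii cg hr.1 hr.2 hτ) fun z hz => hfg z ⟨hr.1.trans hz.1, hz.2⟩
  have h2 : 0 ≤ ∫ z in t..τ, g z := intervalIntegral.integral_nonneg hτ fun z hz =>
    g0 z ⟨h0t.trans hz.1, hz.2⟩
  linarith

end Pool.Agent.RZ.RCM
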