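import Pool.Agent.RZ.RCM.LevZ
import Pool.Agent.RZ.RCM.MonoB
import Pool.Agent.RZ.RCRSHalf.Ode

/-! The world of the removed set `D` (the part `A` with the time `t`, the rest with the time `s`)
with vector valued functions of level 0 (MP_73ccd0_lc, route M). -/

namespace Pool.Agent.RZ.RCM

open Set Finset MeasureTheory Pool.Agent.RZ.RCRSHalf

set_option linter.unusedSectionVars false

variable {V : Type*} [Fintype V] [DecidableEq V]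

/-- the scalar exponent -/
noncomputable def yhat (x : V → V → ℝ) (D : Finset V) (θ : V → ℝ → ℝ) (Y : ℝ → ℝ) (e : V)
    (r : ℝ) : ℝ := ∑ w ∈ D, x w e * θ w r + (1 - ∑ w ∈ D, x w e) * Y r

/-- the lower functions of level 0 from exponents -/
noncomputable def nv (hb : ℝ → V → V → ℝ) (U : Finset V) (y : V → ℝ → ℝ) (t : ℝ) (e : V) :
    ℝ → ℝ := bk (fun ρ => ∑ f ∈ U, hb ρ e f * (Real.exp (y f ρ) - 1)) t

/-- the exponents of level 0 from lower functions, without the clocks -/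
noncomputable def yv (hb : ℝ → V → V → ℝ) (U : Finset V) (N : V → ℝ → ℝ) (t : ℝ) (e : V) :
    ℝ → ℝ := bk (fun ρ => ∑ f ∈ U, hb ρ e f * N f ρ) t

/-- the vector exponent -/
noncomputable def yx (hb : ℝ → V → V → ℝ) (x : V → V → ℝ) (D : Finset V) (θ : V → ℝ → ℝ)
    (Y : ℝ → ℝ) (t : ℝ) (e : V) (r : ℝ) : ℝ :=
  ∑ w ∈ D, x w e * θ w r + yv hb Dᶜ (nv hb Dᶜ (yhat x D θ Y) t) t e r

/-- the vector lower function (zero on `D`) -/
noncomputable def nx (hb : ℝ → V → V → ℝ) (x : V → V → ℝ) (D : Finset V) (θ : V → ℝ → ℝ)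
    (Y : ℝ → ℝ) (t : ℝ) (e : V) (r : ℝ) : ℝ :=
  if e ∈ D then 0 else nv hb Dᶜ (yx hb x D θ Y t) t e r

/-- the conditions of level 0 with scalars: clocks `θ w` of `w ∈ D` -/
structure L0s (hb : ℝ → V → V → ℝ) (x : V → V → ℝ) (D : Finset V) (t : ℝ) (mb : ℝ → ℝ)
    (θ : V → ℝ → ℝ) (Y Y' N N' : ℝ → ℝ) : Prop where
  b0 : ∀ u v, ∀ r ∈ Icc 0 t, 0 ≤ hb r u v
  bc : ∀ u v, ContinuousOn (fun r => hb r u v) (Icc 0 t)
  lm : ∀ u v, ∀ r ∈ Icc 0 t, hb r u v ≤ x u v * mb r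
  mb0 : ∀ r ∈ Icc 0 t, 0 ≤ mb r
  θ0 : ∀ w ∈ D, ∀ r ∈ Icc 0 t, 0 ≤ θ w r
  θc : ∀ w ∈ D, ContinuousOn (θ w) (Icc 0 t)
  dY : ∀ r ∈ Icc 0 t, HasDerivAt Y (Y' r) r
  dN : ∀ r ∈ Icc 0 t, HasDerivAt N (N' r) r
  Y0 : ∀ r ∈ Icc 0 t, 0 ≤ Y r
  N0 : ∀ r ∈ Icc 0 t, 0 ≤ N r
  N1 : ∀ r ∈ Icc 0 t, N r ≤ 1
  oY : ∀ r ∈ Icc 0 t, mb r * N r ≤ -Y' r
  oN : ∀ e ∈ Dᶜ, ∀ r ∈ Icc 0 t,
    mb r * ∑ f ∈ Dᶜ, x e f * (Real.exp (yhat x D θ Y f r) - 1) ≤ -N' r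

section

variable {hb : ℝ → V → V → ℝ} {x : V → V → ℝ} {D : Finset V} {t : ℝ} {mb : ℝ → ℝ}
  {θ : V → ℝ → ℝ} {Y Y' N N' : ℝ → ℝ}

theorem kD_le (hx : Wt x) (D : Finset V) (e : V) :
    ∑ f ∈ Dᶜ, x e f ≤ 1 - ∑ w ∈ D, x w e := by
  have h1 := hx.row e
  rw [← Finset.sum_add_sum_compl D] at h1
  have h2 : ∑ w ∈ D, x e w = ∑ w ∈ D, x w e := Finset.sum_congr rfl fun w _ => hx.symm e w
  linarith

theorem kD_nonneg (hx : Wt x) (D : Finset V) (e : V) : 0 ≤ 1 - ∑ w ∈ D, x w e :=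
  (Finset.sum_nonneg fun f _ => hx.nn e f).trans (kD_le hx D e)

theorem L0s.yhat_nonneg (hL : L0s hb x D t mb θ Y Y' N N') (hx : Wt x) (e : V) {r : ℝ}
    (hr : r ∈ Icc 0 t) : 0 ≤ yhat x D θ Y e r :=
  add_nonneg (Finset.sum_nonneg fun w hw => mul_nonneg (hx.nn w e) (hL.θ0 w hw r hr))
    (mul_nonneg (kD_nonneg hx D e) (hL.Y0 r hr))

theorem L0s.yhat_cont (hL : L0s hb x D t mb θ Y Y' N N') (e : V) :
    ContinuousOn (yhat x D θ Y e) (Icc 0 t) := by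
  unfold yhat
  exact (continuousOn_finsetSum _ fun w hw => continuousOn_const.mul (hL.θc w hw)).add
    (continuousOn_const.mul fun r hr => (hL.dY r hr).continuousAt.continuousWithinAt)

theorem nv_int_cont (bc : ∀ u v, ContinuousOn (fun r => hb r u v) (Icc 0 t)) {y : V → ℝ → ℝ}
    (cy : ∀ f, ContinuousOn (y f) (Icc 0 t)) (U : Finset V) (e : V) :
    ContinuousOn (fun ρ => ∑ f ∈ U, hb ρ e f * (Real.exp (y f ρ) - 1)) (Icc 0 t) :=
  continuousOn_finsetSum _ fun f _ => (bc e f).mul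
    ((Real.continuous_exp.comp_continuousOn (cy f)).sub continuousOn_const)

theorem nv_cont (h0 : 0 ≤ t) (bc : ∀ u v, ContinuousOn (fun r => hb r u v) (Icc 0 t))
    {y : V → ℝ → ℝ} (cy : ∀ f, ContinuousOn (y f) (Icc 0 t)) (U : Finset V) (e : V) :
    ContinuousOn (nv hb U y t e) (Icc 0 t) := fun _ hr =>
  (bk_deriv h0 (nv_int_cont bc cy U e) hr).continuousAt.continuousWithinAt

theorem yv_int_cont (bc : ∀ u v, ContinuousOn (fun r => hb r u v) (Icc 0 t)) {n : V → ℝ → ℝ}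
    (cn : ∀ f, ContinuousOn (n f) (Icc 0 t)) (U : Finset V) (e : V) :
    ContinuousOn (fun ρ => ∑ f ∈ U, hb ρ e f * n f ρ) (Icc 0 t) :=
  continuousOn_finsetSum _ fun f _ => (bc e f).mul (cn f)

theorem yv_cont (h0 : 0 ≤ t) (bc : ∀ u v, ContinuousOn (fun r => hb r u v) (Icc 0 t))
    {n : V → ℝ → ℝ} (cn : ∀ f, ContinuousOn (n f) (Icc 0 t)) (U : Finset V) (e : V) :
    ContinuousOn (yv hb U n t e) (Icc 0 t) := fun _ hr =>
  (bk_deriv h0 (yv_int_cont bc cn U e) hr).continuousAt.continuousWithinAt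

/-- backward comparison with a supersolution -/
theorem bk_le_of {f g g' : ℝ → ℝ} (h0 : 0 ≤ t) (cf : ContinuousOn f (Icc 0 t))
    (dg : ∀ r ∈ Icc 0 t, HasDerivAt g (g' r) r) (hfg : ∀ r ∈ Icc 0 t, f r ≤ -g' r)
    (gt : 0 ≤ g t) : ∀ r ∈ Icc 0 t, bk f t r ≤ g r := by
  intro r hr
  have := nonneg_of_backward (U := fun r => g r - bk f t r) (U' := fun r => g' r - -f r) (a := 0)
    (s := t) (fun r hr => (dg r hr).sub (bk_deriv h0 cf hr)) (by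
      show 0 ≤ g t - bk f t t
      rw [bk_self]; linarith)
    (fun r hr _ => by linarith [hfg r hr]) r hr
  linarith

theorem L0s.nv_le (hL : L0s hb x D t mb θ Y Y' N N') (hx : Wt x) (h0 : 0 ≤ t) :
    ∀ e ∈ Dᶜ, ∀ r ∈ Icc 0 t, nv hb Dᶜ (yhat x D θ Y) t e r ≤ N r := by
  intro e he
  refine bk_le_of h0 (nv_int_cont hL.bc hL.yhat_cont _ e) hL.dN (fun r hr => ?_)
    (hL.N0 t ⟨h0, le_rfl⟩)
  refine le_trans ?_ (hL.oN e he r hr)
  rw [Finset.mul_sum]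
  refine Finset.sum_le_sum fun f _ => ?_
  have h1 : 0 ≤ Real.exp (yhat x D θ Y f r) - 1 := by
    have := Real.one_le_exp (hL.yhat_nonneg hx f hr); linarith
  have h2 := mul_le_mul_of_nonneg_right (hL.lm e f r hr) h1
  linarith

theorem L0s.yv_le (hL : L0s hb x D t mb θ Y Y' N N') (hx : Wt x) (h0 : 0 ≤ t) (e : V) :
    ∀ r ∈ Icc 0 t, yv hb Dᶜ (nv hb Dᶜ (yhat x D θ Y) t) t e r
      ≤ (1 - ∑ w ∈ D, x w e) * Y r := by
  refine bk_le_of h0 (yv_int_cont hL.bc (nv_cont h0 hL.bc hL.yhat_cont _) _ e)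
    (g' := fun r => (1 - ∑ w ∈ D, x w e) * Y' r)
    (fun r hr => (hL.dY r hr).const_mul _) (fun r hr => ?_)
    (mul_nonneg (kD_nonneg hx D e) (hL.Y0 t ⟨h0, le_rfl⟩))
  have h1 : ∑ f ∈ Dᶜ, hb r e f * nv hb Dᶜ (yhat x D θ Y) t f r
      ≤ (∑ f ∈ Dᶜ, x e f) * (mb r * N r) := by
    rw [Finset.sum_mul]
    refine Finset.sum_le_sum fun f hf => ?_
    have a1 := mul_le_mul_of_nonneg_left (hL.nv_le hx h0 f hf r hr) (hL.b0 e f r hr)
    have a2 := mul_le_mul_of_nonneg_right (hL.lm e f r hr) (hL.N0 r hr)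
    linarith
  have h2 := mul_le_mul_of_nonneg_right (kD_le hx D e)
    (mul_nonneg (hL.mb0 r hr) (hL.N0 r hr))
  have h3 := mul_le_mul_of_nonneg_left (hL.oY r hr) (kD_nonneg hx D e)
  linarith

theorem L0s.nv_nonneg (hL : L0s hb x D t mb θ Y Y' N N') (hx : Wt x) (e : V) {r : ℝ}
    (hr : r ∈ Icc 0 t) : 0 ≤ nv hb Dᶜ (yhat x D θ Y) t e r :=
  bk_nonneg hr fun z hz => Finset.sum_nonneg fun f _ => mul_nonneg (hL.b0 e f z hz) (by
    have := Real.one_le_exp (hL.yhat_nonneg hx f hz); linarith)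

theorem L0s.yv_nonneg (hL : L0s hb x D t mb θ Y Y' N N') (hx : Wt x) (e : V) {r : ℝ}
    (hr : r ∈ Icc 0 t) : 0 ≤ yv hb Dᶜ (nv hb Dᶜ (yhat x D θ Y) t) t e r :=
  bk_nonneg hr fun z hz => Finset.sum_nonneg fun f _ => mul_nonneg (hL.b0 e f z hz)
    (hL.nv_nonneg hx f hz)

theorem L0s.yx_nonneg (hL : L0s hb x D t mb θ Y Y' N N') (hx : Wt x) (e : V) {r : ℝ}
    (hr : r ∈ Icc 0 t) : 0 ≤ yx hb x D θ Y t e r :=
  add_nonneg (Finset.sum_nonneg fun w hw => mul_nonneg (hx.nn w e) (hL.θ0 w hw r hr))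
    (hL.yv_nonneg hx e hr)

theorem L0s.yx_le (hL : L0s hb x D t mb θ Y Y' N N') (hx : Wt x) (h0 : 0 ≤ t) (e : V) {r : ℝ}
    (hr : r ∈ Icc 0 t) : yx hb x D θ Y t e r ≤ yhat x D θ Y e r :=
  add_le_add le_rfl (hL.yv_le hx h0 e r hr)

theorem L0s.yx_cont (hL : L0s hb x D t mb θ Y Y' N N') (h0 : 0 ≤ t) (e : V) :
    ContinuousOn (yx hb x D θ Y t e) (Icc 0 t) :=
  (continuousOn_finsetSum _ fun w hw => continuousOn_const.mul (hL.θc w hw)).add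
    (yv_cont h0 hL.bc (nv_cont h0 hL.bc hL.yhat_cont _) _ e)

theorem nx_eq {e : V} (he : e ∈ Dᶜ) : nx hb x D θ Y t e = nv hb Dᶜ (yx hb x D θ Y t) t e := by
  funext r
  unfold nx
  rw [if_neg (Finset.mem_compl.1 he)]

theorem L0s.nx_nonneg (hL : L0s hb x D t mb θ Y Y' N N') (hx : Wt x) (e : V) {r : ℝ}
    (hr : r ∈ Icc 0 t) : 0 ≤ nx hb x D θ Y t e r := by
  unfold nx
  split_ifs
  · exact le_rfl
  · exact bk_nonneg hr fun z hz => Finset.sum_nonneg fun f _ => mul_nonneg (hL.b0 e f z hz) (by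
      have := Real.one_le_exp (hL.yx_nonneg hx f hz); linarith)

theorem L0s.nx_le (hL : L0s hb x D t mb θ Y Y' N N') (hx : Wt x) (h0 : 0 ≤ t) (e : V) {r : ℝ}
    (hr : r ∈ Icc 0 t) : nx hb x D θ Y t e r ≤ nv hb Dᶜ (yhat x D θ Y) t e r := by
  unfold nx
  split_ifs
  · exact hL.nv_nonneg hx e hr
  · refine bk_le hr le_rfl (nv_int_cont hL.bc (hL.yx_cont h0) _ e)
      (nv_int_cont hL.bc hL.yhat_cont _ e) (fun z hz => Finset.sum_le_sum fun f _ => ?_)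
      (fun z hz => Finset.sum_nonneg fun f _ => mul_nonneg (hL.b0 e f z hz) (by
        have := Real.one_le_exp (hL.yhat_nonneg hx f hz); linarith))
    have := Real.exp_le_exp.2 (hL.yx_le hx h0 f hz)
    exact mul_le_mul_of_nonneg_left (by linarith) (hL.b0 e f z hz)

theorem L0s.nx_one (hL : L0s hb x D t mb θ Y Y' N N') (hx : Wt x) (h0 : 0 ≤ t) (e : V) {r : ℝ}
    (hr : r ∈ Icc 0 t) : nx hb x D θ Y t e r ≤ 1 := by
  by_cases he : e ∈ D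
  · unfold nx
    rw [if_pos he]
    exact zero_le_one
  · exact (hL.nx_le hx h0 e hr).trans ((hL.nv_le hx h0 e (Finset.mem_compl.2 he) r hr).trans
      (hL.N1 r hr))

end

end Pool.Agent.RZ.RCM
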