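import Pool.Agent.RZ.RCM.Lev2
import Pool.Agent.RZ.RCM.NuB
import Pool.Agent.RZ.RCM.WldV_1
import Pool.Agent.RZ.RCN.Hz

/-! Level 0 of a cell from clocks and scalar functions (MP_73ccd0_lc, route M). -/

namespace Pool.Agent.RZ.RCM

open Set Finset MeasureTheory Pool.Agent.RZ.RCRSHalf Pool.Agent.RZ.RCG

section mono

end mono

end Pool.Agent.RZ.RCM

namespace Pool.Agent.RZ.RCN.K

open Set Finset MeasureTheory Pool.Agent.RZ.RCRSHalf Pool.Agent.RZ.RCG Pool.Agent.RZ.RCG.Ct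

set_option linter.unusedSectionVars false

variable {V : Type*} [Fintype V] [DecidableEq V]

/-- the scalar system of one pair of times -/
def Sy (Z : Hzd) (x : V → V → ℝ) (P : V → Prop) [DecidablePred P] (D : Finset V) (mb : ℝ → ℝ)
    (t : ℝ) (θ : V → ℝ → ℝ) (Y : ℝ → ℝ) : Prop :=
  ∃ Y' N N' : ℝ → ℝ, RCM.L0s (Z.hh x P) x D t mb θ Y Y' N N'

variable {Z : Hzd} {x : V → V → ℝ} {P : V → Prop} [DecidablePred P] {sl : ℝ → ℝ → ℝ}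
variable {α τ sg : ℝ} {A D : Finset V} {θ2 : ℝ → ℝ → V → ℝ → ℝ} {Y2 : ℝ → ℝ → ℝ → ℝ}
variable {θ1 : V → ℝ → ℝ} {Y1 mb : ℝ → ℝ}

/-- the scalar system for one removed vertex -/
theorem sy_one (hZ : Z.Ok sl) (hx : Wt x P 1) {a : V} {t : ℝ}
    (ht : t ∈ Icc (0 : ℝ) 1) {θ : V → ℝ → ℝ} {Y Y' N N' : ℝ → ℝ}
    (hmb : ∀ y ∈ Icc (0 : ℝ) 1, ∀ s ∈ Icc (0 : ℝ) 1, Z.rr y s ≤ mb s)
    (hm1 : ∀ s ∈ Icc (0 : ℝ) 1, 1 ≤ mb s)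
    (ca : ContinuousOn (θ a) (Icc 0 t)) (Ya : ∀ r ∈ Icc 0 t, Y r ≤ θ a r)
    (a2 : ∀ r ∈ Icc 0 t, θ a r ≤ 2)
    (dY : ∀ r ∈ Icc 0 t, HasDerivAt Y (Y' r) r) (dN : ∀ r ∈ Icc 0 t, HasDerivAt N (N' r) r)
    (Y0 : ∀ r ∈ Icc 0 t, 0 ≤ Y r) (N0 : ∀ r ∈ Icc 0 t, 0 ≤ N r) (N1 : ∀ r ∈ Icc 0 t, N r ≤ 1)
    (oY : ∀ r ∈ Icc 0 t, mb r * N r ≤ -Y' r)
    (oN : ∀ r ∈ Icc 0 t, mb r * (Real.exp (θ a r / 2 + Y r / 2) - 1) ≤ -N' r) :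
    Sy Z x P {a} mb t θ Y := by
  have m1 : ∀ r ∈ Icc 0 t, r ∈ Icc (0 : ℝ) 1 := fun r hr => ⟨hr.1, hr.2.trans ht.2⟩
  have mb0 : ∀ r ∈ Icc 0 t, 0 ≤ mb r := fun r hr => zero_le_one.trans (hm1 r (m1 r hr))
  refine ⟨Y', N, N', fun u v r hr => hZ.hh_nonneg hx (m1 r hr) u v,
    fun u v => (hZ.hh_cont hx u v).mono (Icc_subset_Icc_right ht.2),
    fun u v r hr => Hzd.hh_le hx hmb hm1 (m1 r hr) u v, mb0, fun w hw r hr => ?_,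
    fun w hw => ?_, dY, dN, Y0, N0, N1, oY, fun e he r hr => ?_⟩
  · rw [Finset.mem_singleton.1 hw]; exact (Y0 r hr).trans (Ya r hr)
  · rw [Finset.mem_singleton.1 hw]; exact ca
  · have h1 := RCM.row_one (wt_of hx) (a := a) (U := ({a} : Finset V)ᶜ) (by simp)
      (θ := θ a r) (Y0 r hr) (Ya r hr) (by linarith [a2 r hr, Y0 r hr]) e he
    refine le_trans (mul_le_mul_of_nonneg_left (le_trans (le_of_eq ?_) h1) (mb0 r hr)) (oN r hr)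
    refine Finset.sum_congr rfl fun f _ => ?_
    unfold RCM.yhat RCM.kx
    rw [Finset.sum_singleton, Finset.sum_singleton, Finset.sum_singleton]

end Pool.Agent.RZ.RCN.K
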