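import Pool.Agent.RZ.RCG.Ctx

/-! Derivatives of expectations of world functions (MP_73ccd0_lc, route M). -/

namespace Pool.Agent.RZ.RCM

open Set Finset Pool.Agent.RZ.RCRSHalf Pool.Agent.RZ.RCG

set_option linter.unusedSectionVars false

variable {V : Type*} [Fintype V] [DecidableEq V]
variable {h : ℝ → V → V → ℝ} {H : V → V → ℝ → ℝ}

/-- expectation of a sum over one more free vertex -/
theorem ex_ssum' (μ : Finset V → ℝ) (W : Finset V) (Φ : V → Finset V → ℝ) :
    ex μ W (fun F => ∑ c ∈ F, Φ c (F.erase c)) = ∑ c ∈ Wᶜ, ex μ (insert c W) (Φ c) := by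
  unfold ex
  rw [Finset.sum_comm]
  refine Finset.sum_congr rfl fun F _ => ?_
  by_cases hF : W ⊆ F
  · rw [if_pos hF, Finset.mul_sum]
    have hsub : F \ W ⊆ Wᶜ := fun z hz => Finset.mem_compl.2 (Finset.mem_sdiff.1 hz).2
    rw [← Finset.sum_subset hsub]
    · refine Finset.sum_congr rfl fun c hc => ?_
      have h1 : insert c W ⊆ F := by
        intro z hz
        rcases Finset.mem_insert.1 hz with rfl | hz
        · exact (Finset.mem_sdiff.1 hc).1
        · exact hF hz
      rw [if_pos h1]
      have e : (F \ W).erase c = F \ insert c W := by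
        ext z
        simp only [Finset.mem_erase, Finset.mem_sdiff, Finset.mem_insert]
        tauto
      rw [e]
    · intro c hc hcn
      rw [if_neg, mul_zero]
      intro hh'
      exact hcn (Finset.mem_sdiff.2 ⟨hh' (Finset.mem_insert_self _ _), Finset.mem_compl.1 hc⟩)
  · rw [if_neg hF, mul_zero]
    symm
    refine Finset.sum_eq_zero fun c _ => ?_
    rw [if_neg, mul_zero]
    exact fun hh' => hF ((Finset.subset_insert _ _).trans hh')

/-- expectation of a sum over one more free vertex, with weights -/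
theorem ex_wsum (μ : Finset V → ℝ) (W : Finset V) (k : V → ℝ) (f : V → Finset V → ℝ) :
    ∑ v ∈ Wᶜ, k v * ex μ (insert v W) (f v) = ex μ W (fun G => ∑ v ∈ G, k v * f v (G.erase v)) := by
  rw [ex_ssum' μ W (fun v G => k v * f v G)]
  exact Finset.sum_congr rfl fun v _ => (ex_smul μ (insert v W) (k v) (f v)).symm

/-- derivative of the expectation of a world function -/
theorem ex_deriv (hh : Haz h H) (D W : Finset V) {κ : ℝ → V → ℝ} {t : ℝ} (ht : t ≤ 1)
    {Ψ : Finset V → ℝ → ℝ} (hΨ : IsEv h κ (fun _ => 0) (fun _ => 0) t Ψ) {s : ℝ}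
    (hs : s ∈ Icc 0 t) :
    HasDerivAt (fun s => ex (lw h D s) W (fun F => Ψ F s))
      (-(((1 / 2) * ∑ a ∈ W, ∑ b ∈ W, h s a b) * ex (lw h D s) W (fun F => Ψ F s))
        - ∑ v ∈ Wᶜ, (∑ w ∈ W, h s w v - κ s v)
          * ex (lw h D s) (insert v W) (fun F => Ψ (insert v F) s)) s := by
  have h1 := (hh.lw D).deriv_sum (φ := fun s F => if W ⊆ F then Ψ (F \ W) s else 0)
    (φ' := fun s F => if W ⊆ F then -(gen (h s) (fun G => Ψ G s) (F \ W)
      - (∑ a ∈ F \ W, κ s a) * Ψ (F \ W) s - 0 * Ψ (F \ W) s + 0) else 0) (t := s)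
    ⟨hs.1, hs.2.trans ht⟩
    (fun F => by
      by_cases hF : W ⊆ F
      · simp only [if_pos hF]
        exact hΨ.deriv _ s hs
      · simp only [if_neg hF]
        exact hasDerivAt_const _ _)
  have e0 : (fun s => ex (lw h D s) W (fun F => Ψ F s)) = fun s => ∑ F : Finset V, lw h D s F *
      (if W ⊆ F then Ψ (F \ W) s else 0) := rfl
  rw [e0]
  refine h1.congr_deriv ?_
  rw [ex_wsum (lw h D s) W (fun v => ∑ w ∈ W, h s w v - κ s v) (fun v F => Ψ (insert v F) s)]
  rw [← ex_smul, ← neg_one_mul, ← ex_smul, sub_eq_add_neg, ← neg_one_mul (ex _ _ _), ← ex_smul,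
    ← ex_add]
  unfold ex
  refine Finset.sum_congr rfl fun F _ => ?_
  congr 1
  by_cases hF : W ⊆ F
  · rw [if_pos hF, if_pos hF, gen_super (h s) (hh.symm s) W F hF (fun G => Ψ G s)]
    have e1 : ∑ v ∈ F \ W, (∑ w ∈ W, h s w v - κ s v) * Ψ (insert v ((F \ W).erase v)) s
        = (∑ a ∈ F \ W, ∑ w ∈ W, h s w a) * Ψ (F \ W) s - (∑ a ∈ F \ W, κ s a) * Ψ (F \ W) s := by
      rw [← sub_mul, ← Finset.sum_sub_distrib, Finset.sum_mul]
      refine Finset.sum_congr rfl fun v hv => ?_
      rw [Finset.insert_erase hv]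
    beta_reduce
    rw [e1]
    ring
  · rw [if_neg hF, if_neg hF]
    have : gen (h s) (fun G => if W ⊆ G then Ψ (G \ W) s else 0) F = gen (h s) (fun _ => 0) F := by
      refine gen_congr fun G hG => ?_
      rw [if_neg (fun hh => hF (hh.trans hG))]
    rw [this, gen_const, add_zero]

/-- generator of a function restricted to the sets containing `b` -/
theorem gen_keep {h : V → V → ℝ} (hs : ∀ a b, h a b = h b a) (haa : ∀ a, h a a = 0)
    (φ : Finset V → ℝ) {b : V} {F : Finset V} (hb : b ∈ F) :
    gen h (fun G => if b ∈ G then φ G else 0) F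
      = gen h φ F - ∑ v ∈ F, h b v * φ ((F.erase b).erase v) := by
  unfold gen
  have key : ∀ x ∈ F, ∀ y ∈ F,
      h x y * ((if b ∈ (F.erase x).erase y then φ ((F.erase x).erase y) else 0)
        - (if b ∈ F then φ F else 0))
      = h x y * (φ ((F.erase x).erase y) - φ F)
        - ((if b = x then h b y * φ ((F.erase b).erase y) else 0)
          + (if b = y then h b x * φ ((F.erase b).erase x) else 0)) := by
    intro x hx y hy
    rw [if_pos hb]
    by_cases hbx : b = x
    · subst hbx
      rw [if_neg (by simp), if_pos rfl]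
      by_cases hby : b = y
      · subst hby
        rw [if_pos rfl, haa]; ring
      · rw [if_neg hby]; ring
    · rw [if_neg hbx]
      by_cases hby : b = y
      · subst hby
        rw [if_neg (by simp), if_pos rfl, hs x b, Finset.erase_right_comm]
        ring
      · rw [if_neg hby, if_pos (Finset.mem_erase.2 ⟨hby, Finset.mem_erase.2 ⟨hbx, hb⟩⟩)]
        ring
  rw [Finset.sum_congr rfl fun x hx => Finset.sum_congr rfl fun y hy => key x hx y hy]
  simp only [Finset.sum_sub_distrib, Finset.sum_add_distrib]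
  have e1 : ∑ x ∈ F, ∑ y ∈ F, (if b = x then h b y * φ ((F.erase b).erase y) else 0)
      = ∑ v ∈ F, h b v * φ ((F.erase b).erase v) := by
    rw [Finset.sum_comm]
    refine Finset.sum_congr rfl fun y _ => ?_
    rw [Finset.sum_ite_eq, if_pos hb]
  have e2 : ∑ x ∈ F, ∑ y ∈ F, (if b = y then h b x * φ ((F.erase b).erase x) else 0)
      = ∑ v ∈ F, h b v * φ ((F.erase b).erase v) := by
    refine Finset.sum_congr rfl fun x _ => ?_
    rw [Finset.sum_ite_eq, if_pos hb]
  rw [e1, e2]
  ring

/-- derivative of the expectation with one released vertex `b` -/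
theorem ex_deriv_rel (hh : Haz h H) (D W : Finset V) {b : V} (hbW : b ∉ W) {t : ℝ} (ht : t ≤ 1)
    {Ψ : Finset V → ℝ → ℝ}
    (hΨ : IsEv h (fun r v => ∑ w ∈ W, h r w v) (fun _ => 0) (fun _ => 0) t Ψ) {s : ℝ}
    (hs : s ∈ Icc 0 t) :
    HasDerivAt (fun s => ex (lw h D s) (insert b W) (fun F => Ψ (insert b F) s))
      (-(((1 / 2) * ∑ x ∈ W, ∑ y ∈ W, h s x y)
          * ex (lw h D s) (insert b W) (fun F => Ψ (insert b F) s))
        - ∑ v ∈ (insert b W)ᶜ, h s b v * ex (lw h D s) (insert v (insert b W)) (fun F => Ψ F s))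
      s := by
  have h1 := (hh.lw D).deriv_sum
    (φ := fun s F => if b ∈ F then (if W ⊆ F then Ψ (F \ W) s else 0) else 0)
    (φ' := fun s F => if b ∈ F then (if W ⊆ F then -(gen (h s) (fun G => Ψ G s) (F \ W)
      - (∑ a ∈ F \ W, ∑ w ∈ W, h s w a) * Ψ (F \ W) s - 0 * Ψ (F \ W) s + 0) else 0) else 0)
    (t := s) ⟨hs.1, hs.2.trans ht⟩
    (fun F => by
      by_cases hb : b ∈ F
      · by_cases hF : W ⊆ F
        · simp only [if_pos hb, if_pos hF]
          exact hΨ.deriv _ s hs
        · simp only [if_pos hb, if_neg hF]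
          exact hasDerivAt_const _ _
      · simp only [if_neg hb]
        exact hasDerivAt_const _ _)
  have hins : ∀ F : Finset V, insert b W ⊆ F ↔ b ∈ F ∧ W ⊆ F := fun F =>
    Finset.insert_subset_iff
  have hset : ∀ F : Finset V, b ∈ F → insert b (F \ insert b W) = F \ W := by
    intro F hb
    ext z
    simp only [Finset.mem_insert, Finset.mem_sdiff]
    constructor
    · rintro (rfl | hz)
      · exact ⟨hb, hbW⟩
      · tauto
    · rintro ⟨h1, h2⟩
      by_cases hz : z = b
      · exact Or.inl hz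
      · exact Or.inr ⟨h1, by tauto⟩
  have e0 : (fun s => ex (lw h D s) (insert b W) (fun F => Ψ (insert b F) s))
      = fun s => ∑ F : Finset V, lw h D s F *
        (if b ∈ F then (if W ⊆ F then Ψ (F \ W) s else 0) else 0) := by
    funext s
    unfold ex
    refine Finset.sum_congr rfl fun F _ => ?_
    congr 1
    by_cases hb : b ∈ F
    · by_cases hF : W ⊆ F
      · rw [if_pos ((hins F).2 ⟨hb, hF⟩), if_pos hb, if_pos hF]
        beta_reduce
        rw [hset F hb]
      · rw [if_neg (fun h => hF ((hins F).1 h).2), if_pos hb, if_neg hF]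
    · rw [if_neg (fun h => hb ((hins F).1 h).1), if_neg hb]
  rw [e0]
  refine h1.congr_deriv ?_
  rw [ex_wsum (lw h D s) (insert b W) (fun v => h s b v) (fun v F => Ψ F s)]
  rw [← ex_smul, ← neg_one_mul, ← ex_smul, sub_eq_add_neg, ← neg_one_mul (ex _ _ _), ← ex_smul,
    ← ex_add]
  unfold ex
  refine Finset.sum_congr rfl fun F _ => ?_
  congr 1
  by_cases hb : b ∈ F
  · rw [gen_keep (hh.symm s) (hh.diag s) (fun G => if W ⊆ G then Ψ (G \ W) s else 0) hb,
      if_pos hb]
    by_cases hF : W ⊆ F
    · rw [if_pos hF, if_pos ((hins F).2 ⟨hb, hF⟩)]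
      beta_reduce
      rw [gen_super (h s) (hh.symm s) W F hF (fun G => Ψ G s), hset F hb]
      have e2 : ∑ v ∈ F, h s b v * (if W ⊆ (F.erase b).erase v then
            Ψ (((F.erase b).erase v) \ W) s else 0)
          = ∑ v ∈ F \ insert b W, h s b v * Ψ ((F \ insert b W).erase v) s := by
        rw [← Finset.sum_sdiff ((hins F).2 ⟨hb, hF⟩)]
        have z1 : ∑ v ∈ insert b W, h s b v * (if W ⊆ (F.erase b).erase v then
            Ψ (((F.erase b).erase v) \ W) s else 0) = 0 := by
          refine Finset.sum_eq_zero fun v hv => ?_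
          rcases Finset.mem_insert.1 hv with rfl | hv
          · rw [hh.diag, zero_mul]
          · rw [if_neg (not_subset_erase_right hv), mul_zero]
        rw [z1, add_zero]
        refine Finset.sum_congr rfl fun v hv => ?_
        obtain ⟨_, hvn⟩ := Finset.mem_sdiff.1 hv
        rw [Finset.mem_insert, not_or] at hvn
        rw [if_pos ((subset_erase_iff hF).2 ⟨hbW, hvn.2⟩)]
        congr 2
        ext z
        simp only [Finset.mem_sdiff, Finset.mem_erase, Finset.mem_insert]
        tauto
      rw [e2]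
      ring
    · have hn : ¬ insert b W ⊆ F := fun h => hF ((hins F).1 h).2
      rw [if_neg hF, if_neg hn]
      have g0 : gen (h s) (fun G => if W ⊆ G then Ψ (G \ W) s else 0) F
          = gen (h s) (fun _ => 0) F := by
        refine gen_congr fun G hG => ?_
        rw [if_neg (fun hh => hF (hh.trans hG))]
      have g1 : ∑ v ∈ F, h s b v * (if W ⊆ (F.erase b).erase v then
            Ψ (((F.erase b).erase v) \ W) s else 0) = 0 := by
        refine Finset.sum_eq_zero fun v _ => ?_
        rw [if_neg (fun hh => hF (hh.trans ((Finset.erase_subset _ _).trans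
          (Finset.erase_subset _ _)))), mul_zero]
      rw [g0, gen_const, g1]
      ring
  · have hn : ¬ insert b W ⊆ F := fun h => hb ((hins F).1 h).1
    rw [if_neg hb, if_neg hn, add_zero]
    have : gen (h s) (fun G => if b ∈ G then (if W ⊆ G then Ψ (G \ W) s else 0) else 0) F
        = gen (h s) (fun _ => 0) F := by
      refine gen_congr fun G hG => ?_
      rw [if_neg (fun hh => hb (hG hh))]
    rw [this, gen_const]

end Pool.Agent.RZ.RCM
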