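import Pool.Agent.RZ.RCM.BMl
import Pool.Agent.RZ.RCM.MLem

/-! The closures in terms of majorants of the removal rates: one system for both phases
(MP_73ccd0_lc, route M). -/

namespace Pool.Agent.RZ.RCM

open Set Finset Pool.Agent.RZ.RCRSHalf Pool.Agent.RZ.RCG

set_option linter.unusedSectionVars false

variable {V : Type*} [Fintype V] [DecidableEq V]

variable {h : ℝ → V → V → ℝ} {H : V → V → ℝ → ℝ}

section

variable {c d : V} {A D : Finset V} {s t : ℝ} {U : Finset V} {Pa Pa' Na Na' P P' N N' : V → ℝ → ℝ}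
  {T Am Bm : ℝ → V → V → ℝ} {gp gp' gm gm' : V → V → ℝ → ℝ}
  {pc pc' nc nc' pd pd' nd nd' : V → ℝ → ℝ}
  {ptca ptca' ptc ptc' ptd ptd' k k' : ℝ → ℝ} {κc κd : ℝ → V → ℝ}

theorem CloDt.mono (hh : Haz h H) (ht : t ∈ Icc (0 : ℝ) 1) (hs : s ∈ Icc 0 t) {K K' : ℝ}
    (hC : CloDt h t s A D c d K) (hK : K ≤ K') : CloDt h t s A D c d K' := by
  intro Ra Rac h1 h2 h3 h4
  refine (hC Ra Rac h1 h2 h3 h4).trans (mul_le_mul_of_nonneg_right hK ?_)
  have hs1 : s ∈ Icc (0 : ℝ) 1 := ⟨hs.1, hs.2.trans ht.2⟩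
  exact (mul_pos (ex_pos hh hs1 fun F => h3.pos _ s hs) (ex_pos hh hs1 fun F => h1.pos F s hs)).le

end

end Pool.Agent.RZ.RCM
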