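import Pool.Agent.RZ.RCN.Hz

/-! The closures of a pair `c`, `d` in the world of the removed set `D` with explicit constants
(MP_73ccd0_lc, route M). -/

namespace Pool.Agent.RZ.RCN.K

open Set Finset MeasureTheory Pool.Agent.RZ.RCRSHalf Pool.Agent.RZ.RCG Pool.Agent.RZ.RCG.Ct

set_option linter.unusedSectionVars false

variable {V : Type*} [Fintype V] [DecidableEq V]

/-- the number `θ` bounds the clock from `r` to `t` -/
structure Clt (Z : Hzd) (r t θ : ℝ) : Prop where
  re : ∀ y ∈ Icc (0 : ℝ) 1, Real.log (1 - y * Z.S y r) - Real.log (1 - y * Z.S y t) ≤ y * θ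
  pe : t - r ≤ θ

variable (Z : Hzd) (x : V → V → ℝ) (P : V → Prop) [DecidablePred P]

variable {Z F x P}
variable {sl : ℝ → ℝ → ℝ} {α τ sg : ℝ} {A D : Finset V}

/-! ### monotonicity in the horizon -/

theorem Clt.Hh_le {r t θ : ℝ} (h : Clt Z r t θ) (hx : Wt x P 1) (hr : 0 ≤ r) (hrt : r ≤ t)
    (u v : V) : Z.Hh x P t u v r ≤ x u v * θ := by
  have hm := xw_mem hx u v
  unfold Hzd.Hh
  split_ifs
  · exact h.re _ hm
  · refine mul_le_mul_of_nonneg_left (le_trans ?_ h.pe) hm.1
    have h0 : 0 < 1 + r := by linarith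
    have h1 : 0 < 1 + t := by linarith
    have h2 : Real.log (1 + t) - Real.log (1 + r) = Real.log ((1 + t) / (1 + r)) := by
      rw [Real.log_div h1.ne' h0.ne']
    rw [h2]
    refine (Real.log_le_sub_one_of_pos (div_pos h1 h0)).trans ?_
    have h3 : (1 + t) / (1 + r) - 1 = (t - r) / (1 + r) := by
      field_simp
      ring
    rw [h3, div_le_iff₀ h0]
    nlinarith

/-! ### the kernels -/

end Pool.Agent.RZ.RCN.K
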