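import Pool.Agent.RZ.RCN.Par

/-! Joint continuity of the exponents of the closures (MP_73ccd0_lc, route M). -/

namespace Pool.Agent.RZ.RCN.K

open Set Finset MeasureTheory

set_option linter.unusedSectionVars false

variable {α τ sg : ℝ}

variable {V : Type*} [Fintype V] [DecidableEq V]
variable {x : V → V → ℝ} {P : V → Prop} [DecidablePred P]

variable {sl : ℝ → ℝ → ℝ} {B E1 : ℝ → ℝ → ℝ} {m q : ℝ} {A D : Finset V}

/-- the pairs of the cell with the second time at most `sg` -/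
def Ws (α τ sg : ℝ) : Set (ℝ × ℝ) := {p | p ∈ Wg α τ ∧ p.2 ≤ sg}

/-- the second time cut at `sg` -/
theorem ws_min {f : ℝ → ℝ → ℝ} (sg0 : 0 ≤ sg)
    (hf : ContinuousOn (fun p : ℝ × ℝ => f p.1 p.2) (Ws α τ sg)) :
    ContinuousOn (fun p : ℝ × ℝ => f p.1 (min p.2 sg)) (Wg α τ) :=
  hf.comp (f := fun p : ℝ × ℝ => (p.1, min p.2 sg)) (by fun_prop) fun p hp =>
    ⟨⟨hp.1, le_min hp.2.1 sg0, (min_le_left _ _).trans hp.2.2⟩, min_le_right _ _⟩

end Pool.Agent.RZ.RCN.K
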