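import Pool.Agent.RZ.RCM.MonoB

/-! Monotone Picard iteration for backward systems (MP_73ccd0_lc, route M). -/

namespace Pool.Agent.RZ.RCM

open Set Finset MeasureTheory Filter Topology

set_option linter.unusedSectionVars false

/-- comparison by the derivatives, backward in time -/
theorem back_le {a τ : ℝ} {f g f' g' : ℝ → ℝ} (hf : ∀ r ∈ Icc a τ, HasDerivAt f (f' r) r)
    (hg : ∀ r ∈ Icc a τ, HasDerivAt g (g' r) r) (h : ∀ r ∈ Icc a τ, g' r ≤ f' r)
    (he : f τ ≤ g τ) : ∀ r ∈ Icc a τ, f r ≤ g r := by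
  intro r hr
  have hd : ∀ z ∈ Icc a τ, HasDerivAt (fun z => g z - f z) (g' z - f' z) z := fun z hz =>
    (hg z hz).sub (hf z hz)
  have anti : AntitoneOn (fun z => g z - f z) (Icc a τ) := by
    refine antitoneOn_of_deriv_nonpos (convex_Icc a τ) (fun z hz =>
      (hd z hz).continuousAt.continuousWithinAt) (fun z hz => ?_) fun z hz => ?_
    · rw [interior_Icc] at hz
      exact (hd z (Ioo_subset_Icc_self hz)).differentiableAt.differentiableWithinAt
    · rw [interior_Icc] at hz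
      rw [(hd z (Ioo_subset_Icc_self hz)).deriv]
      linarith [h z (Ioo_subset_Icc_self hz)]
  have := anti hr ⟨hr.1.trans hr.2, le_rfl⟩ hr.2
  simp only at this
  linarith

theorem back_eq {a τ : ℝ} {f g f' : ℝ → ℝ} (hf : ∀ r ∈ Icc a τ, HasDerivAt f (f' r) r)
    (hg : ∀ r ∈ Icc a τ, HasDerivAt g (f' r) r) (he : f τ = g τ) : ∀ r ∈ Icc a τ, f r = g r :=
  fun r hr => le_antisymm (back_le hf hg (fun _ _ => le_rfl) he.le r hr)
    (back_le hg hf (fun _ _ => le_rfl) he.ge r hr)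

variable {ι : Type*} [Fintype ι]

/-- one Picard step from `u` to `w` -/
def Pst (τ : ℝ) (R : ℝ → (ι → ℝ) → ι → ℝ) (u w : ι → ℝ → ℝ) : Prop :=
  (∀ i, ContinuousOn (u i) (Icc 0 τ)) ∧ (∀ i, ∀ r ∈ Icc 0 τ, 0 ≤ u i r) ∧
    (∀ i, ∀ r ∈ Icc 0 τ, HasDerivAt (w i) (-R r (fun j => u j r) i) r) ∧ (∀ i, w i τ = 0)

/-- invariance of a family of closed predicates under the Picard step -/
structure Inv (τ : ℝ) (R : ℝ → (ι → ℝ) → ι → ℝ) (C : ℝ → (ι → ℝ) → Prop) : Prop where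
  cl : ∀ r ∈ Icc 0 τ, IsClosed {u | C r u}
  z : ∀ r ∈ Icc 0 τ, C r 0
  st : ∀ u w : ι → ℝ → ℝ, Pst τ R u w → (∀ r ∈ Icc 0 τ, C r fun i => u i r) →
    ∀ r ∈ Icc 0 τ, C r fun i => w i r

theorem Inv.and {τ : ℝ} {R : ℝ → (ι → ℝ) → ι → ℝ} {C C' : ℝ → (ι → ℝ) → Prop}
    (h : Inv τ R C) (h' : ∀ r ∈ Icc 0 τ, IsClosed {u | C' r u}) (h0 : ∀ r ∈ Icc 0 τ, C' r 0)
    (hs : ∀ u w : ι → ℝ → ℝ, Pst τ R u w → (∀ r ∈ Icc 0 τ, C r fun i => u i r) →
      (∀ r ∈ Icc 0 τ, C' r fun i => u i r) → ∀ r ∈ Icc 0 τ, C' r fun i => w i r) :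
    Inv τ R (fun r u => C r u ∧ C' r u) :=
  ⟨fun r hr => (h.cl r hr).inter (h' r hr), fun r hr => ⟨h.z r hr, h0 r hr⟩,
    fun u w hp hc r hr => ⟨h.st u w hp (fun r hr => (hc r hr).1) r hr,
      hs u w hp (fun r hr => (hc r hr).1) (fun r hr => (hc r hr).2) r hr⟩⟩

/-- **monotone Picard iteration** -/
theorem exists_pic {τ : ℝ} (hτ : 0 ≤ τ) {R : ℝ → (ι → ℝ) → ι → ℝ}
    (cR : ∀ i, ContinuousOn (fun p : ℝ × (ι → ℝ) => R p.1 p.2 i) (Icc 0 τ ×ˢ univ))
    (mono : ∀ r ∈ Icc 0 τ, ∀ u v : ι → ℝ, (∀ i, 0 ≤ u i) → (∀ i, u i ≤ v i) →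
      ∀ i, R r u i ≤ R r v i)
    (R0 : ∀ r ∈ Icc 0 τ, ∀ i, 0 ≤ R r 0 i)
    {C0 : ℝ → (ι → ℝ) → Prop} (h0 : Inv τ R C0) {M : ℝ}
    (hM : ∀ r ∈ Icc 0 τ, ∀ u, C0 r u → ∀ i, u i ≤ M) :
    ∃ g : ι → ℝ → ℝ, (∀ i, ∀ r ∈ Icc 0 τ, HasDerivAt (g i) (-R r (fun j => g j r) i) r) ∧
      (∀ i, g i τ = 0) ∧ (∀ i, ∀ r ∈ Icc 0 τ, 0 ≤ g i r) ∧
      ∀ C : ℝ → (ι → ℝ) → Prop, Inv τ R C → ∀ r ∈ Icc 0 τ, C r fun i => g i r := by
  have τm : τ ∈ Icc 0 τ := ⟨hτ, le_rfl⟩
  -- continuity along curves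
  have cc : ∀ u : ι → ℝ → ℝ, (∀ i, ContinuousOn (u i) (Icc 0 τ)) → ∀ i,
      ContinuousOn (fun r => R r (fun j => u j r) i) (Icc 0 τ) := by
    intro u hu i
    have h1 : ContinuousOn (fun r : ℝ => ((r, fun j => u j r) : ℝ × (ι → ℝ))) (Icc 0 τ) :=
      continuousOn_id.prodMk (continuousOn_pi.2 hu)
    exact (cR i).comp h1 fun r hr => ⟨hr, mem_univ _⟩
  have R0' : ∀ r ∈ Icc 0 τ, ∀ u : ι → ℝ, (∀ i, 0 ≤ u i) → ∀ i, 0 ≤ R r u i := fun r hr u hu i =>
    (R0 r hr i).trans (mono r hr 0 u (fun _ => le_rfl) hu i)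
  -- the iterates
  let u : ℕ → ι → ℝ → ℝ := fun n => Nat.rec (fun _ _ => 0)
    (fun _ v i => bk (fun s => R s (fun j => v j s) i) τ) n
  have us : ∀ n i, u (n + 1) i = bk (fun s => R s (fun j => u n j s) i) τ := fun _ _ => rfl
  have key : ∀ n, (∀ i, ContinuousOn (u n i) (Icc 0 τ)) ∧ (∀ i, ∀ r ∈ Icc 0 τ, 0 ≤ u n i r) := by
    intro n
    induction n with
    | zero => exact ⟨fun i => continuousOn_const, fun i r _ => le_rfl⟩
    | succ n ih =>
      refine ⟨fun i r hr => ?_, fun i r hr => ?_⟩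
      · rw [us]
        exact (bk_deriv hτ (cc _ ih.1 i) hr).continuousAt.continuousWithinAt
      · rw [us]
        exact bk_nonneg hr fun z hz => R0' z hz _ (fun j => ih.2 j z hz) i
  have st : ∀ n, Pst τ R (u n) (u (n + 1)) := fun n => ⟨(key n).1, (key n).2, fun i r hr => by
    rw [us]; exact bk_deriv hτ (cc _ (key n).1 i) hr, fun i => by rw [us]; exact bk_self _ _⟩
  have inv : ∀ C : ℝ → (ι → ℝ) → Prop, Inv τ R C → ∀ n, ∀ r ∈ Icc 0 τ, C r fun i => u n i r := by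
    intro C hC n
    induction n with
    | zero => exact fun r hr => hC.z r hr
    | succ n ih => exact hC.st _ _ (st n) ih
  have up : ∀ n, ∀ i, ∀ r ∈ Icc 0 τ, u n i r ≤ u (n + 1) i r := by
    intro n
    induction n with
    | zero => exact fun i r hr => (key 1).2 i r hr
    | succ n ih =>
      intro i r hr
      rw [us, us (n + 1)]
      exact bk_le hr le_rfl (cc _ (key n).1 i) (cc _ (key (n + 1)).1 i)
        (fun z hz => mono z hz _ _ (fun j => (key n).2 j z hz) (fun j => ih j z hz) i)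
        fun z hz => R0' z hz _ (fun j => (key (n + 1)).2 j z hz) i
  have upm : ∀ i, ∀ r ∈ Icc 0 τ, Monotone fun n => u n i r := fun i r hr =>
    monotone_nat_of_le_succ fun n => up n i r hr
  have bd : ∀ n i, ∀ r ∈ Icc 0 τ, u n i r ≤ M := fun n i r hr => hM r hr _ (inv C0 h0 n r hr) i
  have lim : ∀ i, ∀ r ∈ Icc 0 τ, Tendsto (fun n => u n i r) atTop (𝓝 (⨆ n, u n i r)) :=
    fun i r hr => tendsto_atTop_ciSup (upm i r hr) ⟨M, by rintro _ ⟨n, rfl⟩; exact bd n i r hr⟩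
  -- uniform bound of the right sides
  set M' := max M 0 with hM'
  have bd' : ∀ n i, ∀ r ∈ Icc 0 τ, u n i r ≤ M' := fun n i r hr =>
    (bd n i r hr).trans (le_max_left _ _)
  have hB : ∀ i, ∃ B : ℝ, ∀ r ∈ Icc 0 τ, ∀ v : ι → ℝ, (∀ j, 0 ≤ v j) → (∀ j, v j ≤ M') →
      ‖R r v i‖ ≤ B := by
    intro i
    have hK : IsCompact (Icc 0 τ ×ˢ (Set.univ.pi fun _ : ι => Icc (0 : ℝ) M')) :=
      isCompact_Icc.prod (isCompact_univ_pi fun _ => isCompact_Icc)
    obtain ⟨B, hB⟩ := hK.exists_bound_of_continuousOn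
      ((cR i).mono (Set.prod_mono le_rfl (Set.subset_univ _)))
    exact ⟨B, fun r hr v h1 h2 => hB (r, v) ⟨hr, fun j _ => ⟨h1 j, h2 j⟩⟩⟩
  choose B hB using hB
  let v : ι → ℝ → ℝ := fun i r => ⨆ n, u n i r
  have v0 : ∀ i, ∀ r ∈ Icc 0 τ, 0 ≤ v i r := fun i r hr =>
    ge_of_tendsto' (lim i r hr) fun n => (key n).2 i r hr
  have lip : ∀ i, ∀ r ∈ Icc 0 τ, ∀ r' ∈ Icc 0 τ, |v i r - v i r'| ≤ B i * |r - r'| := by
    intro i r hr r' hr'
    have h1 : ∀ n, |u (n + 1) i r - u (n + 1) i r'| ≤ B i * |r - r'| := by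
      intro n
      have := Convex.norm_image_sub_le_of_norm_hasDerivWithin_le (f := u (n + 1) i)
        (f' := fun z => -R z (fun j => u n j z) i) (C := B i) (s := Icc 0 τ)
        (fun z hz => ((st n).2.2.1 i z hz).hasDerivWithinAt)
        (fun z hz => by
          rw [norm_neg]
          exact hB i z hz _ (fun j => (key n).2 j z hz) fun j => bd' n j z hz)
        (convex_Icc 0 τ) hr' hr
      simpa [Real.norm_eq_abs] using this
    have h2 : Tendsto (fun n => |u (n + 1) i r - u (n + 1) i r'|) atTop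
        (𝓝 |v i r - v i r'|) :=
      (((lim i r hr).comp (tendsto_add_atTop_nat 1)).sub
        ((lim i r' hr').comp (tendsto_add_atTop_nat 1))).abs
    exact le_of_tendsto' h2 h1
  have cv : ∀ i, ContinuousOn (v i) (Icc 0 τ) := by
    intro i
    have : LipschitzOnWith (Real.toNNReal (B i)) (v i) (Icc 0 τ) := by
      refine LipschitzOnWith.of_dist_le_mul fun r hr r' hr' => ?_
      rw [Real.dist_eq, Real.dist_eq]
      refine (lip i r hr r' hr').trans (mul_le_mul_of_nonneg_right ?_ (abs_nonneg _))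
      exact Real.le_coe_toNNReal _
    exact this.continuousOn
  let g : ι → ℝ → ℝ := fun i => bk (fun s => R s (fun j => v j s) i) τ
  have gv : ∀ i, ∀ r ∈ Icc 0 τ, g i r = v i r := by
    intro i r hr
    have h1 : Tendsto (fun n => u (n + 1) i r) atTop (𝓝 (v i r)) :=
      (lim i r hr).comp (tendsto_add_atTop_nat 1)
    have h2 : Tendsto (fun n => u (n + 1) i r) atTop (𝓝 (g i r)) := by
      simp only [us, g, bk]
      refine intervalIntegral.tendsto_integral_filter_of_dominated_convergence (fun _ => B i)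
        ?_ ?_ ?_ ?_
      · exact Eventually.of_forall fun n =>
          (bk_cont hτ (cc _ (key n).1 i)).aestronglyMeasurable
      · refine Eventually.of_forall fun n => Eventually.of_forall fun z _ => ?_
        exact hB i _ (clamp_mem hτ z) _ (fun j => (key n).2 j _ (clamp_mem hτ z))
          fun j => bd' n j _ (clamp_mem hτ z)
      · exact intervalIntegrable_const
      · refine Eventually.of_forall fun z _ => ?_
        have hz := clamp_mem hτ z
        have h3 : Tendsto (fun n => ((max 0 (min z τ), fun j => u n j (max 0 (min z τ))) :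
            ℝ × (ι → ℝ))) atTop
            (𝓝[Icc 0 τ ×ˢ univ] (max 0 (min z τ), fun j => v j (max 0 (min z τ)))) := by
          refine tendsto_nhdsWithin_iff.2 ⟨?_, Eventually.of_forall fun n => ⟨hz, mem_univ _⟩⟩
          exact tendsto_const_nhds.prodMk_nhds (tendsto_pi_nhds.2 fun j => lim j _ hz)
        exact ((cR i) (max 0 (min z τ), fun j => v j (max 0 (min z τ)))
          ⟨hz, mem_univ _⟩).tendsto.comp h3
    exact tendsto_nhds_unique h2 h1
  refine ⟨g, fun i r hr => ?_, fun i => bk_self _ _, fun i r hr => ?_, fun C hC r hr => ?_⟩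
  · have h1 := bk_deriv hτ (cc v cv i) hr
    have e : (fun j => g j r) = fun j => v j r := funext fun j => gv j r hr
    rw [e]
    exact h1
  · rw [gv i r hr]; exact v0 i r hr
  · have e : (fun j => g j r) = fun j => v j r := funext fun j => gv j r hr
    rw [e]
    exact (hC.cl r hr).mem_of_tendsto (tendsto_pi_nhds.2 fun j => lim j r hr)
      (Eventually.of_forall fun n => inv C hC n r hr)

end Pool.Agent.RZ.RCM
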