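import Mathlib

/-! Weighted sums over the targets, and over the positions, of the tails in a gauge
(MP_73ccd0_lc, route M). -/

namespace Pool.Agent.RZ.RCM

open Set Finset

set_option linter.unusedSectionVars false

variable {V : Type*} [Fintype V] [DecidableEq V]

/-- a common bound of finitely many continuous functions -/
theorem exists_bound {κ : Type*} [Finite κ] {t : ℝ} {f : κ → ℝ → ℝ}
    (hf : ∀ k, ContinuousOn (f k) (Icc 0 t)) : ∃ C : ℝ, 0 ≤ C ∧ ∀ k, ∀ r ∈ Icc 0 t, f k r ≤ C := by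
  cases nonempty_fintype κ
  have h1 : ∀ k, ∃ C : ℝ, 0 ≤ C ∧ ∀ r ∈ Icc 0 t, f k r ≤ C := fun k => by
    obtain ⟨C, hC⟩ := isCompact_Icc.exists_bound_of_continuousOn (hf k)
    exact ⟨max C 0, le_max_right _ _, fun r hr =>
      ((le_abs_self _).trans (hC r hr)).trans (le_max_left _ _)⟩
  choose C C0 hC using h1
  exact ⟨∑ k, C k, Finset.sum_nonneg fun k _ => C0 k, fun k r hr => (hC k r hr).trans
    (Finset.single_le_sum (f := C) (fun k _ => C0 k) (Finset.mem_univ k))⟩

end Pool.Agent.RZ.RCM
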