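import Pool.Agent.RZ.RCG.Ctx

/-! The deleted-form closures for an arbitrary base set `D` (targets `A` up to `t`, the other
vertices of `D` removed at time `s`) (MP_73ccd0_lc, route M). -/

namespace Pool.Agent.RZ.RCM

open Set Finset Pool.Agent.RZ.RCRSHalf Pool.Agent.RZ.RCG

set_option linter.unusedSectionVars false

variable {V : Type*} [Fintype V] [DecidableEq V]
variable {h : ℝ → V → V → ℝ} {H : V → V → ℝ → ℝ}

theorem HW_ins (hh : Haz h H) {i : V} {W : Finset V} (hi : i ∉ W) (s : ℝ) :
    HW H (insert i W) s = HW H W s + ∑ w ∈ W, H i w s := by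
  unfold HW
  rw [Finset.sum_insert hi]
  have e1 : ∀ a ∈ W, ∑ b ∈ insert i W, H a b s = H i a s + ∑ b ∈ W, H a b s := by
    intro a _
    rw [Finset.sum_insert hi, hh.Hsymm a i]
  rw [Finset.sum_congr rfl e1, Finset.sum_insert hi, hh.Hdiag, Finset.sum_add_distrib]
  ring

theorem HW_fourD (hh : Haz h H) {c d : V} {D : Finset V} (hc : c ∉ D) (hd : d ∉ D) (hcd : c ≠ d)
    (s : ℝ) :
    HW H ({c, d} ∪ D) s + HW H D s = HW H (insert c D) s + HW H (insert d D) s + H c d s := by
  have hcd' : c ∉ insert d D := by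
    rw [Finset.mem_insert]; rintro (e | e)
    · exact hcd e
    · exact hc e
  have e0 : ({c, d} ∪ D : Finset V) = insert c (insert d D) := by
    ext z; simp only [Finset.mem_union, Finset.mem_insert, Finset.mem_singleton]; tauto
  rw [e0, HW_ins hh hcd', HW_ins hh hc, HW_ins hh hd, Finset.sum_insert hd]
  ring

section

end

end Pool.Agent.RZ.RCM
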