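import Mathlib

/-! Two-phase form of the closures: world `A` on `[0, t]`, world `D` on `[0, s]`, with terminal
conditions at `s`; logarithmic form of the constant (MP_73ccd0_lc, route M). -/

namespace Pool.Agent.RZ.RCM

open Set Finset

set_option linter.unusedSectionVars false

variable {V : Type*} [Fintype V] [DecidableEq V]
variable {h : ℝ → V → V → ℝ} {H : V → V → ℝ → ℝ}

/-- logarithmic form of the constant -/
theorem K_le_exp {k0 g0 H0 n1 n2 q1 q2 : ℝ}
    (a2 : 0 ≤ Real.exp n2 - q2) :
    Real.exp (k0 + g0 + H0) * ((Real.exp n1 - q1) * (Real.exp n2 - q2))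
      ≤ Real.exp (k0 + g0 + n1 + n2 + (H0 - q1 * Real.exp (-n1) - q2 * Real.exp (-n2))) := by
  have key : ∀ n q : ℝ, Real.exp n - q ≤ Real.exp (n - q * Real.exp (-n)) := by
    intro n q
    have h1 : Real.exp n - q = Real.exp n * (1 - q * Real.exp (-n)) := by
      have : Real.exp n * Real.exp (-n) = 1 := by rw [← Real.exp_add]; simp
      linear_combination q * this
    have h2 : 1 - q * Real.exp (-n) ≤ Real.exp (-(q * Real.exp (-n))) := by
      have := Real.add_one_le_exp (-(q * Real.exp (-n)))
      linarith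
    rw [h1, sub_eq_add_neg n, Real.exp_add]
    exact mul_le_mul_of_nonneg_left h2 (Real.exp_pos _).le
  have h1 := mul_le_mul (key n1 q1) (key n2 q2) a2 (Real.exp_pos _).le
  have h2 := mul_le_mul_of_nonneg_left h1 (Real.exp_pos (k0 + g0 + H0)).le
  refine h2.trans (le_of_eq ?_)
  rw [← Real.exp_add, ← Real.exp_add]
  congr 1
  ring

section

end

end Pool.Agent.RZ.RCM
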