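import Pool.Agent.RZ.RCM.World

/-! Level 1 in the deleted form: `v_c(F) = Ψ(F) / Φ(F)` (MP_73ccd0_lc, route M). -/

namespace Pool.Agent.RZ.RCM

open Set Finset Pool.Agent.RZ.RCRSHalf Pool.Agent.RZ.RCG

set_option linter.unusedSectionVars false

variable {V : Type*} [Fintype V] [DecidableEq V]

/-- the rate identity with one inserted vertex -/
theorem rsum1 (h : V → V → ℝ) (hs : ∀ a b, h a b = h b a) (haa : ∀ a, h a a = 0)
    {φ1 φ0 φc φd : Finset V → ℝ} {e : V} {F : Finset V} (he : e ∉ F)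
    (hB : φ0 (insert e F) ≠ 0) (hC : φc (insert e F) ≠ 0) :
    lr h φ1 F + lr h φ0 (insert e F) - lr h φc (insert e F) - lr h φd F
      = (1 / 2) * ∑ x ∈ F, ∑ y ∈ F, h x y * (φ1 ((F.erase x).erase y) / φ1 F
          + φ0 (insert e ((F.erase x).erase y)) / φ0 (insert e F)
          - φc (insert e ((F.erase x).erase y)) / φc (insert e F)
          - φd ((F.erase x).erase y) / φd F)
        + ∑ b ∈ F, h e b * (φ0 (F.erase b) / φ0 (insert e F) - φc (F.erase b) / φc (insert e F)) := by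
  rw [lr_insert h hs haa he hB, lr_insert h hs haa he hC]
  have e1 : ∑ b ∈ F, h e b * (φ0 (F.erase b) / φ0 (insert e F) - φc (F.erase b) / φc (insert e F))
      = ∑ b ∈ F, h e b * (φ0 (F.erase b) / φ0 (insert e F) - 1)
        - ∑ b ∈ F, h e b * (φc (F.erase b) / φc (insert e F) - 1) := by
    rw [← Finset.sum_sub_distrib]
    exact Finset.sum_congr rfl fun b _ => by ring
  rw [e1]
  unfold lr
  have e3 : (1 / 2) * ∑ x ∈ F, ∑ y ∈ F, h x y * (φ1 ((F.erase x).erase y) / φ1 F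
          + φ0 (insert e ((F.erase x).erase y)) / φ0 (insert e F)
          - φc (insert e ((F.erase x).erase y)) / φc (insert e F)
          - φd ((F.erase x).erase y) / φd F)
      = (1 / 2) * ∑ x ∈ F, ∑ y ∈ F, h x y * (φ1 ((F.erase x).erase y) / φ1 F - 1)
        + (1 / 2) * ∑ x ∈ F, ∑ y ∈ F, h x y *
          (φ0 (insert e ((F.erase x).erase y)) / φ0 (insert e F) - 1)
        - (1 / 2) * ∑ x ∈ F, ∑ y ∈ F, h x y *
          (φc (insert e ((F.erase x).erase y)) / φc (insert e F) - 1)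
        - (1 / 2) * ∑ x ∈ F, ∑ y ∈ F, h x y *
          (φd ((F.erase x).erase y) / φd F - 1) := by
    rw [← mul_add, ← mul_sub, ← mul_sub]
    congr 1
    rw [← Finset.sum_add_distrib, ← Finset.sum_sub_distrib, ← Finset.sum_sub_distrib]
    refine Finset.sum_congr rfl fun x _ => ?_
    rw [← Finset.sum_add_distrib, ← Finset.sum_sub_distrib, ← Finset.sum_sub_distrib]
    exact Finset.sum_congr rfl fun y _ => by ring
  rw [e3]
  ring

/-- bounds of `v(F) / v(F + e)`, `v = Ψ / Φ` -/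
def Bv (Φ Ψ : Finset V → ℝ → ℝ) (p n : V → ℝ → ℝ) (e : V) (F : Finset V) (r : ℝ) : Prop :=
  Ψ (insert e F) r * Φ F r ≤ Real.exp (n e r) * (Ψ F r * Φ (insert e F) r) ∧
    Ψ F r * Φ (insert e F) r ≤ Real.exp (p e r) * (Ψ (insert e F) r * Φ F r)

section

variable {h : ℝ → V → V → ℝ} {κ : ℝ → V → ℝ} {s t : ℝ} {Φ Ψ : Finset V → ℝ → ℝ} {c : V}
  {X : Finset V} {W T : ℝ → V → V → ℝ} {gp gm : V → V → ℝ → ℝ} {p p' n n' : V → ℝ → ℝ}

/-- the rates in the deleted form -/
theorem ratesV (hs : ∀ t a b, h t a b = h t b a) (haa : ∀ t a, h t a a = 0)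
    (hΦ : Wd h κ s Φ) (hΨ : Wd h (fun r a => κ r a + h r c a) s Ψ) {e : V} {F : Finset V}
    (he : e ∉ F) {r : ℝ} (hr : r ∈ Icc 0 s) :
    (lr (h r) (fun G => Ψ G r) F - ∑ a ∈ F, (κ r a + h r c a))
        + (lr (h r) (fun G => Φ G r) (insert e F) - ∑ a ∈ insert e F, κ r a)
        - (lr (h r) (fun G => Ψ G r) (insert e F) - ∑ a ∈ insert e F, (κ r a + h r c a))
        - (lr (h r) (fun G => Φ G r) F - ∑ a ∈ F, κ r a)
      = (1 / 2) * ∑ x ∈ F, ∑ y ∈ F, h r x y * (Ψ ((F.erase x).erase y) r / Ψ F r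
          + Φ (insert e ((F.erase x).erase y)) r / Φ (insert e F) r
          - Ψ (insert e ((F.erase x).erase y)) r / Ψ (insert e F) r
          - Φ ((F.erase x).erase y) r / Φ F r)
        + ∑ b ∈ F, h r e b * (Φ (F.erase b) r / Φ (insert e F) r
          - Ψ (F.erase b) r / Ψ (insert e F) r)
        + h r c e := by
  have := rsum1 (h r) (hs r) (haa r) (φ1 := fun G => Ψ G r) (φ0 := fun G => Φ G r)
    (φc := fun G => Ψ G r) (φd := fun G => Φ G r) he (hΦ.pos _ r hr).ne' (hΨ.pos _ r hr).ne'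
  rw [← this, Finset.sum_insert he, Finset.sum_insert he, Finset.sum_add_distrib]
  ring

end

end Pool.Agent.RZ.RCM
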