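import Pool.Agent.RZ.RCM.WldV_1
import Pool.Agent.RZ.RCM.Zero

/-! The world of the removed set `D` (the part `A` with the time `t`, the rest with the time `s`)
with vector valued functions of level 0 (MP_73ccd0_lc, route M). -/

namespace Pool.Agent.RZ.RCM

open Set Finset MeasureTheory Pool.Agent.RZ.RCRSHalf Pool.Agent.RZ.RCG

set_option linter.unusedSectionVars false

variable {V : Type*} [Fintype V] [DecidableEq V]

section

variable {hb : ℝ → V → V → ℝ} {x : V → V → ℝ} {D : Finset V} {t : ℝ} {mb : ℝ → ℝ}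
  {θ : V → ℝ → ℝ} {Y Y' N N' : ℝ → ℝ}

variable {h : ℝ → V → V → ℝ} {H : V → V → ℝ → ℝ}

/-- one phase of the world: `A` is removed with horizons `τ w` -/
theorem L0s.phase (hL : L0s hb x D t mb θ Y Y' N N') (hx : Wt x) (hh : Haz h H) (h0 : 0 ≤ t)
    (hle : ∀ u v, ∀ r ∈ Icc 0 t, h r u v ≤ hb r u v) {A : Finset V} (hAD : A ⊆ D) {s : ℝ}
    (hst : s ≤ t) {τ : V → ℝ} (hsτ : ∀ w ∈ A, s ≤ τ w)
    (hθ : ∀ w ∈ A, ∀ e, ∀ r ∈ Icc 0 s, H w e (τ w) - H w e r ≤ x w e * θ w r) :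
    ∃ P P' : V → ℝ → ℝ,
      L0 h (fun r v => ∑ w ∈ A, h r w v) Dᶜ s P P' (nx hb x D θ Y t)
        (fun e r => -(∑ f ∈ Dᶜ, hb r e f * (Real.exp (yx hb x D θ Y t f r) - 1))) ∧
      (∀ e, ∀ r ∈ Icc 0 s, P e r = Real.exp (∑ w ∈ A, (H w e (τ w) - H w e r)
        + yv hb Dᶜ (nv hb Dᶜ (yhat x D θ Y) t) t e r) - 1) ∧
      (∀ e, ∀ r ∈ Icc 0 s, 0 ≤ P e r ∧ P e r ≤ Real.exp (yx hb x D θ Y t e r) - 1) := by
  have m : ∀ r ∈ Icc 0 s, r ∈ Icc 0 t := fun r hr => ⟨hr.1, hr.2.trans hst⟩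
  set Yv : V → ℝ → ℝ := fun e r => yv hb Dᶜ (nv hb Dᶜ (yhat x D θ Y) t) t e r with hYv
  set E : V → ℝ → ℝ := fun e r => ∑ w ∈ A, (H w e (τ w) - H w e r) + Yv e r with hE
  have cnv := fun e => nv_cont (e := e) (U := Dᶜ) h0 hL.bc hL.yhat_cont
  have E0 : ∀ e, ∀ r ∈ Icc 0 s, 0 ≤ E e r := fun e r hr =>
    add_nonneg (Finset.sum_nonneg fun w hw => by
      linarith [hh.Hmono w e (hr.2.trans (hsτ w hw))]) (hL.yv_nonneg hx e (m r hr))
  have El : ∀ e, ∀ r ∈ Icc 0 s, E e r ≤ yx hb x D θ Y t e r := fun e r hr => by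
    refine add_le_add ?_ le_rfl
    refine (Finset.sum_le_sum fun w hw => hθ w hw e r hr).trans ?_
    exact Finset.sum_le_sum_of_subset_of_nonneg hAD fun w hw _ =>
      mul_nonneg (hx.nn w e) (hL.θ0 w hw r (m r hr))
  have dE : ∀ e, ∀ r ∈ Icc 0 s, HasDerivAt (E e) (∑ w ∈ A, (0 - h r w e)
      + -(∑ f ∈ Dᶜ, hb r e f * nv hb Dᶜ (yhat x D θ Y) t f r)) r := fun e r hr =>
    (HasDerivAt.fun_sum fun w _ => (hasDerivAt_const _ _).sub (hh.Hd w e r)).add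
      (bk_deriv h0 (yv_int_cont hL.bc cnv _ e) (m r hr))
  have P0 : ∀ e, ∀ r ∈ Icc 0 s, 0 ≤ Real.exp (E e r) - 1 := fun e r hr => by
    have := Real.one_le_exp (E0 e r hr); linarith
  have Pl : ∀ e, ∀ r ∈ Icc 0 s, Real.exp (E e r) - 1 ≤ Real.exp (yx hb x D θ Y t e r) - 1 :=
    fun e r hr => by have := Real.exp_le_exp.2 (El e r hr); linarith
  refine ⟨fun e r => Real.exp (E e r) - 1, fun e r => Real.exp (E e r)
      * (∑ w ∈ A, (0 - h r w e) + -(∑ f ∈ Dᶜ, hb r e f * nv hb Dᶜ (yhat x D θ Y) t f r)),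
    ⟨fun e _ r hr => ?_, fun e he r hr => ?_, fun e r hr => P0 e r hr,
      fun e r hr => hL.nx_nonneg hx e (m r hr), fun e r hr => hL.nx_one hx h0 e (m r hr),
      fun e he r hr => ?_, fun e he r hr => ?_⟩, fun e r _ => rfl,
    fun e r hr => ⟨P0 e r hr, Pl e r hr⟩⟩
  · exact (dE e r hr).exp.sub_const 1
  · rw [nx_eq he]
    exact bk_deriv h0 (nv_int_cont hL.bc (hL.yx_cont h0) _ e) (m r hr)
  · have e1 : -(Real.exp (E e r) * (∑ w ∈ A, (0 - h r w e)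
        + -(∑ f ∈ Dᶜ, hb r e f * nv hb Dᶜ (yhat x D θ Y) t f r)))
        = Real.exp (E e r) * (∑ w ∈ A, h r w e
          + ∑ f ∈ Dᶜ, hb r e f * nv hb Dᶜ (yhat x D θ Y) t f r) := by
      simp only [zero_sub, Finset.sum_neg_distrib]
      ring
    rw [e1]
    have e2 : 1 + (Real.exp (E e r) - 1) = Real.exp (E e r) := by ring
    rw [e2]
    refine mul_le_mul_of_nonneg_left (add_le_add le_rfl ?_) (Real.exp_pos _).le
    refine Finset.sum_le_sum fun f _ => ?_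
    exact mul_le_mul (hle e f r (m r hr)) (hL.nx_le hx h0 f (m r hr))
      (hL.nx_nonneg hx f (m r hr)) (hL.b0 e f r (m r hr))
  · rw [neg_neg]
    refine Finset.sum_le_sum fun f _ => ?_
    exact mul_le_mul (hle e f r (m r hr)) (Pl f r hr) (P0 f r hr) (hL.b0 e f r (m r hr))

end

end Pool.Agent.RZ.RCM
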